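import Pool.Agent.J4.H14.MV.Spec

/-!
Linear degree bounds for the coverings of curves in the varieties with many-valued morphisms to
ramified pairs.
-/

set_option autoImplicit false
set_option linter.unusedSectionVars false
set_option linter.overlappingInstances false

open FF IntermediateField

namespace Pool.Agent.J4.H14.MV

open Pool.Agent.TH466.QG Pool.Agent.N111.FT Pool.Agent.N111.GG Pool.Agent.N111.GI
  Pool.Agent.W603.LV Pool.Agent.J4.H14.RP
open Pool.Agent.N126.RC (curve_cover generic_closure general_coverW alg_coords)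
open Pool.Agent.W602.GT (val coords IsForm LogGeneralType GeneralType)
open Pool.Agent.W603.PV (pht pht_le pord pord_le exists_pord hgt_algebraic isFF_of_finite
  hgt_algebraMap under ram ram_spec ord_under)
open Pool.Agent.Y216 (OnVar)
open Pool.Agent.Y221.PB (alg_hgt)
open Pool.Agent.Y221.AH (pht_nonneg)

section

variable {k K : Type} [Field k] [Field K] [IsAlgClosed K] [CharZero K] [Algebra k K]

/-- The coverings of curves in a ramified pair. -/
theorem curve_X (X : SparsePair k K) {R : ℕ} (hex : 0 < X.excess R) :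
    ∃ Bd : ℕ, ∀ (F E : Type) [Field F] [Field E] [Algebra K F] [Algebra K E] [Algebra F E]
    [IsScalarTower K F E] [FiniteDimensional F E] [IsFF K F] [IsFF K E],
    Module.finrank F E ≤ R → ∀ (S : Finset (Place K F)) (z : Fin (X.n + 1) ⊕ X.W → E), X.Point z →
    (∀ (P : Place K F) (Q : Place K E) (e : ℕ), Over Q P e → P ∉ S → ∀ a ∈ X.boundary,
      Q.ord (MvPolynomial.aeval (fun j => z (Sum.inl j)) (X.F a)) ≤
        X.d a * pord Q (fun j => z (Sum.inl j))) →
    pht K (fun j => z (Sum.inl j)) ≤ Bd * max (canDeg K F + S.card) 0 := by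
  obtain ⟨Bd, hBd⟩ := exists_nat_ge ((R : ℚ) / X.excess R)
  have hBd1 : (R : ℚ) ≤ Bd * X.excess R := by
    rwa [div_le_iff₀ hex] at hBd
  refine ⟨Bd, fun F E _ _ _ _ _ _ _ _ _ hR S z hz hbd => ?_⟩
  have hm : (0 : ℤ) ≤ Bd * max (canDeg K F + S.card) 0 :=
    mul_nonneg (Nat.cast_nonneg _) (le_max_right _ _)
  by_cases hnc : ∃ v, z v ∉ Set.range (algebraMap K E)
  · have h1 := curve_multi X S z hz hnc hbd
    have h0 : (0 : ℤ) ≤ pht K (fun j => z (Sum.inl j)) :=
      pht_nonneg hz.exists_ne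
    have h5 : (0 : ℚ) ≤ ((pht K (fun j => z (Sum.inl j)) : ℤ) : ℚ) := by exact_mod_cast h0
    have h3 : ((pht K (fun j => z (Sum.inl j)) : ℤ) : ℚ) ≤
        ((Bd * max (canDeg K F + S.card) 0 : ℤ) : ℚ) := by
      obtain ⟨mx, hmx⟩ : ∃ mx : ℤ, mx = max (canDeg K F + S.card) 0 := ⟨_, rfl⟩
      have h4 : ((canDeg K F : ℤ) : ℚ) + S.card ≤ (mx : ℚ) := by
        rw [hmx]
        exact_mod_cast le_max_left (canDeg K F + (S.card : ℤ)) 0
      have hmx0 : (0 : ℚ) ≤ mx := by
        rw [hmx]
        exact_mod_cast le_max_right (canDeg K F + (S.card : ℤ)) 0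
      have hR' : (Module.finrank F E : ℚ) ≤ R := by exact_mod_cast hR
      have hR0 : (0 : ℚ) ≤ Module.finrank F E := Nat.cast_nonneg _
      have hE0 : (0 : ℚ) ≤ X.E := Nat.cast_nonneg _
      have h6 : X.excess R ≤ X.excess (Module.finrank F E) := by
        unfold SparsePair.excess
        nlinarith
      have h7 := mul_le_mul_of_nonneg_right h6 h5
      have h8 : (Module.finrank F E : ℚ) * (canDeg K F + S.card) ≤ R * mx :=
        (mul_le_mul_of_nonneg_left h4 hR0).trans (mul_le_mul_of_nonneg_right hR' hmx0)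
      have h9 : (R : ℚ) * mx ≤ Bd * X.excess R * mx := mul_le_mul_of_nonneg_right hBd1 hmx0
      have h10 : X.excess R * pht K (fun j => z (Sum.inl j)) ≤ X.excess R * (Bd * mx) := by
        linarith
      have h11 := le_of_mul_le_mul_left h10 hex
      rw [← hmx]
      push_cast
      exact h11
    exact_mod_cast h3
  · push Not at hnc
    obtain ⟨⟨c, -, hc⟩, -⟩ := hz
    exact (pht_const (c := c) hc fun j => hnc _).trans hm

end

section

variable {k K L : Type} [Field k] [Field K] [IsAlgClosed K] [CharZero K] [Algebra k K] [Field L]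
  [Algebra K L] {N : ℕ} {u : Fin (N + 1) → L} {B : MvPolynomial (Fin (N + 1)) K} {b r ρ : ℕ}

/-- **Linear degree bounds**, for a finite family of many-valued morphisms. -/
theorem fam_bound (hu : u ≠ 0) (hgen : coords K u = ⊤) (hB : B.IsHomogeneous b)
    (hBu : MvPolynomial.aeval u B ≠ 0) {J : Type} [Finite J] (C : J → MultiMap k u B b r)
    (hex : ∀ j, 0 < (C j).X.excess (ρ * r)) {M' : Type} [Field M'] [Algebra K M'] [Algebra L M']
    [IsScalarTower K L M'] [FiniteDimensional L M'] (ψ : ∀ j, (C j).L' →ₐ[L] M')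
    (ci : ∀ j, Fin ((C j).X.n + 1))
    (hh : ∀ t : L, algebraMap L M' t ∈
      aclo K (Set.range fun j => ψ j ((C j).z (Sum.inl (ci j))))) :
    CoverBound ρ u B b := by
  classical
  have := Fintype.ofFinite J
  obtain ⟨i1, hi1'⟩ := Function.ne_iff.1 hu
  have hi1 : u i1 ≠ 0 := hi1'
  obtain ⟨vv, hvv⟩ : ∃ vv : J → M', vv = fun j => ψ j ((C j).z (Sum.inl (ci j))) := ⟨_, rfl⟩
  rw [← hvv] at hh
  choose Bd hBd using fun j => curve_X (C j).X (hex j)
  -- the field of the values
  obtain ⟨K1, hK1⟩ : ∃ K1 : IntermediateField K M', K1 = adjoin K (Set.range vv) := ⟨_, rfl⟩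
  have hvK : ∀ j, vv j ∈ K1 := fun j => by rw [hK1]; exact subset_adjoin _ _ ⟨j, rfl⟩
  have halg : Algebra.IsAlgebraic K1 M' := by
    constructor
    intro t
    rw [hK1, ← mem_aclo]
    apply aclo_closed
    obtain ⟨q, hq, hqt⟩ := Algebra.IsAlgebraic.isAlgebraic (R := L) t
    let φ : L →+* aclo K (Set.range vv) := (algebraMap L M').codRestrict _ hh
    refine ⟨q.map φ, ?_, ?_⟩
    · rw [Ne, Polynomial.map_eq_zero]
      exact hq
    · rw [← hqt, Polynomial.aeval_def, Polynomial.eval₂_map, Polynomial.aeval_def]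
      rfl
  obtain ⟨p, hp⟩ : ∃ p, p = Fintype.card J := ⟨_, rfl⟩
  let e : Fin p ≃ J := (Fintype.equivFinOfCardEq hp.symm).symm
  let y : Fin (p + 1) → K1 := Fin.cons 1 fun i => ⟨vv (e i), hvK _⟩
  have hy0 : y 0 = 1 := rfl
  have hys : ∀ i : Fin p, ((y i.succ : K1) : M') = vv (e i) := fun i => rfl
  have hygen : coords K y = ⊤ := by
    rw [eq_top_iff]
    rintro ⟨t, ht⟩ -
    have h1 : adjoin K (Set.range vv) ≤ (coords K y).map K1.val := by
      rw [adjoin_le_iff]
      rintro _ ⟨j, rfl⟩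
      refine ⟨y (e.symm j).succ, ?_, ?_⟩
      · unfold Pool.Agent.W602.GT.coords
        refine subset_adjoin _ _ ⟨(e.symm j).succ, 0, ?_, ?_⟩
        · rw [hy0]
          exact one_ne_zero
        · rw [hy0, div_one]
      · change ((y (e.symm j).succ : K1) : M') = vv j
        rw [hys, Equiv.apply_symm_apply]
    obtain ⟨t', ht', h2⟩ := h1 (hK1 ▸ ht)
    have h3 : t' = ⟨t, ht⟩ := Subtype.ext h2
    rw [← h3]
    exact ht'
  obtain ⟨Θ2, Ca, hΘ2, halgs⟩ := alg_hgt (k := K) (K := K1) (K' := M') hygen (i0 := 0)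
    (by rw [hy0]; exact one_ne_zero) (fun m : Fin (N + 1) => algebraMap L M' (u m / u i1))
  obtain ⟨H, hH, hspread⟩ := Pool.Agent.N95.GP.spread_deg (k := K) (L := L) (M' := M')
    (adjoin_norm hgen hi1)
    (Θ := (algebraMap K1 M' '' Θ2) ∪
      {(algebraMap L M' (MvPolynomial.aeval (fun i => u i / u i1) B))⁻¹})
    ((hΘ2.image _).union (Set.finite_singleton _)) ψ
    (Θ' := fun j => Set.range (C j).z ∪ Set.range fun a =>
      (MvPolynomial.aeval (fun i => (C j).z (Sum.inl i)) ((C j).X.F a))⁻¹) (fun j => by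
        have := (C j).X.finW
        have := (C j).X.fin
        exact (Set.finite_range _).union (Set.finite_range _))
  obtain ⟨D, hD⟩ : ∃ D, D = Module.finrank L M' := ⟨_, rfl⟩
  refine ⟨MvPolynomial.X i1 * Pool.Agent.TH466.QG.hz i1 H, ?_, ?_,
    (N + 1) * (Ca * (∑ j, D * Bd j)), ?_⟩
  · obtain ⟨d, hd⟩ := hz_form i1 H
    exact ⟨1 + d, (MvPolynomial.isHomogeneous_X K i1).mul hd⟩
  · rw [map_mul, MvPolynomial.aeval_X]
    refine mul_ne_zero hi1 ?_
    change val u _ ≠ 0
    rw [val_hz H hi1]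
    exact mul_ne_zero (pow_ne_zero _ hi1) hH
  intro F0 E _ _ _ _ _ _ _ _ _ hρ S0 f hf hfR
  obtain ⟨hfM, hfB, hfS⟩ := hf
  rw [map_mul, MvPolynomial.aeval_X] at hfR
  have hf1 : f i1 ≠ 0 := left_ne_zero_of_mul hfR
  have hfH : MvPolynomial.aeval (fun i => f i / f i1) H ≠ 0 := by
    have h1 : val f (Pool.Agent.TH466.QG.hz i1 H) ≠ 0 := right_ne_zero_of_mul hfR
    rw [val_hz H hf1] at h1
    exact right_ne_zero_of_mul h1
  have hsp : ∀ G : MvPolynomial (Fin (N + 1)) K,
      MvPolynomial.aeval (fun i => u i / u i1) G = 0 →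
      MvPolynomial.aeval (fun i => f i / f i1) G = 0 := by
    intro G hG
    have h1 : val u (Pool.Agent.TH466.QG.hz i1 G) = 0 := by
      rw [val_hz G hi1, hG, mul_zero]
    have h2 := hfM.2 _ (hz_form i1 G) h1
    rw [val_hz G hf1] at h2
    exact (mul_eq_zero.1 h2).resolve_left (pow_ne_zero _ hf1)
  obtain ⟨K'', i1', i2', i3', i4', i5', hrk, S, hSx, hSΘ, hSj⟩ := hspread E
    (fun i => f i / f i1) hsp hfH
  have hff : IsFF K K'' := isFF_of_finite (F := E)
  obtain ⟨χ, hχ⟩ : ∃ χ : ℤ, χ = max (canDeg K F0 + S0.card) 0 := ⟨_, rfl⟩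
  have hχ0 : 0 ≤ χ := by rw [hχ]; exact le_max_right _ _
  rw [← hχ]
  have hinvB := hSΘ _ (Or.inr rfl)
  -- the specializations of the values
  have key : ∀ j, ∃ v' : K'', S.T (vv j) v' ∧ hgt K v' ≤ (D * Bd j : ℕ) * χ := by
    intro j
    obtain ⟨F, hF, hFΘ⟩ := hSj j
    choose zj hzj using fun v => hFΘ ((C j).z v) (Or.inl ⟨v, rfl⟩)
    have hst : IsScalarTower K F K'' := IsScalarTower.of_algebraMap_eq fun _ => rfl
    have hFF : IsFF K F := isFF_of_finite (F := E)
    let iA : Algebra F0 F := ((algebraMap E F).comp (algebraMap F0 E)).toAlgebra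
    have iT1 : IsScalarTower F0 E F := IsScalarTower.of_algebraMap_eq fun _ => rfl
    have iT2 : IsScalarTower K F0 F := IsScalarTower.of_algebraMap_eq fun c => by
      change _ = algebraMap E F (algebraMap F0 E (algebraMap K F0 c))
      rw [← IsScalarTower.algebraMap_apply K F0 E, ← IsScalarTower.algebraMap_apply K E F]
    have iF : FiniteDimensional F0 F := FiniteDimensional.trans F0 E F
    have hfr : Module.finrank F0 F ≤ ρ * r := by
      rw [← Module.finrank_mul_finrank F0 E F]
      exact Nat.mul_le_mul hρ (hF.trans (C j).deg_le)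
    -- the point
    have hev : ∀ P : MvPolynomial (Fin ((C j).X.n + 1) ⊕ (C j).X.W) K,
        S.T (ψ j (MvPolynomial.aeval (C j).z P)) ((MvPolynomial.aeval zj P : F) : K'') := by
      intro P
      have h1 := sp_val S hzj P
      have e1 : MvPolynomial.aeval (fun v => ψ j ((C j).z v)) P =
          ψ j (MvPolynomial.aeval (C j).z P) := by
        have h2 : ((ψ j).restrictScalars K).comp (MvPolynomial.aeval (C j).z) =
            MvPolynomial.aeval (fun v => ψ j ((C j).z v)) := by
          apply MvPolynomial.algHom_ext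
          intro i
          simp
        rw [← h2]
        rfl
      have e2 : MvPolynomial.aeval (fun v => ((zj v : F) : K'')) P =
          ((MvPolynomial.aeval zj P : F) : K'') := MvPolynomial.aeval_algebraMap_apply K'' zj P
      rw [e1, e2] at h1
      exact h1
    have hevx : ∀ P : MvPolynomial (Fin ((C j).X.n + 1)) K,
        S.T (ψ j (MvPolynomial.aeval (fun i => (C j).z (Sum.inl i)) P))
          ((MvPolynomial.aeval (fun i => zj (Sum.inl i)) P : F) : K'') := by
      intro P
      have h1 := hev (MvPolynomial.rename Sum.inl P)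
      rw [MvPolynomial.aeval_rename, MvPolynomial.aeval_rename] at h1
      exact h1
    obtain ⟨cc, hcc, hzc⟩ := (C j).point.1
    have hzj0 : zj (Sum.inl cc) = 1 := by
      have h1 := hzj (Sum.inl cc)
      rw [hzc, map_one] at h1
      exact Subtype.ext (S.ext h1 S.one)
    have hpt : (C j).X.Point zj := by
      refine ⟨⟨cc, hcc, hzj0⟩, fun i => ?_⟩
      have h1 := hev ((C j).X.G i)
      rw [(C j).point.2, map_zero] at h1
      exact Subtype.ext (S.uniq h1)
    have hFinv : ∀ a, ∃ t : F, S.T (ψ j (MvPolynomial.aeval (fun i => (C j).z (Sum.inl i))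
        ((C j).X.F a)))⁻¹ (t : K'') := by
      intro a
      obtain ⟨t, ht⟩ := hFΘ _ (Or.inr ⟨a, rfl⟩)
      rw [map_inv₀] at ht
      exact ⟨t, ht⟩
    have h1 := hBd j F0 F hfr S0 zj hpt (fun P Q e' hQP hP a ha => by
      have hF0 := (C j).ne_zero a ha
      have hF0' : ψ j (MvPolynomial.aeval (fun i => (C j).z (Sum.inl i)) ((C j).X.F a)) ≠ 0 :=
        (_root_.map_ne_zero _).2 hF0
      obtain ⟨t, ht⟩ := hFinv a
      have hFs : ((MvPolynomial.aeval (fun i => zj (Sum.inl i)) ((C j).X.F a) : F) : K'') ≠ 0 :=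
        S.ne_zero (hevx _) ⟨_, ht⟩ hF0'
      have hFs' : MvPolynomial.aeval (fun i => zj (Sum.inl i)) ((C j).X.F a) ≠ 0 := by
        intro h
        apply hFs
        rw [h]
        rfl
      -- the places
      obtain ⟨Q'', e'', hQ''⟩ := exists_place_above (F := K'') Q
      have ho1 : Over Q (under E Q) (ram E Q) :=
        ⟨(ram_spec (F := E) Q).1, fun f => ord_under Q f⟩
      have ho2 : Over (under E Q) (under F0 (under E Q)) (ram F0 (under E Q)) :=
        ⟨(ram_spec (F := F0) (under E Q)).1, fun f => ord_under (under E Q) f⟩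
      have hPP : P = under F0 (under E Q) :=
        (Pool.Agent.Y172.over_unique' hQP (over_trans ho2 ho1)).1
      have hQB : (under E Q).ord (MvPolynomial.aeval f B) = b * pord (under E Q) f := by
        refine hfS (under F0 (under E Q)) (under E Q) _ ho2 ?_
        rw [← hPP]
        exact hP
      obtain ⟨l, hl, hlo⟩ := exists_pord Q (Function.ne_iff.1 hpt.ne)
      have hT : S.T (ψ j ((C j).z (Sum.inl l) ^ (C j).X.d a /
          MvPolynomial.aeval (fun i => (C j).z (Sum.inl i)) ((C j).X.F a)))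
          (((zj (Sum.inl l)) ^ (C j).X.d a /
            MvPolynomial.aeval (fun i => zj (Sum.inl i)) ((C j).X.F a) : F) : K'') := by
        rw [map_div₀, map_pow, div_eq_mul_inv, div_eq_mul_inv]
        exact S.mul (S.pow (hzj _) _) (S.inv (hevx _) ⟨_, ht⟩ hF0')
      have h2 := integral_spec hB hi1 hBu S hf1 hSx hinvB hfB (ψ j) ((C j).integral a ha l) hT
        (Q := under E Q) (over_trans ho1 hQ'') hQB
      have h3 : Ge Q 0 ((zj (Sum.inl l)) ^ (C j).X.d a /
            MvPolynomial.aeval (fun i => zj (Sum.inl i)) ((C j).X.F a)) := by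
        rcases h2 with h | h
        · left
          exact Subtype.ext h
        · right
          have h4 := hQ''.2 ((zj (Sum.inl l)) ^ (C j).X.d a /
            MvPolynomial.aeval (fun i => zj (Sum.inl i)) ((C j).X.F a))
          have h5 : (0 : ℤ) < e'' := by exact_mod_cast hQ''.1
          have h6 : 0 ≤ (e'' : ℤ) * Q.ord ((zj (Sum.inl l)) ^ (C j).X.d a /
            MvPolynomial.aeval (fun i => zj (Sum.inl i)) ((C j).X.F a)) := by
            rw [← h4]
            exact h
          exact nonneg_of_mul_nonneg_right h6 h5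
      have hl' : zj (Sum.inl l) ^ (C j).X.d a ≠ 0 := pow_ne_zero _ hl
      have h4 := h3.resolve_left (div_ne_zero hl' hFs')
      rw [Q.ord_div hl' hFs', Q.ord_pow] at h4
      rw [hlo] at h4
      linarith)
    rw [← hχ] at h1
    refine ⟨zj (Sum.inl (ci j)), by rw [hvv]; exact hzj _, ?_⟩
    have h2 : hgt K ((zj (Sum.inl (ci j)) : F) : K'') = Module.finrank F K'' *
        hgt K (zj (Sum.inl (ci j))) := hgt_algebraMap (k := K) (F := F) (L := K'') _
    have h3 : hgt K (zj (Sum.inl (ci j))) ≤ Bd j * χ := by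
      by_cases hj : zj (Sum.inl (ci j)) = 0
      · rw [hj, hgt_zero]
        exact mul_nonneg (by positivity) hχ0
      · have h4 := Pool.Agent.W603.CX.hgt_le_pht (k := K) (fun i => zj (Sum.inl i)) (j := ci j) hj
          (l := cc) (by rw [hzj0]; exact one_ne_zero)
        simp only [hzj0, div_one] at h4
        exact h4.trans h1
    have h4 : Module.finrank F K'' ≤ D := by
      have h5 := Module.finrank_mul_finrank E F K''
      have h6 := Module.finrank_pos (R := E) (M := F)
      rw [hD]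
      nlinarith
    rw [h2]
    have h5 : (Module.finrank F K'' : ℤ) ≤ D := by exact_mod_cast h4
    refine (mul_le_mul h5 h3 (hgt_nonneg _) (by positivity)).trans (le_of_eq ?_)
    push_cast
    ring
  choose v' hv'S hv'h using key
  obtain ⟨y', hy'⟩ : ∃ y' : Fin (p + 1) → K'', y' = Fin.cons 1 fun i => v' (e i) := ⟨_, rfl⟩
  have hy'0 : y' 0 = 1 := by rw [hy']; rfl
  have hy's : ∀ i : Fin p, y' i.succ = v' (e i) := fun i => by rw [hy']; rfl
  have hyS : ∀ i, S.T (algebraMap K1 M' (y i)) (y' i) := by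
    intro i
    refine Fin.cases ?_ (fun i => ?_) i
    · rw [hy0, hy'0, map_one]
      exact S.one
    · rw [hy's]
      exact hv'S (e i)
  have hpht : pht K y' ≤ (∑ j, D * Bd j : ℕ) * χ := by
    refine (pht_le (k := K) y' (l := 0) (by rw [hy'0]; exact one_ne_zero)).trans ?_
    rw [hy'0, Fin.sum_univ_succ, hy'0, div_one]
    have h0 : hgt K (1 : K'') = 0 := hgt_one
    rw [h0, zero_add]
    have h1 : ∑ i : Fin p, hgt K (y' i.succ / 1) = ∑ j, hgt K (v' j) := by
      rw [← Equiv.sum_comp e]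
      exact Finset.sum_congr rfl fun i _ => by rw [div_one, hy's]
    rw [h1, Nat.cast_sum, Finset.sum_mul]
    exact Finset.sum_le_sum fun j _ => hv'h j
  have h2 : ∀ m, hgt K (algebraMap E K'' (f m / f i1)) ≤ Ca * pht K y' := fun m =>
    halgs K'' S (fun ϑ hϑ => hSΘ _ (Or.inl ⟨ϑ, hϑ, rfl⟩)) y' hyS _ hSx m
  have h3 : pht K f ≤ (N + 1) * (Ca * pht K y') := by
    refine (pht_le f hf1).trans ?_
    have h4 : ∀ j, hgt K (f j / f i1) ≤ Ca * pht K y' := by
      intro j
      refine le_trans ?_ (h2 j)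
      rw [hgt_algebraMap (k := K) (F := E) (L := K'') (f j / f i1)]
      have h6 : (1 : ℤ) ≤ Module.finrank E K'' := by exact_mod_cast Module.finrank_pos
      have h7 : 0 ≤ hgt K (f j / f i1) := hgt_nonneg _
      nlinarith
    refine (Finset.sum_le_sum fun j _ => h4 j).trans (le_of_eq ?_)
    rw [Finset.sum_const, nsmul_eq_mul, Finset.card_univ, Fintype.card_fin]
    push_cast
    ring
  refine h3.trans ?_
  have h8 : (Ca : ℤ) * pht K y' ≤ Ca * ((∑ j, D * Bd j : ℕ) * χ) :=
    mul_le_mul_of_nonneg_left hpht (Nat.cast_nonneg _)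
  have h9 := mul_le_mul_of_nonneg_left h8 (by positivity : (0 : ℤ) ≤ (N : ℤ) + 1)
  refine h9.trans (le_of_eq ?_)
  push_cast
  ring

/-- **Linear degree bounds**, if all functions are algebraic over the values. -/
theorem joint_bound (Ω : Type) [Field Ω] [Algebra K Ω] [Algebra L Ω] [IsScalarTower K L Ω]
    (hu : u ≠ 0) (hgen : coords K u = ⊤) (hB : B.IsHomogeneous b)
    (hBu : MvPolynomial.aeval u B ≠ 0)
    (hh : ∀ t : L, algebraMap L Ω t ∈
      aclo K (⋃ C : {C : MultiMap k u B b r // 0 < C.X.excess (ρ * r)}, C.1.values Ω)) :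
    CoverBound ρ u B b := by
  classical
  obtain ⟨i1, hi1'⟩ := Function.ne_iff.1 hu
  have hi1 : u i1 ≠ 0 := hi1'
  -- finitely many values
  choose T hTV hT using fun m : Fin (N + 1) => aclo_finite (hh (u m / u i1))
  let W : Set Ω := ⋃ m, (T m : Set Ω)
  have hWf : W.Finite := Set.finite_iUnion fun m => (T m).finite_toSet
  have hWF : Finite W := hWf
  have hW : ∀ v : W, ∃ (C : MultiMap k u B b r) (_ : 0 < C.X.excess (ρ * r))
      (ψ : C.L' →ₐ[L] Ω) (i : Fin (C.X.n + 1)), (v : Ω) = ψ (C.z (Sum.inl i)) := by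
    rintro ⟨v, hv⟩
    obtain ⟨m, hm⟩ := Set.mem_iUnion.1 hv
    obtain ⟨⟨C, hC⟩, ψ, i, hz⟩ := Set.mem_iUnion.1 (hTV m hm)
    exact ⟨C, hC, ψ, i, hz⟩
  choose C hC ψ ci hzv using hW
  let M' : IntermediateField L Ω := ⨆ v : W, (ψ v).fieldRange
  have hfr : ∀ v, FiniteDimensional L (ψ v).fieldRange := fun v =>
    LinearMap.finiteDimensional_range (ψ v).toLinearMap
  have hM : FiniteDimensional L M' := IntermediateField.finiteDimensional_iSup_of_finite
  let ψ' : ∀ v, (C v).L' →ₐ[L] M' := fun v => (ψ v).codRestrict M'.toSubalgebra (fun z =>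
    (le_iSup (fun v => (ψ v).fieldRange) v) ⟨z, rfl⟩)
  refine fam_bound hu hgen hB hBu C hC ψ' ci fun z => ?_
  have h1 : ∀ m, algebraMap L Ω (u m / u i1) ∈
      aclo K ((M'.val.restrictScalars K) '' (Set.range fun v => ψ' v ((C v).z (Sum.inl (ci v))))) := by
    intro m
    refine aclo_mono ?_ (hT m)
    intro v hv
    let v' : W := ⟨v, Set.mem_iUnion.2 ⟨m, hv⟩⟩
    exact ⟨ψ' v' ((C v').z (Sum.inl (ci v'))), ⟨v', rfl⟩, (hzv v').symm⟩
  have h2 : ∀ z : L, algebraMap L Ω z ∈
      aclo K ((M'.val.restrictScalars K) '' (Set.range fun v => ψ' v ((C v).z (Sum.inl (ci v))))) := by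
    intro z
    have h3 : (⊤ : IntermediateField K L) ≤ (aclo K ((M'.val.restrictScalars K) ''
        (Set.range fun v => ψ' v ((C v).z (Sum.inl (ci v)))))).comap
        (IsScalarTower.toAlgHom K L Ω) := by
      rw [← adjoin_norm hgen hi1, adjoin_le_iff]
      rintro _ ⟨m, rfl⟩
      exact h1 m
    exact h3 (mem_top (x := z))
  rw [← map_mem_aclo_iff (M'.val.restrictScalars K)]
  exact h2 z

end

end Pool.Agent.J4.H14.MV
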