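import Pool.Agent.J4.H14.MV.Map
import Pool.Agent.N95.GP.Core

/-!
The projective case, and the field of the functions which are algebraic over the values of all
many-valued maps to ramified pairs.
-/

set_option autoImplicit false
set_option linter.unusedSectionVars false
set_option linter.overlappingInstances false

open FF IntermediateField

namespace Pool.Agent.J4.H14.MV

open Pool.Agent.TH466.QG Pool.Agent.N111.FT Pool.Agent.N111.GG Pool.Agent.N111.GI
  Pool.Agent.W603.LV Pool.Agent.J4.H14.RP
open Pool.Agent.N126.RC (alg_coords)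
open Pool.Agent.W602.GT (val coords IsForm LogGeneralType GeneralType)
open Pool.Agent.W603.PV (pht pord)
open Pool.Agent.Y216 (OnVar)

/-- A rational `r`-valued map from the variety over `K` with function field `L` to a ramified pair
`X` without boundary, with `X.excess R > 0`: a correspondence `M ← W → X`, where `W → M` has degree at
most `r`, given by a point `z` of `X` with coordinates in the function field `L'` of `W`. -/
structure RatMap (k K L : Type) [Field k] [Field K] [Algebra k K] [Field L] [Algebra K L]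
    (r R : ℕ) where
  /-- the target -/
  X : SparsePair k K
  no_boundary : X.boundary = ∅
  large : 0 < X.excess R
  /-- the extension of the function field -/
  L' : Type
  [field : Field L']
  [algK : Algebra K L']
  [algL : Algebra L L']
  [tower : IsScalarTower K L L']
  [fd : FiniteDimensional L L']
  deg_le : Module.finrank L L' ≤ r
  /-- the coordinates of the point -/
  z : Fin (X.n + 1) ⊕ X.W → L'
  point : X.Point z

attribute [instance] RatMap.field RatMap.algK RatMap.algL RatMap.tower RatMap.fd

/-- The values of the functions `x_i / x_c` under all branches of the `r`-valued map. -/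
def RatMap.values {k K L : Type} [Field k] [Field K] [Algebra k K] [Field L] [Algebra K L]
    {r R : ℕ} (C : RatMap k K L r R) (Ω : Type) [Field Ω] [Algebra L Ω] : Set Ω :=
  {t | ∃ (ψ : C.L' →ₐ[L] Ω) (i : Fin (C.X.n + 1)), t = ψ (C.z (Sum.inl i))}

section

variable {k K L : Type} [Field k] [Field K] [Algebra k K] [Field L] [Algebra K L] {N : ℕ}
  {r R ρ : ℕ}

/-- a rational map, as a morphism -/
def RatMap.toMulti (C : RatMap k K L r R) (u : Fin (N + 1) → L) :
    MultiMap k u (1 : MvPolynomial (Fin (N + 1)) K) 0 r :=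
  { X := C.X
    L' := C.L'
    deg_le := C.deg_le
    z := C.z
    point := C.point
    ne_zero := fun a ha => by
      rw [C.no_boundary] at ha
      exact absurd ha (Set.notMem_empty a)
    integral := fun a ha => by
      rw [C.no_boundary] at ha
      exact absurd ha (Set.notMem_empty a) }

/-- a rational map, as a morphism, if there is no boundary -/
def mkMulti {X : SparsePair k K} (hX : X.boundary = ∅) {L' : Type} [Field L'] [Algebra K L']
    [Algebra L L'] [IsScalarTower K L L'] [FiniteDimensional L L'] (hr : Module.finrank L L' ≤ r)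
    {z : Fin (X.n + 1) ⊕ X.W → L'} (hz : X.Point z) (u : Fin (N + 1) → L) :
    MultiMap k u (1 : MvPolynomial (Fin (N + 1)) K) 0 r :=
  { X := X
    L' := L'
    deg_le := hr
    z := z
    point := hz
    ne_zero := fun a ha => by
      rw [hX] at ha
      exact absurd ha (Set.notMem_empty a)
    integral := fun a ha => by
      rw [hX] at ha
      exact absurd ha (Set.notMem_empty a) }

theorem bound_of_cover {u : Fin (N + 1) → L}
    (h : CoverBound ρ u (1 : MvPolynomial (Fin (N + 1)) K) 0) :
    Pool.Agent.N95.GP.CoverBound K ρ u := by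
  obtain ⟨G, hG, hGu, A, hA⟩ := h
  refine ⟨G, hG, hGu, A, fun F E _ _ _ _ _ _ _ _ _ hρ f hf hfG => ?_⟩
  have h1 := hA F E hρ ∅ f ⟨hf, by rw [map_one]; exact one_ne_zero, fun P Q e _ _ => by
    rw [map_one, Q.ord_one]; simp⟩ hfG
  simpa using h1

theorem gt_of_log {w : ℕ} {u : Fin (N + 1) → L}
    (h : LogGT u (1 : MvPolynomial (Fin (N + 1)) K) 0 w) : GeneralType K L w := by
  obtain ⟨h1, M, hM, ω, h2, h3, h4, h5⟩ := h
  refine ⟨h1, M, hM, ω, h2, fun P hP j => h4 P hP ?_ j, h5⟩
  intro h6
  rw [map_one, P.ord_one] at h6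
  simp at h6

variable (k K L r R)

/-- the functions which are algebraic over the values of all many-valued maps -/
noncomputable def vcore : IntermediateField K L :=
  (aclo K (⋃ C : RatMap k K L r R, C.values (AlgebraicClosure L))).comap
    (IsScalarTower.toAlgHom K L (AlgebraicClosure L))

variable {k K L r R}

theorem mem_vcore {z : L} : z ∈ vcore k K L r R ↔ algebraMap L (AlgebraicClosure L) z ∈
    aclo K (⋃ C : RatMap k K L r R, C.values (AlgebraicClosure L)) := Iff.rfl

theorem vcore_closed {x : L} (h : IsAlgebraic (vcore k K L r R) x) : x ∈ vcore k K L r R := by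
  rw [mem_vcore]
  apply aclo_closed
  let f : vcore k K L r R →+* aclo K (⋃ C : RatMap k K L r R, C.values (AlgebraicClosure L)) :=
    { toFun := fun y => ⟨algebraMap L (AlgebraicClosure L) y, y.2⟩
      map_one' := Subtype.ext (map_one _)
      map_mul' := fun a b => Subtype.ext (map_mul _ _ _)
      map_zero' := Subtype.ext (map_zero _)
      map_add' := fun a b => Subtype.ext (map_add _ _ _) }
  exact h.ringHom_of_comp_eq f (algebraMap L (AlgebraicClosure L)) f.injective rfl

/-- the values are algebraic over the core -/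
theorem alg_vcore (C : RatMap k K L r R) (i : Fin (C.X.n + 1)) :
    IsAlgebraic (vcore k K L r R) (C.z (Sum.inl i)) := by
  classical
  set z' := C.z (Sum.inl i) with hz'
  let Ω := AlgebraicClosure L
  have hint : IsIntegral L z' := Algebra.IsIntegral.isIntegral _
  set p := minpoly L z' with hp
  have hpm : (p.map (algebraMap L Ω)).Monic := (minpoly.monic hint).map _
  have h1 : p.map (algebraMap L Ω) ∈
      Polynomial.lifts (algebraMap (aclo K (⋃ C : RatMap k K L r R, C.values Ω)) Ω) := by
    refine (IsAlgClosed.splits (p.map (algebraMap L Ω))).mem_lift_of_roots_mem_range hpm _ ?_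
    intro a ha
    have h2 : a ∈ (minpoly L z').rootSet Ω := by
      rw [Polynomial.mem_rootSet]
      refine ⟨minpoly.ne_zero hint, ?_⟩
      have h3 := (Polynomial.mem_roots'.1 ha).2
      rw [Polynomial.IsRoot.def, Polynomial.eval_map] at h3
      rw [Polynomial.aeval_def]
      exact h3
    rw [← Algebra.IsAlgebraic.range_eval_eq_rootSet_minpoly (F := L) (K := C.L') Ω z'] at h2
    obtain ⟨ψ, rfl⟩ := h2
    exact ⟨⟨ψ z', subset_aclo _ (Set.mem_iUnion.2 ⟨C, ψ, i, rfl⟩)⟩, rfl⟩
  have h2 : p ∈ Polynomial.lifts (algebraMap (vcore k K L r R) L) := by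
    rw [Polynomial.lifts_iff_coeff_lifts] at h1 ⊢
    intro i
    obtain ⟨c, hc⟩ := h1 i
    rw [Polynomial.coeff_map] at hc
    refine ⟨⟨p.coeff i, ?_⟩, rfl⟩
    rw [mem_vcore]
    change algebraMap L Ω (p.coeff i) ∈ _
    rw [← hc]
    exact c.2
  obtain ⟨q, hq⟩ := (Polynomial.mem_lifts _).1 h2
  refine ⟨q, ?_, ?_⟩
  · rintro rfl
    rw [Polynomial.map_zero] at hq
    exact minpoly.ne_zero hint hq.symm
  · have h3 : Polynomial.aeval z' (q.map (algebraMap (vcore k K L r R) L)) = 0 := by
      rw [hq]
      exact minpoly.aeval L z'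
    rwa [Polynomial.aeval_map_algebraMap] at h3

end

section descend

variable {k K L : Type} [Field k] [Field K] [CharZero K] [Algebra k K] [Field L] [Algebra K L]
  {r R : ℕ}

/-- the further coordinates are algebraic over fields over which the `x_i` are algebraic -/
theorem alg_all {X : SparsePair k K} {L' : Type} [Field L'] [Algebra K L'] {L₀ : Type} [Field L₀]
    [Algebra K L₀] [Algebra L₀ L'] [IsScalarTower K L₀ L'] {z : Fin (X.n + 1) ⊕ X.W → L'}
    (hz : X.Point z) (halg : ∀ i, IsAlgebraic L₀ (z (Sum.inl i))) (v : Fin (X.n + 1) ⊕ X.W) :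
    IsAlgebraic L₀ (z v) := by
  rcases v with i | w
  · exact halg i
  · obtain ⟨p, hp, hpG⟩ := X.finite w
    let A : IntermediateField L₀ L' := algebraicClosure L₀ L'
    let ψ : MvPolynomial (Fin (X.n + 1)) K →ₐ[K] A :=
      MvPolynomial.aeval fun i => ⟨z (Sum.inl i), mem_algebraicClosure_iff.2 (halg i)⟩
    have h1 : ((algebraMap A L').comp ψ.toRingHom) =
        (MvPolynomial.aeval fun i => z (Sum.inl i) :
          MvPolynomial (Fin (X.n + 1)) K →ₐ[K] L').toRingHom := by
      apply MvPolynomial.ringHom_ext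
      · intro r
        simp only [ψ, AlgHom.toRingHom_eq_coe, RingHom.coe_comp, RingHom.coe_coe,
          Function.comp_apply, MvPolynomial.algHom_C]
        rw [IsScalarTower.algebraMap_apply K L₀ A, ← IsScalarTower.algebraMap_apply L₀ A L',
          ← IsScalarTower.algebraMap_apply K L₀ L']
      · intro i
        simp [ψ]
    have h3 : IsAlgebraic A (z (Sum.inr w)) := by
      refine ⟨p.map ψ.toRingHom, (hp.map _).ne_zero, ?_⟩
      have h2 := Pool.Agent.N126.RC.mon_point p hpG hz.2
      rw [← h1, ← Polynomial.map_map, Polynomial.eval_map] at h2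
      exact h2
    exact h3.restrictScalars L₀

/-- **The many-valued maps descend** to the algebraically closed subfields over which the
coordinates are algebraic. -/
theorem RatMap.descend (C : RatMap k K L r R) {L₀ : IntermediateField K L}
    (hcl : ∀ z : L, IsAlgebraic L₀ z → z ∈ L₀)
    (halg : ∀ i, IsAlgebraic L₀ (C.z (Sum.inl i))) :
    ∃ C₀ : RatMap k K L₀ r R, ∀ (Ω : Type) [Field Ω] [Algebra L Ω], C.values Ω ⊆ C₀.values Ω := by
  classical
  have hL : CharZero L := charZero_of_injective_algebraMap (algebraMap K L).injective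
  have hL₀ : CharZero L₀ := charZero_of_injective_algebraMap (algebraMap K L₀).injective
  have hst0 : IsScalarTower K L₀ C.L' := IsScalarTower.of_algebraMap_eq fun c => by
    rw [IsScalarTower.algebraMap_apply K L C.L', IsScalarTower.algebraMap_apply K L₀ L,
      ← IsScalarTower.algebraMap_apply L₀ L C.L']
  have hall : ∀ v, IsAlgebraic L₀ (C.z v) := alg_all C.point halg
  let K₁ : IntermediateField L₀ C.L' := adjoin L₀ (Set.range C.z)
  have hfinz : (Set.range C.z).Finite := by
    have := C.X.finW
    exact Set.finite_range _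
  have hfz : Finite (Set.range C.z) := hfinz
  have hK₁ : FiniteDimensional L₀ K₁ := by
    refine IntermediateField.finiteDimensional_adjoin ?_
    rintro _ ⟨i, rfl⟩
    exact (hall i).isIntegral
  obtain ⟨θ, hθ⟩ := Field.exists_primitive_element L₀ K₁
  have hθi : IsIntegral L₀ θ := Algebra.IsIntegral.isIntegral θ
  have hθi' : IsIntegral L₀ (θ : C.L') := hθi.map K₁.val
  have hmin : minpoly L₀ (θ : C.L') = minpoly L₀ θ := by
    have := minpoly.algHom_eq (A := L₀) K₁.val K₁.val.injective θ
    exact this
  have hlift := minpoly_lift (k := K) hcl hθi'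
  have hdeg : Module.finrank L₀ K₁ ≤ r := by
    have h1 : Module.finrank L₀ K₁ = (minpoly L₀ θ).natDegree := by
      rw [← IntermediateField.adjoin.finrank hθi, hθ, IntermediateField.finrank_top']
    rw [h1, ← hmin, ← Polynomial.natDegree_map (algebraMap L₀ L), hlift]
    exact (minpoly.natDegree_le _).trans C.deg_le
  let z₀ : Fin (C.X.n + 1) ⊕ C.X.W → K₁ := fun i => ⟨C.z i, subset_adjoin _ _ ⟨i, rfl⟩⟩
  have hst : IsScalarTower K K₁ C.L' := IsScalarTower.of_algebraMap_eq fun c => by
    rw [IsScalarTower.algebraMap_apply K L₀ C.L', IsScalarTower.algebraMap_apply K L₀ K₁,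
      ← IsScalarTower.algebraMap_apply L₀ K₁ C.L']
  let C₀ : RatMap k K L₀ r R :=
    { X := C.X
      no_boundary := C.no_boundary
      large := C.large
      L' := K₁
      deg_le := hdeg
      z := z₀
      point := point_down (E := C.L') C.point }
  refine ⟨C₀, fun Ω _ _ => ?_⟩
  rintro t ⟨ψ, i, rfl⟩
  exact ⟨(ψ.restrictScalars L₀).comp K₁.val, i, rfl⟩

theorem vcore_joint (z : vcore k K L r R) :
    algebraMap (vcore k K L r R) (AlgebraicClosure L) z ∈
      aclo K (⋃ C : RatMap k K (vcore k K L r R) r R, C.values (AlgebraicClosure L)) := by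
  refine aclo_mono ?_ (mem_vcore.1 z.2)
  intro v hv
  obtain ⟨C, hC⟩ := Set.mem_iUnion.1 hv
  obtain ⟨C₀, h₀⟩ := C.descend (L₀ := vcore k K L r R) (fun z hz => vcore_closed hz)
    (fun i => alg_vcore C i)
  exact Set.mem_iUnion.2 ⟨C₀, h₀ _ hC⟩

end descend

section main

variable {k K L : Type} [Field k] [Field K] [IsAlgClosed K] [CharZero K] [Algebra k K] [Field L]
  [Algebra K L] {N : ℕ} {u : Fin (N + 1) → L} {r ρ : ℕ}

theorem joint_proj (Ω : Type) [Field Ω] [Algebra K Ω] [Algebra L Ω] [IsScalarTower K L Ω]
    (hu : u ≠ 0) (hgen : coords K u = ⊤)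
    (hh : ∀ t : L, algebraMap L Ω t ∈ aclo K (⋃ C : RatMap k K L r (ρ * r), C.values Ω)) :
    Pool.Agent.N95.GP.CoverBound K ρ u := by
  refine bound_of_cover (joint_bound (k := k) (r := r) (ρ := ρ) Ω hu hgen
    (MvPolynomial.isHomogeneous_one _ _) (by rw [map_one]; exact one_ne_zero) fun t => ?_)
  refine aclo_mono ?_ (hh t)
  intro v hv
  obtain ⟨C, hC⟩ := Set.mem_iUnion.1 hv
  exact Set.mem_iUnion.2 ⟨⟨C.toMulti u, C.large⟩, hC⟩

theorem rat_bound (hu : u ≠ 0) (hgen : coords K u = ⊤) (C : RatMap k K L r (ρ * r))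
    (halg : Algebra.IsAlgebraic (adjoin K (Set.range C.z)) C.L') :
    Pool.Agent.N95.GP.CoverBound K ρ u := by
  refine joint_proj (k := k) (r := r) (AlgebraicClosure L) hu hgen fun t => ?_
  refine aclo_mono ?_ (alg_val (C.toMulti u) halg (AlgebraicClosure L) t)
  intro v hv
  exact Set.mem_iUnion.2 ⟨C, hv⟩

theorem rat_gt (hu : u ≠ 0) (hgen : coords K u = ⊤) {w : ℕ} (hw : 0 < w)
    (htr : Algebra.trdeg K L = w) {X : SparsePair k K} (hX : X.boundary = ∅) {L' : Type} [Field L']
    [Algebra K L'] [Algebra L L'] [IsScalarTower K L L'] [FiniteDimensional L L']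
    (hr : Module.finrank L L' ≤ r) {z : Fin (X.n + 1) ⊕ X.W → L'} (hz : X.Point z)
    (hex : 0 < X.excess r + ((w : ℚ) - 1))
    (halg : Algebra.IsAlgebraic (adjoin K (Set.range z)) L') : GeneralType K L w :=
  gt_of_log (u := u) (gt_map hu hgen (MvPolynomial.isHomogeneous_one _ _)
    (by rw [map_one]; exact one_ne_zero) hw htr (mkMulti hX hr hz u) hex halg)

end main

end Pool.Agent.J4.H14.MV
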