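import Pool.Agent.J4.H14.MV.Defs
import Pool.Agent.TH145.GE.CurveLin
import Pool.Agent.Q58.LG.Curve
import Pool.Agent.N126.RC.CanB

/-!
Curves and coverings of curves in ramified pairs.
-/

set_option autoImplicit false
set_option linter.unusedSectionVars false
set_option linter.overlappingInstances false

open MvPolynomial FF Pool.Agent.W603.LV Pool.Agent.W603.PV Pool.Agent.W602.GT Pool.Agent.TH145.GH
  Pool.Agent.N126.RC
open Pool.Agent.TH145.MG (DimLE)
open Pool.Agent.TH145.GK (ord_ge)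
open Pool.Agent.TH145.GD (St sM)

namespace Pool.Agent.J4.H14.MV

section pair

variable {k K : Type} [Field k] [Field K] [Algebra k K] (X : SparsePair k K)

theorem SparsePair.F_form (a : X.A) : (X.F a).IsHomogeneous (X.d a) := by
  rw [X.F_eq]
  refine IsHomogeneous.sum _ _ _ fun j _ => ?_
  have := (isHomogeneous_C (Fin (X.n + 1)) (X.coef a j)).mul
    ((X.P_form a j).map (algebraMap (algebraicClosure k K) K))
  rwa [zero_add] at this

theorem SparsePair.hSt {c : Fin (X.n + 1)} (hc : c ∈ X.charts) (a : X.A)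
    (I : Fin (X.n + 1) →₀ ℕ) (hI : I ∈ St c (X.d a)) : ∃ j, X.P a j = monomial I 1 := by
  obtain ⟨i, l, hl, rfl⟩ := hI
  obtain ⟨j, hj⟩ := X.P_mem c hc a i l hl
  refine ⟨j, ?_⟩
  rw [hj, sM, X_pow_eq_monomial, X_pow_eq_monomial, monomial_mul, mul_one]

theorem SparsePair.general' : AlgebraicIndependent (algebraicClosure k K)
    fun p : Σ a, {j : X.J a // j ≠ X.j₀ a} => X.coef p.1 p.2.1 / X.coef p.1 (X.j₀ p.1) :=
  X.general.algebraicClosure

variable {X} {L : Type} [Field L] [Algebra K L]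

theorem SparsePair.Point.ne {z : Fin (X.n + 1) ⊕ X.W → L} (hz : X.Point z) :
    (fun j => z (Sum.inl j)) ≠ 0 := by
  obtain ⟨⟨c, -, hc⟩, -⟩ := hz
  intro h
  have h1 := congrFun h c
  simp only [hc] at h1
  exact one_ne_zero h1

theorem SparsePair.Point.exists_ne {z : Fin (X.n + 1) ⊕ X.W → L} (hz : X.Point z) :
    ∃ j, z (Sum.inl j) ≠ 0 := Function.ne_iff.1 hz.ne

variable [IsAlgClosed K]

theorem SparsePair.Point.mem_V {z : Fin (X.n + 1) ⊕ X.W → L} (hz : X.Point z)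
    {f : MvPolynomial (Fin (X.n + 1)) (algebraicClosure k K)} (hf : f ∈ X.V) :
    aeval (fun j => z (Sum.inl j)) (map (algebraMap (algebraicClosure k K) K) f) = 0 := by
  have hren : aeval z (rename (Sum.inl : Fin (X.n + 1) → Fin (X.n + 1) ⊕ X.W)
      (map (algebraMap (algebraicClosure k K) K) f)) = aeval (fun j => z (Sum.inl j))
      (map (algebraMap (algebraicClosure k K) K) f) := by
    rw [aeval_rename]
    rfl
  rw [← hren]
  refine ns_point X.G _ (fun y hy => ?_) z hz.2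
  rw [eval_rename, eval_map]
  exact (X.lies_over y hy).1 f hf

theorem SparsePair.Point.mem_F {z : Fin (X.n + 1) ⊕ X.W → L} (hz : X.Point z)
    {a : X.A} (ha : a ∈ X.C) : aeval (fun j => z (Sum.inl j)) (X.F a) = 0 := by
  have hren : aeval z (rename (Sum.inl : Fin (X.n + 1) → Fin (X.n + 1) ⊕ X.W) (X.F a)) =
      aeval (fun j => z (Sum.inl j)) (X.F a) := by
    rw [aeval_rename]
    rfl
  rw [← hren]
  refine ns_point X.G _ (fun y hy => ?_) z hz.2
  rw [eval_rename]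
  exact (X.lies_over y hy).2 a ha

end pair

section single

variable {k K L : Type} [Field k] [Field K] [Algebra k K] [IsAlgClosed K] [CharZero K] [Field L]
  [Algebra K L] [IsFF K L] (X : SparsePair k K)

/-- **Curves in ramified pairs.** -/
theorem curve_one (z : Fin (X.n + 1) ⊕ X.W → L) (hz : X.Point z)
    (hnc : ∃ v, z v ∉ Set.range (algebraMap K L))
    (S : Finset (Place K L)) (hS : ∀ P, P ∉ S → ∀ a ∈ X.boundary,
      P.ord (aeval (fun j => z (Sum.inl j)) (X.F a)) ≤ X.d a * pord P (fun j => z (Sum.inl j))) :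
    (X.total - 2 * X.m) * pht K (fun j => z (Sum.inl j)) ≤ canDeg K L + S.card := by
  classical
  obtain ⟨c, hcc, hzc⟩ := hz.1
  obtain ⟨x, hx⟩ : ∃ x : Fin (X.n + 1) → L, x = fun j => z (Sum.inl j) := ⟨_, rfl⟩
  have hxc : x c = 1 := by rw [hx]; exact hzc
  have hxc0 : x c ≠ 0 := by rw [hxc]; exact one_ne_zero
  have hx0 : x ≠ 0 := fun h => hxc0 (by rw [h]; rfl)
  have hxV : ∀ f ∈ X.V, aeval x (map (algebraMap (algebraicClosure k K) K) f) = 0 := by
    intro f hf
    rw [hx]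
    exact hz.mem_V hf
  have hxC : ∀ a ∈ X.C, aeval x (X.F a) = 0 := by
    intro a ha
    rw [hx]
    exact hz.mem_F ha
  obtain ⟨C', hC'⟩ : ∃ C' : Finset X.A, ∀ a, a ∈ C' ↔ aeval x (X.F a) = 0 :=
    ⟨Finset.univ.filter fun a => aeval x (X.F a) = 0, fun a => by simp⟩
  have hsub : X.C ⊆ C' := fun a ha => (hC' a).2 (hxC a ha)
  have hCn : ∀ a, a ∉ C' → a ∉ X.C := fun a ha h => ha (hsub h)
  have hxnc : ∃ i j, x j ≠ 0 ∧ x i / x j ∉ Set.range (algebraMap K L) := by
    by_contra hcon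
    push Not at hcon
    obtain ⟨v, hv⟩ := hnc
    refine hv (const_of_x X.finite z hz.2 (fun j => ?_) v)
    have h1 := hcon j c hxc0
    rw [hxc, div_one] at h1
    rw [hx] at h1
    exact h1
  have h1 := Pool.Agent.TH145.GE.curve_lin X.V X.V_form X.V_dim X.P X.P_form X.coef X.j₀ X.coef_ne
    X.general' c (X.hSt hcc) X.F_eq C' x hxc0 hxnc hxV
    (fun a ha => (hC' a).1 ha) (fun a ha h => ha ((hC' a).2 h))
  have hpht : 0 ≤ pht K x := by
    unfold pht
    rw [← finsum_neg_distrib]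
    refine finsum_nonneg fun P => ?_
    have := pord_le P (f := x) hxc0
    rw [hxc, P.ord_one] at this
    omega
  -- the zeros
  obtain ⟨Z, hZ⟩ : ∃ Z : X.A → Set (Place K L), ∀ a, Z a =
    {P | X.d a * pord P x < P.ord (aeval x (X.F a))} := ⟨_, fun _ => rfl⟩
  have hZq : ∀ a, a ∉ C' → X.q a ≠ 0 → (Z a).Finite ∧
      (X.q a : ℤ) * (Z a).ncard ≤ X.d a * pht K x := by
    intro a ha hqa
    rw [hZ]
    have hFa : aeval x (X.F a) ≠ 0 := fun h => ha ((hC' a).2 h)
    refine zeros_le (X.F_form a) hx0 hFa fun Q hQ => ?_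
    rw [hx]
    rw [hx] at hQ hFa hx0
    exact mult_all X.e X.G X.G_form X.finite (X.F_form a) (X.ramified a (hCn a ha) hqa) z hz.2 hx0
      hFa Q hQ
  have hcover : {P : Place K L | ∃ a, a ∉ C' ∧ X.d a * pord P x < P.ord (aeval x (X.F a))} ⊆
      (S : Set (Place K L)) ∪ ⋃ a ∈ (C'ᶜ.filter fun a => X.q a ≠ 0 : Finset X.A), Z a := by
    rintro P ⟨a, ha, hP⟩
    by_cases hqa : X.q a = 0
    · left
      by_contra hPS
      have := hS P hPS a ⟨hCn a ha, hqa⟩
      rw [← hx] at this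
      linarith
    · right
      rw [Set.mem_iUnion₂]
      refine ⟨a, ?_, ?_⟩
      · rw [Finset.mem_filter, Finset.mem_compl]
        exact ⟨ha, hqa⟩
      · rw [hZ]; exact hP
  have hZfin : (⋃ a ∈ (C'ᶜ.filter fun a => X.q a ≠ 0 : Finset X.A), Z a).Finite := by
    refine Set.Finite.biUnion (Finset.finite_toSet _) fun a ha => ?_
    rw [Finset.mem_coe, Finset.mem_filter, Finset.mem_compl] at ha
    exact (hZq a ha.1 ha.2).1
  have h2 : {P : Place K L | ∃ a, a ∉ C' ∧ X.d a * pord P x < P.ord (aeval x (X.F a))}.ncard ≤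
      S.card + ∑ a ∈ C'ᶜ.filter (fun a => X.q a ≠ 0), (Z a).ncard := by
    refine (Set.ncard_le_ncard hcover (S.finite_toSet.union hZfin)).trans ?_
    refine (Set.ncard_union_le _ _).trans (add_le_add ?_ ?_)
    · rw [Set.ncard_coe_finset]
    · exact Finset.set_ncard_biUnion_le _ _
  have h3 : ((∑ a ∈ C'ᶜ.filter (fun a => X.q a ≠ 0), (Z a).ncard : ℕ) : ℚ) ≤
      ∑ a ∈ C'ᶜ, (X.d a : ℚ) * (1 / X.q a) * pht K x := by
    rw [Nat.cast_sum]
    refine le_trans (Finset.sum_le_sum fun a ha => ?_)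
      (Finset.sum_le_sum_of_subset_of_nonneg (Finset.filter_subset _ _) fun a _ _ => ?_)
    · rw [Finset.mem_filter, Finset.mem_compl] at ha
      have h4 := (hZq a ha.1 ha.2).2
      have h5 : (0 : ℚ) < X.q a := by exact_mod_cast Nat.pos_of_ne_zero ha.2
      have h6 : (X.q a : ℚ) * (Z a).ncard ≤ X.d a * pht K x := by exact_mod_cast h4
      rw [mul_assoc, mul_comm (1 / (X.q a : ℚ)), ← mul_assoc, mul_one_div, le_div_iff₀ h5,
        mul_comm]
      exact h6
    · have : (0 : ℚ) ≤ pht K x := by exact_mod_cast hpht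
      positivity
  have h4 : (((∑ a, X.d a : ℕ) : ℚ) + C'.card - 2 * X.m) * pht K x ≤ canDeg K L +
      {P : Place K L | ∃ a, a ∉ C' ∧ X.d a * pord P x < P.ord (aeval x (X.F a))}.ncard := by
    exact_mod_cast h1
  have h5 : (({P : Place K L | ∃ a, a ∉ C' ∧ X.d a * pord P x < P.ord (aeval x (X.F a))}.ncard :
      ℕ) : ℚ) ≤ S.card + ∑ a ∈ C'ᶜ, (X.d a : ℚ) * (1 / X.q a) * pht K x := by
    refine le_trans (by exact_mod_cast h2) (add_le_add le_rfl h3)
  have h6 : ∑ a ∈ C'ᶜ, (X.d a : ℚ) * (1 / X.q a) ≤ ∑ a ∈ X.Cᶜ, (X.d a : ℚ) * (1 / X.q a) :=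
    Finset.sum_le_sum_of_subset_of_nonneg (Finset.compl_subset_compl.2 hsub)
      fun _ _ _ => by positivity
  have h7 : ∑ a ∈ X.Cᶜ, (X.d a : ℚ) * (1 - 1 / X.q a) = ∑ a ∈ X.Cᶜ, (X.d a : ℚ) -
      ∑ a ∈ X.Cᶜ, (X.d a : ℚ) * (1 / X.q a) := by
    rw [← Finset.sum_sub_distrib]
    exact Finset.sum_congr rfl fun a _ => by ring
  have h8 : ∑ a ∈ X.C, ((X.d a : ℚ) + 1) = ∑ a ∈ X.C, (X.d a : ℚ) + X.C.card := by
    rw [Finset.sum_add_distrib]
    simp
  have h9 : ∑ a ∈ X.C, (X.d a : ℚ) + ∑ a ∈ X.Cᶜ, (X.d a : ℚ) = ∑ a, (X.d a : ℚ) :=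
    Finset.sum_add_sum_compl X.C _
  have h10 : (X.C.card : ℚ) ≤ C'.card := by exact_mod_cast Finset.card_le_card hsub
  have h11 : (0 : ℚ) ≤ pht K x := by exact_mod_cast hpht
  rw [← hx]
  rw [← Finset.sum_mul] at h5
  have h12 : (X.total - 2 * X.m) *
      pht K x ≤ (((∑ a, X.d a : ℕ) : ℚ) + C'.card - 2 * X.m -
        ∑ a ∈ C'ᶜ, (X.d a : ℚ) * (1 / X.q a)) * pht K x := by
    refine mul_le_mul_of_nonneg_right ?_ h11
    unfold SparsePair.total
    rw [h7, h8, Nat.cast_sum]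
    linarith
  linarith

end single

end Pool.Agent.J4.H14.MV
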