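import Pool.Agent.J4.H14.RP.Defs
import Pool.Agent.J4.H14.RP.Bound
import Pool.Agent.N95.GP.Dom

/-!
Ramified coverings of arbitrary varieties over general members of linear systems, some of which may be
removed, and the many-valued maps to them.
-/

set_option autoImplicit false

namespace Pool.Agent.J4.H14.MV

open MvPolynomial FF Pool.Agent.N126.RC Pool.Agent.J4.H14.RP
open Pool.Agent.TH145.MG (DimLE)
open Pool.Agent.W603.LV (canDeg)
open Pool.Agent.W603.PV (pord pht)
open Pool.Agent.W602.GT (IsForm LogGeneralType)
open Pool.Agent.Y216 (OnVar)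

/-- A *ramified pair over general members of linear systems*, over `K` (a field which contains `k`;
`k'` is the algebraic closure of `k` in `K`).

* `V` is a closed subset of the projective `n`-space over `k'`, of dimension at most `m`;
* for each `a`, the forms `P a j` of degree `d a` over `k'` span a linear system, which contains the
  monomials `x_c ^ (d a - l) x_i ^ l`, `0 ≤ l ≤ d a`, `0 ≤ i ≤ n`, for the `c` in a set `charts` of
  indices (for example, all monomials; or these only, for one `c`);
* `F a` is a very general member of it: `F a = ∑ j, coef a j * P a j`, where the ratios of the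
  coefficients `coef a j` are algebraically independent over `k`;
* `X = {G = 0}` is a closed subset of the weighted projective space with the coordinates `x_0, …, x_n`
  of weight `1` and `u_w` of weight `e w ≤ E`, with a finite morphism `(x, u) ↦ x` to `V` and to the
  hypersurfaces `F a = 0`, `a ∈ C` (`C` can be empty);
* for the `a` not in `C` with `q a ≥ 1`, this morphism is ramified of order at least `q a` over
  `F a = 0`; the boundary consists of the hypersurfaces `F a = 0` with `a ∉ C` and `q a = 0`. -/
structure SparsePair (k K : Type) [Field k] [Field K] [Algebra k K] where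
  /-- the dimension of the ambient projective space -/
  n : ℕ
  /-- the bound for the dimension of `V` -/
  m : ℕ
  /-- the equations of `V` -/
  V : Set (MvPolynomial (Fin (n + 1)) (algebraicClosure k K))
  V_form : ∀ f ∈ V, ∃ e, f.IsHomogeneous e
  V_dim : DimLE (algebraicClosure k K) V m
  /-- the index set of the hypersurfaces -/
  A : Type
  [fin : Fintype A]
  [dec : DecidableEq A]
  /-- the degrees -/
  d : A → ℕ
  /-- the index sets of the generators of the linear systems -/
  J : A → Type
  [finJ : ∀ a, Fintype (J a)]
  /-- the generators of the linear systems -/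
  P : ∀ a, J a → MvPolynomial (Fin (n + 1)) (algebraicClosure k K)
  P_form : ∀ a j, (P a j).IsHomogeneous (d a)
  /-- the indices of the charts `x_c ≠ 0` -/
  charts : Set (Fin (n + 1))
  P_mem : ∀ c ∈ charts, ∀ (a : A) (i : Fin (n + 1)) (l : ℕ), l ≤ d a →
    ∃ j, P a j = X c ^ (d a - l) * X i ^ l
  /-- the coefficients of the members -/
  coef : ∀ a, J a → K
  /-- the denominators of the ratios -/
  j₀ : ∀ a, J a
  coef_ne : ∀ a, coef a (j₀ a) ≠ 0
  general : AlgebraicIndependent k fun p : Σ a, {j : J a // j ≠ j₀ a} =>
    coef p.1 p.2.1 / coef p.1 (j₀ p.1)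
  /-- the members of the linear systems -/
  F : A → MvPolynomial (Fin (n + 1)) K
  F_eq : ∀ a, F a = ∑ j, MvPolynomial.C (coef a j) *
    map (algebraMap (algebraicClosure k K) K) (P a j)
  /-- the hypersurfaces which contain the image of `X` -/
  C : Finset A
  /-- the orders of ramification; `0` for the boundary -/
  q : A → ℕ
  /-- the index set of the further coordinates -/
  W : Type
  [finW : Finite W]
  /-- the weights of the further coordinates -/
  e : W → ℕ
  /-- a bound for the weights -/
  E : ℕ
  one_le_E : 1 ≤ E
  e_le : ∀ w, e w ≤ E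
  /-- the index set of the equations of `X` -/
  ι : Type
  /-- the equations of `X` -/
  G : ι → MvPolynomial (Fin (n + 1) ⊕ W) K
  G_form : ∀ i, ∃ c, (G i).IsWeightedHomogeneous (wts e) c
  finite : FiniteOver G
  lies_over : Over V F C G
  ramified : ∀ a, a ∉ C → q a ≠ 0 → RamifiedOver G (F a) (q a)

attribute [instance] SparsePair.fin SparsePair.dec SparsePair.finJ SparsePair.finW

namespace SparsePair

variable {k K : Type} [Field k] [Field K] [Algebra k K] (X : SparsePair k K)

/-- The number `T`: the sum of the `d a + 1`, `a ∈ C`, the `d a (1 - 1 / q a)`, for `a ∉ C` with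
`q a ≥ 1`, and the `d a`, for the boundary. -/
def total : ℚ := ∑ a ∈ X.C, ((X.d a : ℚ) + 1) + ∑ a ∈ X.Cᶜ, (X.d a : ℚ) * (1 - 1 / X.q a)

/-- the index set of the boundary -/
def boundary : Set X.A := {a | a ∉ X.C ∧ X.q a = 0}

/-- The number `T - 2 m - 2 (r - 1) E`. -/
def excess (r : ℕ) : ℚ := X.total - 2 * X.m - 2 * ((r : ℚ) - 1) * X.E

variable {X} in
/-- The coordinates `z`, elements of an extension `L` of `K`, are those of a point of the projective
variety `X` which is in one of the charts `x_c ≠ 0`, normalised by `x_c = 1`. -/
def Point {L : Type} [Field L] [Algebra K L] (z : Fin (X.n + 1) ⊕ X.W → L) : Prop :=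
  (∃ c ∈ X.charts, z (Sum.inl c) = 1) ∧ ∀ i, aeval z (X.G i) = 0

end SparsePair

section

variable {K : Type} [Field K] {L : Type} [Field L] [Algebra K L] {N : ℕ}

/-- Let `M°` be the complement of the hypersurface `B = 0` in the projective variety with generic
point `u`, with function field `L`. The element `g` of an extension of `L` is integral over the
regular functions on `M°`, i.e. the algebraic function `g` on `M°` has no poles. -/
def IntegralOn (u : Fin (N + 1) → L) (B : MvPolynomial (Fin (N + 1)) K) (b : ℕ) {L' : Type}
    [Field L'] [Algebra L L'] (g : L') : Prop :=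
  ∃ p : Polynomial L, p.Monic ∧ (∀ i, RegularOn u B b (p.coeff i)) ∧ Polynomial.aeval g p = 0

/-- An `r`-valued morphism from `M°` to the complement `X°` of the boundary in `X`: a correspondence
`M ← W → X`, where `W → M` has degree at most `r`, given by a point `z` of `X` with coordinates in the
function field `L'` of `W`, such that the algebraic functions `x_j ^ d_a / F_a (x)` have no poles on
`M°`, for the hypersurfaces `F a = 0` of the boundary. -/
structure MultiMap (k : Type) {K L : Type} [Field k] [Field K] [Algebra k K] [Field L] [Algebra K L]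
    {N : ℕ} (u : Fin (N + 1) → L) (B : MvPolynomial (Fin (N + 1)) K) (b r : ℕ) where
  /-- the target -/
  X : SparsePair k K
  /-- the extension of the function field -/
  L' : Type
  [field : Field L']
  [algK : Algebra K L']
  [algL : Algebra L L']
  [tower : IsScalarTower K L L']
  [fd : FiniteDimensional L L']
  deg_le : Module.finrank L L' ≤ r
  /-- the coordinates of the point -/
  z : Fin (X.n + 1) ⊕ X.W → L'
  point : X.Point z
  ne_zero : ∀ a ∈ X.boundary, aeval (fun j => z (Sum.inl j)) (X.F a) ≠ 0
  integral : ∀ a ∈ X.boundary, ∀ j,
    IntegralOn u B b (z (Sum.inl j) ^ X.d a / aeval (fun j => z (Sum.inl j)) (X.F a))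

attribute [instance] MultiMap.field MultiMap.algK MultiMap.algL MultiMap.tower MultiMap.fd

/-- The values of the functions `x_i / x_c` under all branches of the `r`-valued morphism. -/
def MultiMap.values {k : Type} [Field k] [Algebra k K] {u : Fin (N + 1) → L}
    {B : MvPolynomial (Fin (N + 1)) K} {b r : ℕ} (C : MultiMap k u B b r) (Ω : Type) [Field Ω]
    [Algebra L Ω] : Set Ω :=
  {t | ∃ (ψ : C.L' →ₐ[L] Ω) (i : Fin (C.X.n + 1)), t = ψ (C.z (Sum.inl i))}

/-- The covering of degree `[E : F]` of the smooth projective curve with the function field `F` is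
mapped to `M` by `f`, and the points over the complement of the finite set `S` are mapped to `M°`. -/
def CoverTo (u : Fin (N + 1) → L) (B : MvPolynomial (Fin (N + 1)) K) (b : ℕ) {F E : Type}
    [Field F] [Field E] [Algebra K F] [Algebra K E] [Algebra F E] (S : Finset (Place K F))
    (f : Fin (N + 1) → E) : Prop :=
  OnVar K u f ∧ aeval f B ≠ 0 ∧ ∀ (P : Place K F) (Q : Place K E) (e : ℕ), FF.Over Q P e →
    P ∉ S → Q.ord (aeval f B) = b * pord Q f

/-- Outside of a proper closed subset `G = 0` of `M°`, `deg f ≤ A max (2 g - 2 + s, 0)` for the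
morphisms `f` to `M°` from the coverings of degree at most `ρ` of affine curves, of any genus `g`
with any number `s` of points removed. (For `ρ = 1`, these are all affine curves.) -/
def CoverBound (ρ : ℕ) (u : Fin (N + 1) → L) (B : MvPolynomial (Fin (N + 1)) K) (b : ℕ) : Prop :=
  ∃ G : MvPolynomial (Fin (N + 1)) K, IsForm G ∧ aeval u G ≠ 0 ∧ ∃ A : ℕ,
    ∀ (F E : Type) [Field F] [Field E] [Algebra K F] [Algebra K E] [Algebra F E]
      [IsScalarTower K F E] [FiniteDimensional F E] [IsFF K F] [IsFF K E],
      Module.finrank F E ≤ ρ → ∀ (S : Finset (Place K F)) (f : Fin (N + 1) → E),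
      CoverTo u B b S f → aeval f G ≠ 0 → pht K f ≤ A * max (canDeg K F + S.card) 0

end

end Pool.Agent.J4.H14.MV
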