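import Pool.Agent.R885.P11
import Pool.Agent.N111.GI.Gt

/-!
The different and homogeneous generators of an extension.
-/

set_option autoImplicit false
set_option linter.unusedSectionVars false
set_option linter.overlappingInstances false

open Polynomial Module

namespace Pool.Agent.J4.H14.MV

section alg

variable {K F : Type} [Field K] [CharZero K] [Field F] [Algebra K F] [FiniteDimensional K F]

/-- Euler's formula. -/
theorem euler {θ : F} (hθ : Algebra.adjoin K {θ} = ⊤) (y : F) :
    y * aeval θ (derivative (minpoly K θ)) =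
      ∑ i ∈ Finset.range (finrank K F),
        algebraMap K F (Algebra.trace K F (y * (minpolyDiv K θ).coeff i)) * θ ^ i := by
  classical
  have hint : IsIntegral K θ := Algebra.IsIntegral.isIntegral θ
  obtain ⟨pb, hpb⟩ : ∃ pb : PowerBasis K F, pb.gen = θ :=
    ⟨PowerBasis.ofAdjoinEqTop' hint hθ, PowerBasis.ofAdjoinEqTop'_gen _ _⟩
  have hne : aeval θ (derivative (minpoly K θ)) ≠ 0 :=
    (Algebra.IsSeparable.isSeparable K θ).aeval_derivative_ne_zero (minpoly.aeval _ _)
  obtain ⟨z, hz⟩ : ∃ z, z = y * aeval θ (derivative (minpoly K θ)) := ⟨_, rfl⟩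
  have h1 := pb.basis.sum_repr z
  have h2 : ∀ i, pb.basis.repr z i = Algebra.trace K F (y * (minpolyDiv K θ).coeff i) := by
    intro i
    have h3 : pb.basis.traceDual.traceDual = pb.basis := Module.Basis.traceDual_traceDual _
    rw [← h3, Module.Basis.traceDual_repr_apply, Module.Basis.traceDual_powerBasis_eq, hpb,
      Algebra.traceForm_apply, hz]
    congr 1
    field_simp
  have h4 : ∑ i, pb.basis.repr z i • pb.basis i = ∑ i ∈ Finset.range pb.dim,
      algebraMap K F (Algebra.trace K F (y * (minpolyDiv K θ).coeff i)) * θ ^ i := by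
    rw [Finset.sum_range]
    refine Finset.sum_congr rfl fun i _ => ?_
    rw [h2, Algebra.smul_def, PowerBasis.coe_basis, hpb]
  rw [← hz, pb.finrank, ← h4, h1]

variable {Ω : Type} [Field Ω] [IsAlgClosed Ω] [Algebra K Ω]

open Classical in
theorem minpoly_prod {θ : F} (hθ : Algebra.adjoin K {θ} = ⊤) :
    (minpoly K θ).map (algebraMap K Ω) = ∏ σ : F →ₐ[K] Ω, (X - C (σ θ)) := by
  have hinj : Function.Injective (fun σ : F →ₐ[K] Ω => σ θ) := fun _ _ h =>
    AlgHom.ext_of_adjoin_eq_top hθ (fun _ hx => hx ▸ h)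
  have hint : IsIntegral K θ := Algebra.IsIntegral.isIntegral θ
  have hdeg : (minpoly K θ).natDegree = finrank K F := by
    have h1 : (PowerBasis.ofAdjoinEqTop' hint hθ).gen = θ := PowerBasis.ofAdjoinEqTop'_gen _ _
    rw [← h1, PowerBasis.natDegree_minpoly, PowerBasis.finrank]
  have hm1 : ((minpoly K θ).map (algebraMap K Ω)).Monic := (minpoly.monic hint).map _
  have hm2 : (∏ σ : F →ₐ[K] Ω, (X - C (σ θ))).Monic := monic_prod_of_monic _ _ fun σ _ =>
    monic_X_sub_C _
  have hd1 : ((minpoly K θ).map (algebraMap K Ω)).natDegree = finrank K F := by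
    rw [natDegree_map, hdeg]
  have hd2 : (∏ σ : F →ₐ[K] Ω, (X - C (σ θ))).natDegree = finrank K F := by
    rw [natDegree_prod_of_monic _ _ fun σ _ => monic_X_sub_C _]
    simp only [natDegree_X_sub_C, Finset.sum_const, smul_eq_mul, mul_one, Finset.card_univ]
    rw [AlgHom.card]
  rw [← sub_eq_zero]
  have hpos : 0 < finrank K F := finrank_pos
  by_contra hne
  apply hne
  apply Polynomial.eq_zero_of_natDegree_lt_card_of_eval_eq_zero _ hinj
  · intro σ
    rw [eval_sub, eval_map, eval_prod]
    have h1 : eval₂ (algebraMap K Ω) (σ θ) (minpoly K θ) = 0 := by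
      have h2 := minpoly.aeval K θ
      have h3 := congrArg σ h2
      rw [map_zero, ← aeval_algHom_apply] at h3
      exact h3
    rw [h1, Finset.prod_eq_zero (Finset.mem_univ σ) (by simp), sub_zero]
  · rw [AlgHom.card]
    have h1 : ((minpoly K θ).map (algebraMap K Ω) - ∏ σ : F →ₐ[K] Ω, (X - C (σ θ))).degree <
        ((minpoly K θ).map (algebraMap K Ω)).degree := by
      refine degree_sub_lt_left ?_ hm1.ne_zero ?_
      · rw [degree_eq_natDegree hm1.ne_zero, degree_eq_natDegree hm2.ne_zero, hd1, hd2]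
      · rw [hm1.leadingCoeff, hm2.leadingCoeff]
    have h2 := natDegree_lt_natDegree hne h1
    rwa [hd1] at h2

open Classical in
theorem minpolyDiv_prod {θ : F} (hθ : Algebra.adjoin K {θ} = ⊤) (ι : F →ₐ[K] Ω) :
    (minpolyDiv K θ).map ι.toRingHom = ∏ σ ∈ Finset.univ.erase ι, (X - C (σ θ)) := by
  have hint : IsIntegral K θ := Algebra.IsIntegral.isIntegral θ
  have h1 := congrArg (Polynomial.map ι.toRingHom) (minpolyDiv_spec K θ)
  rw [Polynomial.map_mul, Polynomial.map_sub, map_X, map_C, Polynomial.map_map] at h1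
  have h2 : ι.toRingHom.comp (algebraMap K F) = algebraMap K Ω := by
    ext x
    exact ι.commutes x
  rw [h2, minpoly_prod hθ, ← Finset.prod_erase_mul _ _ (Finset.mem_univ ι)] at h1
  exact mul_right_cancel₀ (X_sub_C_ne_zero _) h1

/-- The coefficients are integral. -/
theorem coeff_integral' [Algebra F Ω] [IsScalarTower K F Ω] {A : Type} [CommRing A] [Algebra A K]
    [Algebra A F] [IsScalarTower A K F]
    {a b : F} (hb0 : b ≠ 0) (hθ : Algebra.adjoin K {a / b} = ⊤) (ha : IsIntegral A a)
    (hb : IsIntegral A b) (i : ℕ) :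
    IsIntegral A (algebraMap K F (Algebra.norm K b) / b * (minpolyDiv K (a / b)).coeff i) := by
  classical
  let iA : Algebra A Ω := ((algebraMap F Ω).comp (algebraMap A F)).toAlgebra
  have hs1 : IsScalarTower A F Ω := IsScalarTower.of_algebraMap_eq fun _ => rfl
  have hs2 : IsScalarTower A K Ω := IsScalarTower.of_algebraMap_eq fun x => by
    change algebraMap F Ω (algebraMap A F x) = _
    rw [IsScalarTower.algebraMap_apply A K F, ← IsScalarTower.algebraMap_apply K F Ω]
  let ι : F →ₐ[K] Ω := IsScalarTower.toAlgHom K F Ω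
  have key : IsIntegral A (algebraMap F Ω (algebraMap K F (Algebra.norm K b) / b *
      (minpolyDiv K (a / b)).coeff i)) := by
    have h1 : (C (algebraMap K F (Algebra.norm K b) / b) * minpolyDiv K (a / b)).map
        ι.toRingHom = ∏ σ ∈ Finset.univ.erase ι, (C (σ b) * X - C (σ a)) := by
      rw [Polynomial.map_mul, map_C, minpolyDiv_prod hθ ι]
      have h2 : ι.toRingHom (algebraMap K F (Algebra.norm K b) / b) =
          ∏ σ ∈ Finset.univ.erase ι, σ b := by
        have h3 : ι.toRingHom (algebraMap K F (Algebra.norm K b)) = ∏ σ : F →ₐ[K] Ω, σ b := by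
          rw [← Algebra.norm_eq_prod_embeddings K Ω b]
          exact ι.commutes _
        have h4 : ι b ≠ 0 := (_root_.map_ne_zero _).2 hb0
        rw [map_div₀, h3, ← Finset.prod_erase_mul _ _ (Finset.mem_univ ι)]
        exact mul_div_cancel_right₀ _ h4
      rw [h2, map_prod, ← Finset.prod_mul_distrib]
      refine Finset.prod_congr rfl fun σ _ => ?_
      have h5 : σ b ≠ 0 := (_root_.map_ne_zero _).2 hb0
      rw [mul_sub, map_div₀, ← C_mul, mul_div_cancel₀ _ h5]
    have h6 : (∏ σ ∈ Finset.univ.erase ι, (C (σ b) * X - C (σ a))) ∈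
        Polynomial.lifts (algebraMap (integralClosure A Ω) Ω) := by
      refine prod_mem fun σ _ => ?_
      have hσa : IsIntegral A (σ a) := ha.map (σ.restrictScalars A)
      have hσb : IsIntegral A (σ b) := hb.map (σ.restrictScalars A)
      refine (Polynomial.mem_lifts _).2 ⟨C ⟨σ b, hσb⟩ * X - C ⟨σ a, hσa⟩, ?_⟩
      rw [Polynomial.map_sub, Polynomial.map_mul, map_C, map_C, map_X]
      rfl
    rw [← h1] at h6
    rw [Polynomial.lifts_iff_coeff_lifts] at h6
    obtain ⟨c, hc⟩ := h6 i
    rw [coeff_map, coeff_C_mul] at hc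
    have h7 : algebraMap F Ω (algebraMap K F (Algebra.norm K b) / b *
      (minpolyDiv K (a / b)).coeff i) = (c : Ω) := hc.symm
    rw [h7]
    exact c.2
  exact (isIntegral_algHom_iff (IsScalarTower.toAlgHom A F Ω) (algebraMap F Ω).injective).1 key

/-- The coefficients are integral. -/
theorem coeff_integral {A : Type} [CommRing A] [Algebra A K] [Algebra A F] [IsScalarTower A K F]
    {a b : F} (hb0 : b ≠ 0) (hθ : Algebra.adjoin K {a / b} = ⊤) (ha : IsIntegral A a)
    (hb : IsIntegral A b) (i : ℕ) :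
    IsIntegral A (algebraMap K F (Algebra.norm K b) / b * (minpolyDiv K (a / b)).coeff i) :=
  coeff_integral' (Ω := AlgebraicClosure F) hb0 hθ ha hb i

end alg

end Pool.Agent.J4.H14.MV
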