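import Pool.Agent.J4.H14.MV.Curve

/-!
All coordinates of a point of a ramified pair, as one vector of coordinates of the same weight.
-/

set_option autoImplicit false
set_option linter.unusedSectionVars false
set_option linter.overlappingInstances false

open MvPolynomial FF Pool.Agent.W603.LV Pool.Agent.W603.PV Pool.Agent.W602.GT Pool.Agent.TH145.GH
  Pool.Agent.N126.RC

namespace Pool.Agent.J4.H14.MV

section ext

variable {k K : Type} [Field k] [Field K] [Algebra k K] (X : SparsePair k K)

/-- the index set of all coordinates, and of the powers of the `x_j` -/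
abbrev SparsePair.Sg : Type := (Fin (X.n + 1) ⊕ X.W) ⊕ Fin (X.n + 1)

/-- the number of the indices, minus one -/
noncomputable def SparsePair.size : ℕ := Nat.card X.Sg - 1

theorem SparsePair.size_eq : Nat.card X.Sg = X.size + 1 := by
  have h1 : 0 < Nat.card X.Sg := Nat.card_pos
  unfold SparsePair.size
  omega

/-- the enumeration of the indices -/
noncomputable def SparsePair.idx : Fin (X.size + 1) ≃ X.Sg := (Finite.equivFinOfCardEq X.size_eq).symm

variable {L : Type} [Field L]

/-- all coordinates -/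
noncomputable def SparsePair.ext (z : Fin (X.n + 1) ⊕ X.W → L) (i : Fin (X.size + 1)) : L :=
  Sum.elim z (fun j => z (Sum.inl j) ^ X.E) (X.idx i)

theorem SparsePair.ext_inl (z : Fin (X.n + 1) ⊕ X.W → L) (v : Fin (X.n + 1) ⊕ X.W) :
    X.ext z (X.idx.symm (Sum.inl v)) = z v := by
  unfold SparsePair.ext
  rw [Equiv.apply_symm_apply]
  rfl

theorem SparsePair.ext_inr (z : Fin (X.n + 1) ⊕ X.W → L) (j : Fin (X.n + 1)) :
    X.ext z (X.idx.symm (Sum.inr j)) = z (Sum.inl j) ^ X.E := by
  unfold SparsePair.ext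
  rw [Equiv.apply_symm_apply]
  rfl

theorem SparsePair.adjoin_ext {F : Type} [Field F] [Algebra F L] (z : Fin (X.n + 1) ⊕ X.W → L) :
    IntermediateField.adjoin F (Set.range (X.ext z)) = IntermediateField.adjoin F (Set.range z) := by
  apply le_antisymm
  · rw [IntermediateField.adjoin_le_iff]
    rintro _ ⟨i, rfl⟩
    unfold SparsePair.ext
    rcases X.idx i with v | j
    · exact IntermediateField.subset_adjoin _ _ ⟨v, rfl⟩
    · exact pow_mem (IntermediateField.subset_adjoin F (Set.range z) ⟨Sum.inl j, rfl⟩) _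
  · rw [IntermediateField.adjoin_le_iff]
    rintro _ ⟨v, rfl⟩
    rw [← X.ext_inl z v]
    exact IntermediateField.subset_adjoin _ _ ⟨_, rfl⟩

variable [Algebra K L] {X} {z : Fin (X.n + 1) ⊕ X.W → L}

theorem SparsePair.Point.pord_nonpos (hz : X.Point z) (P : Place K L) :
    pord P (fun j => z (Sum.inl j)) ≤ 0 := by
  obtain ⟨⟨c, -, hc⟩, -⟩ := hz
  have h1 := pord_le P (f := fun j => z (Sum.inl j)) (j := c) (by
    rw [hc]
    exact one_ne_zero)
  rwa [hc, P.ord_one] at h1

theorem SparsePair.Point.ge_ext (hz : X.Point z) (P : Place K L) (i : Fin (X.size + 1)) :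
    Ge P (X.E * pord P (fun j => z (Sum.inl j))) (X.ext z i) := by
  have h0 := hz.pord_nonpos P
  unfold SparsePair.ext
  rcases X.idx i with v | j
  · refine (ge_coords X.G_form X.finite z hz.2 hz.ne P v).mono ?_
    have h1 : wts X.e v ≤ X.E := by
      rcases v with j | w
      · exact X.one_le_E
      · exact X.e_le w
    have h2 : (wts X.e v : ℤ) ≤ X.E := by exact_mod_cast h1
    nlinarith
  · exact (ge_pord P (fun j => z (Sum.inl j)) j).pow X.E

theorem SparsePair.Point.exists_ext (hz : X.Point z) (P : Place K L) :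
    ∃ i, X.ext z i ≠ 0 ∧ P.ord (X.ext z i) = X.E * pord P (fun j => z (Sum.inl j)) := by
  obtain ⟨j, hj, hjo⟩ := exists_pord P (Function.ne_iff.1 hz.ne)
  refine ⟨X.idx.symm (Sum.inr j), ?_, ?_⟩
  · rw [X.ext_inr]
    exact pow_ne_zero _ hj
  · rw [X.ext_inr, P.ord_pow]
    rw [hjo]

theorem SparsePair.Point.pord_ext (hz : X.Point z) (P : Place K L) :
    pord P (X.ext z) = X.E * pord P (fun j => z (Sum.inl j)) := by
  obtain ⟨i, hi, hio⟩ := hz.exists_ext P
  apply le_antisymm
  · rw [← hio]
    exact pord_le P hi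
  · obtain ⟨j, hj, hjo⟩ := exists_pord P ⟨i, hi⟩
    rw [← hjo]
    exact (hz.ge_ext P j).resolve_left hj

theorem SparsePair.Point.pht_ext [IsFF K L] (hz : X.Point z) :
    pht K (X.ext z) = X.E * pht K (fun j => z (Sum.inl j)) := by
  unfold pht
  have h1 : (fun P : Place K L => pord P (X.ext z)) =
      fun P => (X.E : ℤ) * pord P (fun j => z (Sum.inl j)) := funext fun P => hz.pord_ext P
  rw [h1, ← mul_finsum]
  ring

end ext

section ov

variable {k K F : Type} [Field k] [Field K] [Field F] [Algebra k K] [Algebra k F]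
  [Algebra K F]

theorem pord_over {q : Place k K} {w : Place k F} {e : ℕ} (h : Over w q e) {n : ℕ}
    {f : Fin (n + 1) → K} (hf : ∃ j, f j ≠ 0) :
    pord w (fun j => algebraMap K F (f j)) = e * pord q f := by
  have hf' : ∃ j, algebraMap K F (f j) ≠ 0 := by
    obtain ⟨j, hj⟩ := hf
    exact ⟨j, by rwa [Ne, map_eq_zero]⟩
  have hr : (0 : ℤ) < e := by exact_mod_cast h.1
  apply le_antisymm
  · obtain ⟨j, hj0, hj⟩ := exists_pord q hf
    rw [← hj, ← h.2]
    exact pord_le w (f := fun j => algebraMap K F (f j)) (by rwa [Ne, map_eq_zero])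
  · obtain ⟨j, hj0, hj⟩ := exists_pord w hf'
    rw [← hj, h.2]
    refine mul_le_mul_of_nonneg_left (pord_le _ ?_) hr.le
    rwa [Ne, map_eq_zero] at hj0

theorem over_trans {E : Type} [Field E] [Algebra k E] [Algebra K E] [Algebra F E]
    [IsScalarTower K F E] {q : Place k K} {w : Place k F} {v : Place k E} {e e' : ℕ}
    (h : Over w q e) (h' : Over v w e') : Over v q (e' * e) := by
  refine ⟨Nat.mul_pos h'.1 h.1, fun f => ?_⟩
  rw [IsScalarTower.algebraMap_apply K F E, h'.2, h.2]
  push_cast
  ring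

theorem exists_place_above [CharZero k] [IsScalarTower k K F] [FiniteDimensional K F]
    (q : Place k K) : ∃ (w : Place k F) (e : ℕ), Over w q e := by
  obtain ⟨S, T, -, hT, hsum⟩ := exists_places_over (K' := F) q
  have hpos : 0 < Module.finrank K F := Module.finrank_pos
  have hne : S.Nonempty := by
    by_contra h
    rw [Finset.not_nonempty_iff_eq_empty] at h
    rw [h, Finset.sum_empty] at hsum
    omega
  obtain ⟨w, hw⟩ := hne
  obtain ⟨e, he, -⟩ := hT w hw
  exact ⟨w, e, he⟩

end ov

end Pool.Agent.J4.H14.MV
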