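import Pool.Agent.J4.H14.MV.Norm

/-!
Images of small degree of varieties with twisted pluricanonical forms are of (logarithmic) general
type.
-/

set_option autoImplicit false
set_option linter.unusedSectionVars false
set_option linter.overlappingInstances false

open Module FF Pool.Agent.W602.GT Pool.Agent.W603.LV Pool.Agent.W619.PQ
  Pool.Agent.Y172 Pool.Agent.N111.GI

namespace Pool.Agent.J4.H14.MV

/-- a polynomial whose values at the constants are in a subfield has its coefficients there -/
theorem coeff_of_values {k K : Type} [Field k] [Infinite k] [Field K] [Algebra k K]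
    (E : IntermediateField k K) (P : Polynomial K) (h : ∀ s : k, P.eval (algebraMap k K s) ∈ E) :
    ∃ Q : Polynomial E, Q.map (algebraMap E K) = P := by
  classical
  obtain ⟨S, hS⟩ := Infinite.exists_subset_card_eq k (P.natDegree + 1)
  let v : k → E := algebraMap k E
  have hv : Function.Injective v := (algebraMap k E).injective
  let Q : Polynomial E := Lagrange.interpolate S v fun s => ⟨P.eval (algebraMap k K s), h s⟩
  refine ⟨Q, ?_⟩
  have hQd : Q.degree < S.card := Lagrange.degree_interpolate_lt _ hv.injOn
  have hQe : ∀ s ∈ S, Q.eval (v s) = ⟨P.eval (algebraMap k K s), h s⟩ := fun s hs =>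
    Lagrange.eval_interpolate_at_node _ hv.injOn hs
  have hcard : (S.image (algebraMap k K)).card = S.card :=
    Finset.card_image_of_injective _ (algebraMap k K).injective
  refine Polynomial.eq_of_degrees_lt_of_eval_finset_eq (S.image (algebraMap k K)) ?_ ?_ ?_
  · rw [hcard]
    exact (Polynomial.degree_map_le).trans_lt hQd
  · rw [hcard, hS]
    exact lt_of_le_of_lt Polynomial.degree_le_natDegree (by exact_mod_cast Nat.lt_succ_self _)
  · intro x hx
    obtain ⟨s, hs, rfl⟩ := Finset.mem_image.1 hx
    have h1 : algebraMap k K s = algebraMap E K (v s) := rfl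
    rw [h1, Polynomial.eval_map, Polynomial.eval₂_hom, hQe s hs]
    rfl

section

variable {k K L : Type} [Field k] [CharZero k] [IsAlgClosed k] [Field K] [Field L] [Algebra k K]
  [Algebra k L] [Algebra K L] [IsScalarTower k K L] [FiniteDimensional K L]
  [Algebra.EssFiniteType k K] [Algebra.EssFiniteType k L] {n M N t : ℕ}

/-- norms of twisted forms are sections -/
theorem norm_sec (hL : Algebra.trdeg k K = n) {BK : Place k K → Prop}
    {BL : Place k L → Prop}
    (hB : ∀ (P : Place k K) (Q : Place k L) (e : ℕ), Over Q P e → BL Q → BK P)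
    {x : Fin M → L} {j0 : Fin M} (hj0 : x j0 = 1) {c : Fin M → k} {θ : L}
    (hθ : θ = ∑ i, algebraMap k L (c i) * x i) (hgen : Algebra.adjoin K {θ} = ⊤)
    {ω : (Fin n → Derivation k L L) → L} (hω : IsPluri N ω)
    (ht : t = 2 * (N * (finrank K L - 1)) + 1)
    (hreg : ∀ (f : Fin t → Fin M) (P : Place k L), Divisorial n P →
      SecAt BL P (fun D => (∏ j, x (f j)) * ω D)) {p : L}
    (hp : ∃ b : Fin M → k, p = ∑ i, algebraMap k L (b i) * x i)
    {y : Fin n → K} {E : Fin n → Derivation k K K} (hy : IsTranscendenceBasis k y)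
    (hE : ∀ i j, E i (y j) = if i = j then 1 else 0) {E' : Fin n → Derivation k L L}
    (hE' : ∀ i f, E' i (algebraMap K L f) = algebraMap K L (E i f)) (P : Place k K)
    (hP : Divisorial n P) :
    SecAt BK P (plForm y (N * finrank K L) (Algebra.norm K
      (p * Polynomial.aeval θ (Polynomial.derivative (minpoly K θ)) ^ N * ω E'))) := by
  classical
  have hnL : Algebra.trdeg k L = n := trdeg_up (K := K) hL
  obtain ⟨yP, EP, i0, hl⟩ := exists_loc hL hP
  choose EP' hEP' using fun i => exists_lift (L := L) hL (EP i)
  obtain ⟨δ, hδ⟩ : ∃ δ, δ = Polynomial.aeval θ (Polynomial.derivative (minpoly K θ)) := ⟨_, rfl⟩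
  have hval := norm_val (N := N) hy hE hE' hl.bas hl.dual hEP' hω
    (p * Polynomial.aeval θ (Polynomial.derivative (minpoly K θ)) ^ N)
  have hpl : ∀ f : Fin t → Fin M, IsPluri N (fun D => (∏ j, x (f j)) * ω D) := by
    intro f A D
    change (∏ j, x (f j)) * ω (fun i => ∑ j, A i j • D j) = _
    rw [hω A D]
    ring
  refine ⟨fun G hG => ?_, fun hBP G hG => ?_⟩
  · rw [hval G]
    -- the determinant
    have h9 : Ge P 1 (Matrix.of fun i j => G i (yP j) : Matrix (Fin n) (Fin n) K).det := by
      refine Pool.Agent.W603.LV.ge_det P _ _ (fun _ b => if b = i0 then 1 else 0)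
        (fun a b => ?_) fun σ => by simp
      rw [Matrix.of_apply]
      by_cases hb : b = i0
      · rw [if_pos hb, hb]
        have h1 := hG a (yP i0)
        have h2 : Ge P 0 (G a (yP i0) / yP i0) := h1
        have h3 : Ge P 1 (yP i0) := Or.inr (by rw [hl.unif])
        have h4 := h2.mul h3
        rwa [div_mul_cancel₀ _ hl.ne, zero_add] at h4
      · rw [if_neg hb]
        exact Pool.Agent.TH466.QG.derReg_of_log (hG a) _ (hl.reg b)
    have h10 := norm_loc P hj0 hθ hgen (N := N) ht (g := algebraMap K L (yP i0) ^ N * ω EP')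
      (fun w e hw f => by
        have hwd : Divisorial n w := divisorial_up hw hP
        have h1 := (hreg f w hwd).1 (fun i => algebraMap K L (lc yP i0 i) • EP' i) fun i =>
          lift_log hw (hl.log i) fun f => by
            change algebraMap K L (lc yP i0 i) * EP' i (algebraMap K L f) =
              algebraMap K L (lc yP i0 i * EP i f)
            rw [hEP', map_mul]
        have h5 := pluri_diag (hpl f) (fun i => algebraMap K L (lc yP i0 i)) EP'
        rw [← map_prod, prod_lc] at h5
        have h2 : Ge w 0 ((∏ i, x (f i)) * (algebraMap K L (yP i0) ^ N * ω EP')) := by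
          have h3 : (∏ i, x (f i)) * (algebraMap K L (yP i0) ^ N * ω EP') =
              algebraMap K L (yP i0) ^ N * ((∏ i, x (f i)) * ω EP') := by ring
          rw [h3, ← h5]
          exact h1
        refine h2.mono ?_
        have h4 : (0 : ℤ) < e := by exact_mod_cast hw.1
        nlinarith [Int.natCast_nonneg N]) hp
    have h11 : Algebra.norm K (p * Polynomial.aeval θ (Polynomial.derivative (minpoly K θ)) ^ N *
        (algebraMap K L (yP i0) ^ N * ω EP')) = yP i0 ^ (N * finrank K L) *
        Algebra.norm K (p * Polynomial.aeval θ (Polynomial.derivative (minpoly K θ)) ^ N *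
          ω EP') := by
      have h1 : p * Polynomial.aeval θ (Polynomial.derivative (minpoly K θ)) ^ N *
        (algebraMap K L (yP i0) ^ N * ω EP') = algebraMap K L (yP i0 ^ N) *
        (p * Polynomial.aeval θ (Polynomial.derivative (minpoly K θ)) ^ N * ω EP') := by
        rw [map_pow]
        ring
      rw [h1, map_mul, Algebra.norm_algebraMap, ← pow_mul]
    rw [h11] at h10
    obtain ⟨T, hT⟩ : ∃ T, T = Algebra.norm K
      (p * Polynomial.aeval θ (Polynomial.derivative (minpoly K θ)) ^ N * ω EP') := ⟨_, rfl⟩
    rw [← hT] at h10 ⊢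
    have h12 : Ge P (-(N * finrank K L : ℕ)) T := by
      have h13 := Ge.of_mul (pow_ne_zero (N * finrank K L) hl.ne) h10
      rw [P.ord_pow, hl.unif, mul_one, zero_sub] at h13
      exact h13
    have h13 := (h9.pow (N * finrank K L)).mul h12
    rwa [mul_one, add_neg_cancel] at h13
  · rw [hval G]
    refine P.reg_mul ?_ ?_
    · have h9 : Ge P 0 (Matrix.of fun i j => G i (yP j) : Matrix (Fin n) (Fin n) K).det :=
        Pool.Agent.W603.LV.ge_det P _ _ (fun _ _ => 0) (fun a b => hG a _ (hl.reg b))
          fun σ => by simp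
      have h10 := h9.pow (N * finrank K L)
      rwa [mul_zero] at h10
    · refine norm_loc P hj0 hθ hgen (N := N) ht (fun w e hw f => ?_) hp
      have hwd : Divisorial n w := divisorial_up hw hP
      have h1 := down_ge hnL hw hwd hl hEP' (hpl f) (c := 0) (fun G' hG' => by
        rcases (hreg f w hwd).2 (fun h => hBP (hB P w e hw h)) G' hG' with h | h
        · exact Or.inl h
        · exact Or.inr (by exact_mod_cast h))
      rcases h1 with h1 | h1
      · exact Or.inl h1
      · right
        have h2 : (((N : ℤ) * (1 - e) : ℤ) : ℝ) ≤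
            (w.ord ((∏ i, x (f i)) * ω EP') : ℝ) := by
          push_cast
          push_cast at h1
          linarith
        exact_mod_cast h2

/-- **Images of small degree are of (logarithmic) general type.** -/
theorem gt_norm (hL : Algebra.trdeg k K = n) {BK : Place k K → Prop}
    {BL : Place k L → Prop}
    (hB : ∀ (P : Place k K) (Q : Place k L) (e : ℕ), Over Q P e → BL Q → BK P)
    {x : Fin M → L} {j0 : Fin M} (hj0 : x j0 = 1)
    (hgen : IntermediateField.adjoin K (Set.range x) = ⊤)
    {ω : (Fin n → Derivation k L L) → L} (hN : 0 < N) (hω : IsPluri N ω)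
    (ht : t = 2 * (N * (finrank K L - 1)) + 1)
    (hreg : ∀ (f : Fin t → Fin M) (P : Place k L), Divisorial n P →
      SecAt BL P (fun D => (∏ j, x (f j)) * ω D))
    (halg : ∀ τ : L, IsAlgebraic (IntermediateField.adjoin k (Set.range x)) τ)
    (hne : ∃ E, ω E ≠ 0) : LogGeneralType k K n BK := by
  classical
  have hcK : CharZero K := charZero_of_injective_algebraMap (algebraMap k K).injective
  have hinf : Infinite k := IsAlgClosed.instInfinite
  obtain ⟨y, E, hy, hE⟩ := exists_crd hL
  choose E' hE' using fun i => exists_lift (L := L) hL (E i)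
  have hyL : IsTranscendenceBasis k (fun j => algebraMap K L (y j)) := hy.algebraMap_comp
  have hEL := lift_dual hE hE'
  have hωE : ω E' ≠ 0 := by
    obtain ⟨D, hD⟩ := hne
    intro h0
    apply hD
    rw [pluri_coord hyL hEL hω D, h0, mul_zero]
  -- the generator
  have hu := finite_bad (k := k) hgen
  obtain ⟨s0, hs0⟩ := hu.infinite_compl.nonempty
  have hs0' : IntermediateField.adjoin K
    {∑ j : Fin M, algebraMap K L (algebraMap k K (s0 ^ (j : ℕ))) * x j} = ⊤ := not_not.1 hs0
  obtain ⟨θ, hθ⟩ : ∃ θ, θ = ∑ j : Fin M, algebraMap k L (s0 ^ (j : ℕ)) * x j := ⟨_, rfl⟩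
  have hθ' : (∑ j : Fin M, algebraMap K L (algebraMap k K (s0 ^ (j : ℕ))) * x j) = θ := by
    rw [hθ]
    refine Finset.sum_congr rfl fun j _ => ?_
    rw [← IsScalarTower.algebraMap_apply k K L]
  rw [hθ'] at hs0'
  have hgen' : Algebra.adjoin K {θ} = ⊤ := by
    rw [← IntermediateField.adjoin_simple_toSubalgebra_of_isAlgebraic
      (Algebra.IsAlgebraic.isAlgebraic (R := K) θ), hs0', IntermediateField.top_toSubalgebra]
  obtain ⟨δ, hδ⟩ : ∃ δ, δ = Polynomial.aeval θ (Polynomial.derivative (minpoly K θ)) := ⟨_, rfl⟩
  have hδ0 : δ ≠ 0 := by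
    rw [hδ]
    exact (Algebra.IsSeparable.isSeparable K θ).aeval_derivative_ne_zero (minpoly.aeval _ _)
  obtain ⟨r, hr⟩ : ∃ r, r = finrank K L := ⟨_, rfl⟩
  have hr0 : 0 < r := by rw [hr]; exact finrank_pos
  -- the sections
  have hsec : ∀ p : L, (∃ b : Fin M → k, p = ∑ i, algebraMap k L (b i) * x i) →
      ∀ P : Place k K, Divisorial n P →
      SecAt BK P (plForm y (N * r) (Algebra.norm K (p * δ ^ N * ω E'))) := by
    intro p hp P hP
    rw [hr, hδ]
    exact norm_sec hL hB hj0 hθ hgen' hω ht hreg hp hy hE hE' P hP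
  let T : Option (Fin M × k) → K := fun o =>
    Algebra.norm K ((o.elim 1 fun a => algebraMap k L a.2 - x a.1) * δ ^ N * ω E')
  have hcomb : ∀ o : Option (Fin M × k), ∃ b : Fin M → k,
      (o.elim 1 fun a => algebraMap k L a.2 - x a.1) = ∑ i, algebraMap k L (b i) * x i := by
    rintro (_ | ⟨j, s⟩)
    · refine ⟨fun i => if i = j0 then 1 else 0, ?_⟩
      rw [Finset.sum_eq_single j0]
      · simp [hj0]
      · intro i _ hi
        simp [hi]
      · intro h
        exact absurd (Finset.mem_univ _) h
    · refine ⟨fun i => (if i = j0 then s else 0) - (if i = j then 1 else 0), ?_⟩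
      have h1 : ∀ i, algebraMap k L ((if i = j0 then s else 0) - (if i = j then 1 else 0)) * x i =
          (if i = j0 then algebraMap k L s * x i else 0) - (if i = j then x i else 0) := by
        intro i
        rw [map_sub, sub_mul]
        congr 1
        · split_ifs <;> simp
        · split_ifs <;> simp
      rw [Finset.sum_congr rfl fun i _ => h1 i, Finset.sum_sub_distrib,
        Finset.sum_ite_eq' Finset.univ j0, Finset.sum_ite_eq' Finset.univ j, if_pos
        (Finset.mem_univ _), if_pos (Finset.mem_univ _), hj0, mul_one]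
      rfl
  have hT0 : T none ≠ 0 := by
    change Algebra.norm K (1 * δ ^ N * ω E') ≠ 0
    rw [Algebra.norm_ne_zero_iff]
    exact mul_ne_zero (mul_ne_zero one_ne_zero (pow_ne_zero _ hδ0)) hωE
  have hTr : ∀ j s, T (some (j, s)) / T none = Algebra.norm K (algebraMap k L s - x j) := by
    intro j s
    change Algebra.norm K ((algebraMap k L s - x j) * δ ^ N * ω E') / T none = _
    rw [div_eq_iff hT0]
    change _ = _ * Algebra.norm K (1 * δ ^ N * ω E')
    rw [← map_mul]
    congr 1
    ring
  -- the field of the ratios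
  obtain ⟨F, hF⟩ : ∃ F, F = IntermediateField.adjoin k (Set.range fun g => T g / T none) :=
    ⟨_, rfl⟩
  have hcoord : ∀ j, IsAlgebraic F (x j) := by
    intro j
    obtain ⟨Q, hQ⟩ := coeff_of_values F (LinearMap.charpoly (Algebra.lmul K L (x j))) (by
      intro s
      rw [LinearMap.eval_charpoly]
      have h1 : algebraMap K (Module.End K L) (algebraMap k K s) - Algebra.lmul K L (x j) =
          Algebra.lmul K L (algebraMap k L s - x j) := by
        rw [map_sub, IsScalarTower.algebraMap_apply k K L, AlgHom.commutes]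
      rw [h1]
      have h2 : LinearMap.det (Algebra.lmul K L (algebraMap k L s - x j)) =
          T (some (j, s)) / T none := by
        rw [hTr]
        rfl
      rw [h2, hF]
      exact IntermediateField.subset_adjoin _ _ ⟨_, rfl⟩)
    have hQ0 : Q ≠ 0 := by
      rintro rfl
      rw [Polynomial.map_zero] at hQ
      exact (LinearMap.charpoly_monic (Algebra.lmul K L (x j))).ne_zero hQ.symm
    refine ⟨Q, hQ0, ?_⟩
    have h1 := LinearMap.aeval_self_charpoly (Algebra.lmul K L (x j))
    rw [Polynomial.aeval_algHom_apply] at h1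
    have h2 : Polynomial.aeval (x j) (LinearMap.charpoly (Algebra.lmul K L (x j))) = 0 := by
      have h3 := congrArg (fun f : Module.End K L => f 1) h1
      simpa using h3
    rw [← hQ, Polynomial.aeval_map_algebraMap] at h2
    exact h2
  have hFL : ∀ τ : L, IsAlgebraic F τ := by
    intro τ
    have hle : IntermediateField.adjoin k (Set.range x) ≤
        (algebraicClosure F L).restrictScalars k := by
      rw [IntermediateField.adjoin_le_iff]
      rintro _ ⟨j, rfl⟩
      change x j ∈ algebraicClosure F L
      rw [mem_algebraicClosure_iff]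
      exact hcoord j
    have h1 : IsAlgebraic (algebraicClosure F L) τ := by
      obtain ⟨q, hq, hqx⟩ := halg τ
      let φ : IntermediateField.adjoin k (Set.range x) →+* algebraicClosure F L :=
        (IntermediateField.inclusion hle).toRingHom
      refine ⟨q.map φ, ?_, ?_⟩
      · rw [Ne, Polynomial.map_eq_zero]
        exact hq
      · rw [← hqx, Polynomial.aeval_def, Polynomial.eval₂_map, Polynomial.aeval_def]
        rfl
    exact h1.restrictScalars F
  have hFK : Algebra.IsAlgebraic F K := by
    constructor
    intro z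
    exact (isAlgebraic_algebraMap_iff (algebraMap K L).injective).1 (hFL (algebraMap K L z))
  rw [hF] at hFK
  obtain ⟨s, hs⟩ := exists_ratios hL T none hFK
  have hθE : ∀ t, plForm y (N * r) t E = t := by
    intro t
    have h1 : (Matrix.of fun i j => E i (y j) : Matrix (Fin n) (Fin n) K) = 1 := by
      ext i j
      rw [Matrix.of_apply, hE, Matrix.one_apply]
    rw [plForm, h1, Matrix.det_one, one_pow, one_mul]
  refine ⟨hL, N * r, Nat.mul_pos hN hr0,
    fun j => plForm y (N * r) (T ((Fin.cons none s : Fin (n + 1) → _) j)),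
    fun j => plForm_pluri y _ _,
    fun P hP j => (hsec _ (hcomb _) P hP).1, fun P hP hBP j => (hsec _ (hcomb _) P hP).2 hBP, E,
    ?_, ?_⟩
  · change plForm y (N * r) (T ((Fin.cons none s : Fin (n + 1) → _) 0)) E ≠ 0
    rw [hθE, Fin.cons_zero]
    exact hT0
  · simp only [hθE, Fin.cons_succ, Fin.cons_zero]
    exact hs

end

end Pool.Agent.J4.H14.MV
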