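import Pool.Agent.N126.RC.ORBw
import Pool.Agent.N111.GI.Tr

/-!
Twisted pluricanonical forms on the subvarieties of covers of generic log complete intersections,
ramified over hypersurface sections with given multiplicities. (The construction is the one of
`Pool/Agent/N126/RC/ORBw.lean`.)
-/

set_option autoImplicit false

open MvPolynomial FF Pool.Agent.W603.LV Pool.Agent.W603.PV Pool.Agent.TH145.GH
open Pool.Agent.TH145.GC (Ev dF_sub dF_self ord_prod exists_minor Rt Cf finite_cf Tan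
  der_zero_of_alg)
open Pool.Agent.TH145.GD (Ti tv St sM sM_mem mon_step sM_zero sM_top single_mem deg_St finite_St)
open Pool.Agent.W602.GT Pool.Agent.TH145.MG Pool.Agent.TH145.GE Pool.Agent.TH145.GF
open Pool.Agent.TH145.GK (ord_ge)

namespace Pool.Agent.J4.H14.MV

open Pool.Agent.TH145.GL (log_loss)

open scoped Classical in
/-- Twisted forms on the subvarieties of covers of generic log complete intersections which are
ramified with multiplicities. -/
theorem orb_twisted {k0 K L : Type} [Field k0] [Field K] [Field L] [Algebra k0 K] [Algebra K L]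
    [IsAlgClosed K] [CharZero K] {n m w : ℕ} {A : Type} [Fintype A] {dg : A → ℕ}
    (V : Set (MvPolynomial (Fin (n + 1)) k0)) (hVh : ∀ f ∈ V, ∃ e, f.IsHomogeneous e)
    (hV : DimLE k0 V m) {J : A → Type} [∀ a, Fintype (J a)]
    (P : ∀ a, J a → MvPolynomial (Fin (n + 1)) k0) (hP : ∀ a j, (P a j).IsHomogeneous (dg a))
    (cf : ∀ a, J a → K) (j0 : ∀ a, J a) (h0 : ∀ a, cf a (j0 a) ≠ 0)
    (hind : AlgebraicIndependent k0 fun p : Σ a, {j : J a // j ≠ j0 a} =>
      cf p.1 p.2.1 / cf p.1 (j0 p.1))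
    (c0 : Fin (n + 1)) (hSt : ∀ a, ∀ I ∈ St c0 (dg a), ∃ j, P a j = monomial I 1)
    {F : A → MvPolynomial (Fin (n + 1)) K}
    (hF : ∀ a, F a = ∑ j, C (cf a j) * map (algebraMap k0 K) (P a j))
    (Cs : Finset A) (q : A → ℕ) (N : ℕ) (hN : 0 < N) (hqN : ∀ a, a ∉ Cs → q a ≠ 0 → q a ∣ N)
    (hw : 0 < w)
    {ex : ℕ} (hd : N * (2 * m + 1) + ∑ a ∈ Finset.univ.filter (fun a => a ∉ Cs), N / q a * dg a +
      ex ≤ N * (∑ a, dg a + Cs.card + w))
    (htr : Algebra.trdeg K L = w) (x : Fin (n + 1) → L) (hc0 : x c0 ≠ 0)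
    (hgen : Algebra.IsAlgebraic (coords K x) L)
    (hxV : ∀ f ∈ V, aeval x (map (algebraMap k0 K) f) = 0)
    (hxC : ∀ a ∈ Cs, aeval x (F a) = 0) (hxn : ∀ a, a ∉ Cs → aeval x (F a) ≠ 0)
    (hmult : ∀ (Q : Place K L) a, a ∉ Cs → q a ≠ 0 →
      dg a * pord Q x < Q.ord (aeval x (F a)) → dg a * pord Q x + q a ≤ Q.ord (aeval x (F a))) :
    ∃ ω : (Fin w → Derivation K L L) → L, IsPluri N ω ∧ (∃ E, ω E ≠ 0) ∧
      ∀ (f : Fin ex → Fin (n + 1)) (Q : Place K L), Divisorial w Q →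
        Pool.Agent.N111.GI.SecAt (fun Q : Place K L =>
          ∃ a, a ∉ Cs ∧ q a = 0 ∧ dg a * pord Q x < Q.ord (aeval x (F a))) Q
          (fun D => (∏ j, x (f j) / x c0) * ω D) := by
  let _ : Algebra k0 L := ((algebraMap K L).comp (algebraMap k0 K)).toAlgebra
  have hst : IsScalarTower k0 K L := IsScalarTower.of_algebraMap_eq fun _ => rfl
  have hL : CharZero L := charZero_of_injective_algebraMap (algebraMap K L).injective
  obtain ⟨x', hx'⟩ : ∃ x' : Fin (n + 1) → L, x' = fun j => (x c0)⁻¹ * x j := ⟨_, rfl⟩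
  have hcx : (x c0)⁻¹ ≠ 0 := inv_ne_zero hc0
  have hx1 : x' c0 = 1 := by
    rw [hx']
    exact inv_mul_cancel₀ hc0
  have hxx : x' = (x c0)⁻¹ • x := by rw [hx']; rfl
  have hx00 : x' ≠ 0 := by
    rintro h
    rw [h] at hx1
    exact zero_ne_one hx1
  have hco : coords K x' = coords K x := by
    unfold coords
    congr 1
    ext z
    constructor
    · rintro ⟨i, j, hj, rfl⟩
      refine ⟨i, j, fun h => hj (by rw [hx']; simp [h]), ?_⟩
      rw [hx']
      field_simp
    · rintro ⟨i, j, hj, rfl⟩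
      refine ⟨i, j, ?_, ?_⟩
      · rw [hx']; exact mul_ne_zero hcx hj
      · rw [hx']
        field_simp
  obtain ⟨l, hl⟩ := exists_coord_basis htr (by rw [hco]; exact hgen)
  obtain ⟨t, ht⟩ : ∃ t : Fin w → L, ∀ i, t i = x' (l i) := ⟨_, fun _ => rfl⟩
  have htb : IsTranscendenceBasis K t := by
    have : t = fun i => x' (l i) := funext ht
    rw [this]
    exact hl
  -- the forms
  obtain ⟨cg, hcg⟩ : ∃ cg : ∀ a, J a → K, ∀ a j, cg a j = cf a j / cf a (j0 a) :=
    ⟨fun a j => cf a j / cf a (j0 a), fun _ _ => rfl⟩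
  obtain ⟨G, hG⟩ : ∃ G : A → MvPolynomial (Fin (n + 1)) K, ∀ a, G a =
    ∑ j, C (cg a j) * map (algebraMap k0 K) (P a j) := ⟨_, fun _ => rfl⟩
  have hGF : ∀ a, G a = C (cf a (j0 a))⁻¹ * F a := fun a => by
    rw [hG, hF, Finset.mul_sum]
    refine Finset.sum_congr rfl fun j _ => ?_
    rw [← mul_assoc, ← C_mul, hcg, div_eq_mul_inv, mul_comm (cf a j)]
  have hGh : ∀ a, (G a).IsHomogeneous (dg a) := fun a => by
    rw [hG]
    refine IsHomogeneous.sum _ _ _ fun j _ => ?_
    have := (isHomogeneous_C (Fin (n + 1)) (cg a j)).mul ((hP a j).map (algebraMap k0 K))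
    rwa [zero_add] at this
  obtain ⟨D, ε, hD, hDS, hDk⟩ := exists_dualSG htb (dg := dg) P cg j0
    (fun a => by rw [hcg, div_self (h0 a)]) (by simpa only [hcg] using hind) c0 hSt hG
  obtain ⟨H, hH⟩ : ∃ H : A → MvPolynomial (Fin (n + 1)) L, H = fun a =>
    map (algebraMap K L) (G a) := ⟨_, rfl⟩
  rw [← hH] at hD
  have hHh : ∀ a, (H a).IsHomogeneous (dg a) := fun a => by
    rw [hH]
    exact (hGh a).map _
  have hFK : ∀ (δ : Derivation K L L) a u, δ ((H a).coeff u) = 0 := fun δ a u => by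
    rw [hH, coeff_map]
    exact δ.map_algebraMap _
  have hev : ∀ a, eval x' (H a) = (x c0)⁻¹ ^ dg a *
      (algebraMap K L (cf a (j0 a))⁻¹ * aeval x (F a)) := by
    intro a
    rw [hxx, eval_smul_hom (hHh a), hH]
    congr 1
    rw [eval_map, hGF, eval₂_mul, eval₂_C]
    rfl
  have hne : ∀ a, algebraMap K L (cf a (j0 a))⁻¹ ≠ 0 := fun a => by
    rw [Ne, map_eq_zero]
    exact inv_ne_zero (h0 a)
  have hVx : ∀ f ∈ V, aeval x' f = 0 := by
    intro f hf
    have h3 : aeval x f = 0 := by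
      have h4 := hxV f hf
      rw [aeval_map_algebraMap] at h4
      exact h4
    obtain ⟨e, he⟩ := hVh f hf
    rw [hxx, Pool.Agent.TH145.MG.aeval_smul he, h3, mul_zero]
  have hxC' : ∀ a ∈ Cs, eval x' (H a) = 0 := fun a ha => by
    rw [hev, hxC a ha, mul_zero, mul_zero]
  have hxn' : ∀ a, a ∉ Cs → eval x' (H a) ≠ 0 := fun a ha => by
    rw [hev]
    exact mul_ne_zero (pow_ne_zero _ hcx) (mul_ne_zero (hne a) (hxn a ha))
  -- the vertical derivations
  obtain ⟨E, hE⟩ : ∃ E : Fin w → Derivation K L L, ∀ i j, E i (t j) = if i = j then 1 else 0 := by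
    obtain ⟨E, hE⟩ := exists_dual htb
    refine ⟨E, fun i j => ?_⟩
    have := congrFun (congrFun hE i) j
    rw [Matrix.of_apply, Matrix.one_apply] at this
    rw [this]
  have hrk : Module.finrank L (Full c0 dg D (vE E) x') ≤ m + 1 := by
    refine le_trans (Submodule.finrank_mono (full_le_tan (k0 := k0) hDk ?_ x'))
      (tan_rank hx1 (hV L x' hx00 hVx))
    intro i r
    change E i (algebraMap k0 L r) = 0
    rw [IsScalarTower.algebraMap_apply k0 K L]
    exact (E i).map_algebraMap _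
  have hindep : LinearIndepOn L (vv c0 dg D (vE E) x' fun a => Finsupp.single c0 (dg a))
      (Vert (Fin w) n A) := by
    obtain ⟨f, hf⟩ : ∃ f : Option (Fin w) → Ix (Fin w) n A ⊕ A, ∀ o, f o =
      o.elim (Sum.inl none) fun i => Sum.inl (some (Sum.inl i)) := ⟨_, fun _ => rfl⟩
    have h1 : Vert (Fin w) n A = f '' Set.univ := by
      ext i
      constructor
      · rintro (rfl | ⟨i, rfl⟩)
        · exact ⟨none, trivial, by rw [hf]; rfl⟩
        · exact ⟨some i, trivial, by rw [hf]; rfl⟩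
      · rintro ⟨(_ | i), -, rfl⟩
        · rw [hf]; exact Or.inl rfl
        · rw [hf]; exact Or.inr ⟨i, rfl⟩
    rw [h1]
    refine LinearIndepOn.image_of_comp _ _ ?_
    rw [linearIndepOn_univ_iff, Fintype.linearIndependent_iff]
    intro r hr
    have h2 : ∀ q, r none * x' q + ∑ i, r (some i) * E i (x' q) = 0 := by
      intro q
      have h3 := congrFun hr q
      rw [Fintype.sum_option, Pi.add_apply, Finset.sum_apply] at h3
      simp only [Function.comp_apply, hf, Option.elim, Pi.smul_apply, smul_eq_mul,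
        Pi.zero_apply] at h3
      exact h3
    have h3 : r none = 0 := by
      have h4 := h2 c0
      rw [hx1, mul_one, Finset.sum_eq_zero fun i _ => by
        rw [(E i).map_one_eq_zero, mul_zero], add_zero] at h4
      exact h4
    rintro (_ | j)
    · exact h3
    · have h4 := h2 (l j)
      rw [h3, zero_mul, zero_add, ← ht, Finset.sum_eq_single j] at h4
      · rwa [hE, if_pos rfl, mul_one] at h4
      · intro i _ hi
        rw [hE, if_neg hi, mul_zero]
      · intro h; exact absurd (Finset.mem_univ _) h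
  have hx0 : x' c0 ≠ 0 := by rw [hx1]; exact one_ne_zero
  obtain ⟨b, hbV, hbC, hbi, hspan, hcard⟩ := exists_rows (E := vE E) hHh hD
    (fun i a u => hFK (E i) a u) hx0 hxC' hindep
  obtain ⟨σ, hσ⟩ := exists_minor _ hbi
  have hdet : (mx c0 dg D (vE E) x' (fun a => Finsupp.single c0 (dg a)) b σ).det ≠ 0 := by
    rw [Ne, det_dec _ _ (mx c0 dg D (vE E) x' (fun a => Finsupp.single c0 (dg a)) b σ)]
    exact hσ
  have hGb : ∀ a, Sum.inr a ∉ b → a ∉ Cs := fun a ha hac => ha (hbC a hac)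
  have hrd : ∑ i ∈ b, rd i + Cs.card + w + 1 ≤ 2 * b.card := by
    obtain ⟨b', hb'⟩ : ∃ b' : Finset (Ix (Fin w) n A ⊕ A), b' = insert (Sum.inl none)
      ((Finset.univ.image fun i : Fin w => Sum.inl (some (Sum.inl i))) ∪ Cs.image Sum.inr) :=
        ⟨_, rfl⟩
    have h1 : b' ⊆ b := by
      rw [hb']
      intro i hi
      rcases Finset.mem_insert.1 hi with rfl | hi
      · exact hbV _ (Or.inl rfl)
      rcases Finset.mem_union.1 hi with hi | hi
      · obtain ⟨j, -, rfl⟩ := Finset.mem_image.1 hi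
        exact hbV _ (Or.inr ⟨j, rfl⟩)
      · obtain ⟨a, ha, rfl⟩ := Finset.mem_image.1 hi
        exact hbC a ha
    have h2 : b'.card = Cs.card + w + 1 := by
      rw [hb', Finset.card_insert_of_notMem, Finset.card_union_of_disjoint,
        Finset.card_image_of_injective, Finset.card_image_of_injective _ Sum.inr_injective,
        Finset.card_univ, Fintype.card_fin]
      · ring
      · intro i j hij
        simpa using hij
      · rw [Finset.disjoint_left]
        intro i hi hi'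
        obtain ⟨j, -, rfl⟩ := Finset.mem_image.1 hi
        obtain ⟨a, -, ha⟩ := Finset.mem_image.1 hi'
        exact absurd ha (by simp)
      · intro h
        rcases Finset.mem_union.1 h with hi | hi
        · obtain ⟨j, -, hj⟩ := Finset.mem_image.1 hi
          simp at hj
        · obtain ⟨a, -, ha⟩ := Finset.mem_image.1 hi
          exact absurd ha (by simp)
    have h3 : ∑ i ∈ b', rd i = b'.card := by
      rw [Finset.card_eq_sum_ones]
      refine Finset.sum_congr rfl fun i hi => ?_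
      rw [hb'] at hi
      rcases Finset.mem_insert.1 hi with rfl | hi
      · rfl
      rcases Finset.mem_union.1 hi with hi | hi
      · obtain ⟨j, -, rfl⟩ := Finset.mem_image.1 hi
        rfl
      · obtain ⟨a, ha, rfl⟩ := Finset.mem_image.1 hi
        rfl
    have h4 : ∑ i ∈ b \ b', rd i ≤ 2 * (b \ b').card := by
      rw [mul_comm, ← smul_eq_mul, ← Finset.sum_const]
      refine Finset.sum_le_sum fun i _ => ?_
      rcases i with (_ | _ | _) | _
      · exact one_le_two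
      · exact one_le_two
      · exact le_rfl
      · exact one_le_two
    have h5 := Finset.sum_sdiff (f := fun i => rd i) h1
    have h6 := Finset.card_sdiff_add_card_eq_card h1
    omega
  obtain ⟨R, hR⟩ : ∃ R, R = ∑ a ∈ Finset.univ.filter (fun a => a ∉ Cs), N / q a * dg a :=
    ⟨_, rfl⟩
  rw [← hR] at hd
  have hs1 : N * ∑ i ∈ b, rd i + ex + R ≤ N * ∑ a, dg a := by
    have h1 : b.card ≤ m + 1 := by rw [← hcard]; exact hrk
    have h2 : ∑ i ∈ b, rd i + Cs.card + w ≤ 2 * m + 1 := by omega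
    have h3 := Nat.mul_le_mul_left N h2
    rw [Nat.mul_add, Nat.mul_add] at h3
    rw [Nat.mul_add N (_ + _) w, Nat.mul_add N _ Cs.card] at hd
    omega
  have hord : ∀ (Q : Place K L) a, a ∉ Cs → Q.ord (eval x' (H a)) - dg a * pord Q x' =
      Q.ord (aeval x (F a)) - dg a * pord Q x := by
    intro Q a ha
    rw [hev, Q.ord_mul (pow_ne_zero _ hcx) (mul_ne_zero (hne a) (hxn a ha)),
      Q.ord_mul (hne a) (hxn a ha), Q.ord_const (inv_ne_zero (h0 a)), Q.ord_pow, hx',
      pord_scale Q ⟨c0, hc0⟩ hcx]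
    ring
  have hmult' : ∀ (Q : Place K L) a, a ∉ Cs → q a ≠ 0 →
      dg a * pord Q x' < Q.ord (eval x' (H a)) →
      dg a * pord Q x' + q a ≤ Q.ord (eval x' (H a)) := by
    intro Q a ha hqa hlt
    have h1 := hord Q a ha
    have h2 := hmult Q a ha hqa (by linarith)
    linarith
  have hge' : ∀ (Q : Place K L) a, a ∉ Cs → dg a * pord Q x' ≤ Q.ord (eval x' (H a)) := by
    intro Q a ha
    have h1 := ord_ge Q (hHh a) (g := 0) (fun u => by
      rw [hH, coeff_map, neg_zero]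
      exact Ge.const _) hx00 (hxn' a ha)
    linarith
  -- the product
  obtain ⟨y', hy'⟩ : ∃ y' : A → L, ∀ a, y' a = eval x' (H a) ^ (N / q a) := ⟨_, fun _ => rfl⟩
  have hy0 : ∀ a, a ∉ Cs → y' a ≠ 0 := by
    intro a ha
    rw [hy']
    exact pow_ne_zero _ (hxn' a ha)
  have hyge : ∀ (Q : Place K L) a, a ∉ Cs →
      (N / q a * dg a : ℕ) * pord Q x' ≤ Q.ord (y' a) := by
    intro Q a ha
    rw [hy', Q.ord_pow, Nat.cast_mul, mul_assoc]
    exact mul_le_mul_of_nonneg_left (hge' Q a ha) (Nat.cast_nonneg _)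
  have hygt : ∀ (Q : Place K L) a, a ∉ Cs → q a ≠ 0 →
      dg a * pord Q x' < Q.ord (eval x' (H a)) →
      (N / q a * dg a : ℕ) * pord Q x' + N ≤ Q.ord (y' a) := by
    intro Q a ha hqa hlt
    have hdv : N / q a * q a = N := Nat.div_mul_cancel (hqN a ha hqa)
    have hdv' : ((N / q a : ℕ) : ℤ) * (q a : ℤ) = (N : ℤ) := by exact_mod_cast hdv
    have h1 := mul_le_mul_of_nonneg_left (hmult' Q a ha hqa hlt)
      (Nat.cast_nonneg (α := ℤ) (N / q a))
    rw [mul_add, hdv'] at h1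
    rw [hy', Q.ord_pow, Nat.cast_mul, mul_assoc]
    exact h1
  obtain ⟨Y, hY⟩ : ∃ Y, Y = ∏ a ∈ Finset.univ.filter (fun a => a ∉ Cs), y' a := ⟨_, rfl⟩
  have hmem : ∀ a, a ∈ Finset.univ.filter (fun a => a ∉ Cs) ↔ a ∉ Cs := fun a => by simp
  have hY0 : Y ≠ 0 := by
    rw [hY]
    exact Finset.prod_ne_zero_iff.2 fun a ha => hy0 a ((hmem a).1 ha)
  have hYge : ∀ Q : Place K L, Ge Q (R * pord Q x') Y := by
    intro Q
    have h1 := Ge.prod (P := Q) (Finset.univ.filter (fun a => a ∉ Cs)) y'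
      (fun a => (N / q a * dg a : ℕ) * pord Q x')
      (fun a ha => Or.inr (hyge Q a ((hmem a).1 ha)))
    rw [← Finset.sum_mul, ← Nat.cast_sum, ← hR, ← hY] at h1
    exact h1
  have hYgt : ∀ (Q : Place K L) a, a ∉ Cs → q a ≠ 0 →
      dg a * pord Q x' < Q.ord (eval x' (H a)) → Ge Q (R * pord Q x' + N) Y := by
    intro Q a ha hqa hlt
    have h1 := Ge.prod (P := Q) (Finset.univ.filter (fun a => a ∉ Cs)) y'
      (fun a' => (N / q a' * dg a' : ℕ) * pord Q x' + if a' = a then (N : ℤ) else 0)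
      (fun a' ha' => by
        split_ifs with h
        · subst h
          exact Or.inr (hygt Q _ ha hqa hlt)
        · rw [add_zero]
          exact Or.inr (hyge Q a' ((hmem a').1 ha')))
    rw [Finset.sum_add_distrib, Finset.sum_ite_eq' _ a, if_pos ((hmem a).2 ha), ← Finset.sum_mul,
      ← Nat.cast_sum, ← hR, ← hY] at h1
    exact h1
  -- the forms
  obtain ⟨Z, hZ⟩ : ∃ Z, Z = ∏ a, if Sum.inr a ∈ b then x' c0 ^ dg a else eval x' (H a) := ⟨_, rfl⟩
  have hZ0 : Z ≠ 0 := by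
    rw [hZ]
    refine Finset.prod_ne_zero_iff.2 fun a _ => ?_
    split_ifs with ha
    · exact pow_ne_zero _ hx0
    · exact hxn' a (hGb a ha)
  obtain ⟨Φ, hΦ⟩ : ∃ Φ : (Fin w → Derivation K L L) → L, ∀ Dd, Φ Dd =
    (mx c0 dg D (vE Dd) x' (fun a => Finsupp.single c0 (dg a)) b σ).det / Z :=
    ⟨_, fun _ => rfl⟩
  obtain ⟨ω, hω⟩ : ∃ ω : (Fin w → Derivation K L L) → L, ∀ Dd, ω Dd = Φ Dd ^ N * Y :=
    ⟨_, fun _ => rfl⟩
  have hlinΦ : ∀ (M : Matrix (Fin w) (Fin w) L) (D1 D2 : Fin w → Derivation K L L),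
      (∀ i f, D1 i f = ∑ j, M i j * D2 j f) → Φ D1 = M.det * Φ D2 := by
    intro M D1 D2 h
    have h1 := det_lin (c0 := c0) (dg := dg) (D := D) (E := vE D2) (E' := vE D1) (M := M)
      h x' hbV σ (fun a => Finsupp.single c0 (dg a))
    have h2 : (mx c0 dg D (vE D1) x' (fun a => Finsupp.single c0 (dg a)) b σ).det =
        M.det * (mx c0 dg D (vE D2) x' (fun a => Finsupp.single c0 (dg a)) b σ).det := by
      exact (det_dec _ _ _).trans (h1.trans (congrArg₂ (· * ·) (det_dec _ _ _) (det_dec _ _ _)))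
    rw [hΦ, hΦ, h2]
    ring
  have hlin : ∀ (M : Matrix (Fin w) (Fin w) L) (D1 D2 : Fin w → Derivation K L L),
      (∀ i f, D1 i f = ∑ j, M i j * D2 j f) → ω D1 = M.det ^ N * ω D2 := by
    intro M D1 D2 h
    rw [hω, hω, hlinΦ M D1 D2 h, mul_pow, mul_assoc]
  have hωE : ω E ≠ 0 := by
    rw [hω, hΦ]
    exact mul_ne_zero (pow_ne_zero _ (div_ne_zero hdet hZ0)) hY0
  -- the regularity
  have hregΦ : ∀ (Q : Place K L), Divisorial w Q → ∀ (Dd : Fin w → Derivation K L L),
      (((∀ i, DerReg Q (Dd i)) ∧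
        ∀ a, Sum.inr a ∉ b → Q.ord (eval x' (H a)) ≤ dg a * pord Q x') ∨ ∀ i, DerLog Q (Dd i)) →
      Ge Q (((∑ i ∈ b, rd i : ℕ) - (∑ a, dg a : ℕ)) * pord Q x') (Φ Dd) := by
    intro Q hQ Dd hDd
    obtain ⟨M, hM⟩ : ∃ M : Matrix (Fin w) (Fin w) L, M = Matrix.of fun i j => Dd i (t j) := ⟨_, rfl⟩
    have hωM := hlinΦ M Dd E (fun i f => by
      rw [der_comb htb hE (Dd i) f, hM]
      rfl)
    by_cases hM0 : M.det = 0
    · rw [hωM, hM0, zero_mul]
      exact Ge.zero
    have h1 := ord_form hHh hD hw htr hQ hDS htb hE hFK (Dd := Dd) (by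
      have h2 := hM0
      rw [hM] at h2
      rw [Ne, det_dec _ _ (Matrix.of fun i j => Dd i (t j))]
      exact h2) hx0 hbV σ hspan hcard hdet (fun a ha => hxn' a (hGb a ha)) hDd
    rw [← hZ] at h1
    have h2 : Q.ord (Matrix.of fun i j => Dd i (t j)).det = Q.ord M.det := by
      congr 1
      rw [hM]
    have hdz : (mx c0 dg D (vE E) x' (fun a => Finsupp.single c0 (dg a)) b σ).det / Z ≠ 0 :=
      div_ne_zero hdet hZ0
    right
    rw [hωM, hΦ, Q.ord_mul hM0 hdz, ← h2]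
    exact h1
  have hfin : ∀ (Q : Place K L) (Dd : Fin w → Derivation K L L) (s : ℤ), 0 ≤ s →
      Ge Q (((∑ i ∈ b, rd i : ℕ) - (∑ a, dg a : ℕ)) * pord Q x' - s) (Φ Dd) →
      Ge Q (R * pord Q x' + N * s) Y → ∀ f : Fin ex → Fin (n + 1),
      Q.Reg ((∏ j, x (f j) / x c0) * ω Dd) := by
    intro Q Dd s hs h1 h2 f
    rw [hω]
    have h3 : Ge Q (ex * pord Q x') (∏ j, x (f j) / x c0) := by
      have h0 : ∀ j ∈ (Finset.univ : Finset (Fin ex)), Ge Q (pord Q x') (x (f j) / x c0) := by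
        intro j _
        have e1 : x (f j) / x c0 = x' (f j) := by
          rw [hx']
          exact div_eq_inv_mul _ _
        rw [e1]
        by_cases hxj : x' (f j) = 0
        · exact Or.inl hxj
        · exact Or.inr (pord_le Q hxj)
      have h4 := Ge.prod (P := Q) Finset.univ (fun j => x (f j) / x c0) (fun _ => pord Q x') h0
      rwa [Finset.sum_const, Finset.card_univ, Fintype.card_fin, nsmul_eq_mul] at h4
    have h4 : pord Q x' ≤ 0 := by
      have := pord_le Q (f := x') hx0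
      rwa [hx1, Q.ord_one] at this
    have h5 : (N : ℤ) * ((∑ i ∈ b, rd i : ℕ) : ℤ) + ex + R ≤ N * (∑ a, dg a : ℕ) := by
      exact_mod_cast hs1
    have h6 : 0 ≤ ((N : ℤ) * ((∑ i ∈ b, rd i : ℕ) : ℤ) + ex + R - N * (∑ a, dg a : ℕ)) *
        pord Q x' := mul_nonneg_of_nonpos_of_nonpos (by linarith) h4
    have h7 := h3.mul ((h1.pow N).mul h2)
    refine h7.mono ?_
    have h8 : (ex : ℤ) * pord Q x' + ((N : ℤ) * (((∑ i ∈ b, rd i : ℕ) - (∑ a, dg a : ℕ)) *
        pord Q x' - s) + (R * pord Q x' + N * s)) =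
        ((N : ℤ) * ((∑ i ∈ b, rd i : ℕ) : ℤ) + ex + R - N * (∑ a, dg a : ℕ)) * pord Q x' := by
      ring
    rw [h8]
    exact h6
  refine ⟨ω, fun M Dd => hlin M _ Dd (fun i f => ?_), ⟨E, hωE⟩, fun f Q hQ =>
    ⟨fun Dd hDd => ?_, fun hB Dd hDd => ?_⟩⟩
  · rw [← Derivation.coeFnAddMonoidHom_apply, map_sum, Finset.sum_apply]
    rfl
  · exact hfin Q Dd 0 le_rfl (by rw [sub_zero]; exact hregΦ Q hQ Dd (Or.inr hDd))
      (by rw [mul_zero, add_zero]; exact hYge Q) f
  · have hbd : ∀ a, a ∉ Cs → q a = 0 → Q.ord (eval x' (H a)) ≤ dg a * pord Q x' := by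
      intro a ha hqa
      by_contra hcon
      apply hB
      refine ⟨a, ha, hqa, ?_⟩
      rw [not_le] at hcon
      have h1 := hord Q a ha
      linarith
    by_cases hall : ∀ a, a ∉ Cs → Q.ord (eval x' (H a)) ≤ dg a * pord Q x'
    · exact hfin Q Dd 0 le_rfl (by
        rw [sub_zero]
        exact hregΦ Q hQ Dd (Or.inl ⟨hDd, fun a ha => hall a (hGb a ha)⟩))
        (by rw [mul_zero, add_zero]; exact hYge Q) f
    · push Not at hall
      obtain ⟨a, ha, hlt⟩ := hall
      have hqa : q a ≠ 0 := fun h => absurd (hbd a ha h) (not_le.2 hlt)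
      exact hfin Q Dd 1 zero_le_one (log_loss hlinΦ (fun Dd' h => hregΦ Q hQ Dd' (Or.inr h)) hDd)
        (by rw [mul_one]; exact hYgt Q a ha hqa hlt) f

end Pool.Agent.J4.H14.MV
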