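import Pool.Agent.J4.H14.MV.Multi
import Pool.Agent.J4.H14.MV.Img
import Pool.Agent.J4.H14.MV.Orb
import Pool.Agent.J4.H14.RP.General

/-!
Varieties with many-valued maps to ramified pairs are of (logarithmic) general type.
-/

set_option autoImplicit false
set_option linter.unusedSectionVars false
set_option linter.overlappingInstances false

open MvPolynomial FF Pool.Agent.W603.LV Pool.Agent.W603.PV Pool.Agent.W602.GT Pool.Agent.TH145.GH
  Pool.Agent.N126.RC Pool.Agent.J4.H14.RP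

namespace Pool.Agent.J4.H14.MV

/-- the product of a form and a regular function -/
theorem sec_mul {k F : Type} [Field k] [Field F] [Algebra k F] {n : ℕ} {Bd : Place k F → Prop}
    {P : Place k F} {ω : (Fin n → Derivation k F F) → F}
    (h : Pool.Agent.N111.GI.SecAt Bd P ω) {g : F} (hg : Ge P 0 g)
    {ω' : (Fin n → Derivation k F F) → F} (hω' : ∀ D, ω' D = g * ω D) :
    Pool.Agent.N111.GI.SecAt Bd P ω' := by
  refine ⟨fun D hD => ?_, fun hB D hD => ?_⟩
  · rw [hω']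
    exact P.reg_mul hg (h.1 D hD)
  · rw [hω']
    exact P.reg_mul hg (h.2 hB D hD)

section numbers

/-- the numerical condition -/
theorem num_condV {A : Type} [Fintype A] [DecidableEq A] {C : Finset A} {d q : A → ℕ} {t w : ℕ}
    (hd : (t : ℚ) < ∑ a ∈ C, ((d a : ℚ) + 1) + ∑ a ∈ Cᶜ, (d a : ℚ) * (1 - 1 / q a) + w) {N : ℕ}
    (hN : 0 < N) (hqN : ∀ a, a ∉ C → q a ≠ 0 → q a ∣ N) {C' : Finset A} (hC : C ⊆ C') :
    N * t + ∑ a ∈ C'ᶜ, N / q a * d a < N * (∑ a, d a + C'.card + w) := by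
  have h0 : (0 : ℚ) < N := by exact_mod_cast hN
  have h1 : ∀ a ∈ C'ᶜ, (((N / q a * d a : ℕ)) : ℚ) = N * (d a * (1 / q a)) := by
    intro a ha
    have ha' : a ∉ C := fun h => Finset.mem_compl.1 ha (hC h)
    by_cases hqa : q a = 0
    · rw [hqa]; simp
    · rw [Nat.cast_mul, Nat.cast_div_charZero (hqN a ha' hqa)]
      ring
  have h2 : ((∑ a ∈ C'ᶜ, N / q a * d a : ℕ) : ℚ) = N * ∑ a ∈ C'ᶜ, (d a : ℚ) * (1 / q a) := by
    rw [Nat.cast_sum, Finset.mul_sum]
    exact Finset.sum_congr rfl h1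
  have h3 : ∑ a ∈ C'ᶜ, (d a : ℚ) * (1 / q a) ≤ ∑ a ∈ Cᶜ, (d a : ℚ) * (1 / q a) :=
    Finset.sum_le_sum_of_subset_of_nonneg (Finset.compl_subset_compl.2 hC)
      fun _ _ _ => by positivity
  have h4 : ∑ a ∈ Cᶜ, (d a : ℚ) * (1 - 1 / q a) = ∑ a ∈ Cᶜ, (d a : ℚ) -
      ∑ a ∈ Cᶜ, (d a : ℚ) * (1 / q a) := by
    rw [← Finset.sum_sub_distrib]
    exact Finset.sum_congr rfl fun a _ => by ring
  have h5 : ∑ a ∈ C, ((d a : ℚ) + 1) = ∑ a ∈ C, (d a : ℚ) + C.card := by
    rw [Finset.sum_add_distrib]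
    simp
  have h6 : ∑ a ∈ C, (d a : ℚ) + ∑ a ∈ Cᶜ, (d a : ℚ) = ∑ a, (d a : ℚ) :=
    Finset.sum_add_sum_compl C _
  have h7 : (C.card : ℚ) ≤ C'.card := by exact_mod_cast Finset.card_le_card hC
  have h8 : (t : ℚ) + ∑ a ∈ C'ᶜ, (d a : ℚ) * (1 / q a) < ∑ a, (d a : ℚ) + C'.card + w := by
    rw [h4, h5] at hd
    linarith
  have h9 := mul_lt_mul_of_pos_left h8 h0
  rw [mul_add, ← h2] at h9
  exact_mod_cast h9

end numbers

section

variable {k K L L1 : Type} [Field k] [Field K] [Algebra k K] [IsAlgClosed K] [CharZero K]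
  [Field L] [Field L1] [Algebra K L] [Algebra K L1] [Algebra L L1] [IsScalarTower K L L1]
  [FiniteDimensional L L1] [Algebra.EssFiniteType K L] {X : SparsePair k K}

/-- Images of small degree of the varieties over ramified pairs are of log general type. -/
theorem gt_pair {w : ℕ} (hw : 0 < w) (htr : Algebra.trdeg K L = w)
    {z : Fin (X.n + 1) ⊕ X.W → L1} (hz : X.Point z)
    (hgen : IntermediateField.adjoin L (Set.range z) = ⊤)
    (halg : Algebra.IsAlgebraic (IntermediateField.adjoin K (Set.range z)) L1)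
    (hex : 0 < X.excess (Module.finrank L L1) + ((w : ℚ) - 1)) {BK : Place K L → Prop}
    (hB : ∀ (P : Place K L) (Q : Place K L1) (e : ℕ), Over Q P e → (∃ a ∈ X.boundary,
      X.d a * pord Q (fun j => z (Sum.inl j)) <
        Q.ord (aeval (fun j => z (Sum.inl j)) (X.F a))) → BK P) :
    LogGeneralType K L w BK := by
  classical
  have hess : Algebra.EssFiniteType K L1 := Algebra.EssFiniteType.comp K L L1
  have htr' : Algebra.trdeg K L1 = w := Pool.Agent.Y172.trdeg_up (K := L) htr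
  obtain ⟨r, hr⟩ : ∃ r, r = Module.finrank L L1 := ⟨_, rfl⟩
  have hr0 : 0 < r := by rw [hr]; exact Module.finrank_pos
  rw [← hr] at hex
  obtain ⟨N0, hN0, hqN⟩ := exists_N X.C X.q
  obtain ⟨x, hx⟩ : ∃ x : Fin (X.n + 1) → L1, x = fun j => z (Sum.inl j) := ⟨_, rfl⟩
  obtain ⟨c, hcc, hzc⟩ := hz.1
  have hxc : x c = 1 := by rw [hx]; exact hzc
  have hxc0 : x c ≠ 0 := by rw [hxc]; exact one_ne_zero
  have hx0 : x ≠ 0 := fun h => hxc0 (by rw [h]; rfl)
  obtain ⟨C', hC'⟩ : ∃ C' : Finset X.A, ∀ a, a ∈ C' ↔ aeval x (X.F a) = 0 :=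
    ⟨Finset.univ.filter fun a => aeval x (X.F a) = 0, fun a => by simp⟩
  have hsub : X.C ⊆ C' := fun a ha => (hC' a).2 (by rw [hx]; exact hz.mem_F ha)
  have hCn : ∀ a, a ∉ C' → a ∉ X.C := fun a ha h => ha (hsub h)
  -- the numbers
  have hnum : ∀ S : Finset X.A, (∀ a, a ∈ S ↔ a ∉ C') → X.E * N0 * (2 * X.m + 1) +
      ∑ a ∈ S, X.E * N0 / X.q a * X.d a + X.E * (2 * (X.E * N0 * (r - 1)) + 1) ≤
      X.E * N0 * (∑ a, X.d a + C'.card + w) := by
    intro S hS
    have h7 : S = C'ᶜ := by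
      ext a
      rw [hS, Finset.mem_compl]
    have h5 := num_condV (t := 2 * X.m + 1 + 2 * (r - 1) * X.E) (w := w) (by
      have h6 : ((r - 1 : ℕ) : ℚ) = (r : ℚ) - 1 := by
        rw [Nat.cast_sub hr0, Nat.cast_one]
      push_cast
      rw [h6]
      have h8 := hex
      unfold SparsePair.excess SparsePair.total at h8
      exact lt_of_sub_pos (by
        refine lt_of_lt_of_eq h8 ?_
        ring)) hN0 hqN hsub
    have h6 : ∀ a ∈ C'ᶜ, X.E * N0 / X.q a * X.d a = X.E * (N0 / X.q a * X.d a) := by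
      intro a ha
      have ha' := hCn a (Finset.mem_compl.1 ha)
      by_cases hqa : X.q a = 0
      · rw [hqa]; simp
      · rw [Nat.mul_div_assoc _ (hqN a ha' hqa), mul_assoc]
    rw [h7, Finset.sum_congr rfl h6, ← Finset.mul_sum]
    obtain ⟨s1, hs1⟩ : ∃ s1, s1 = ∑ a ∈ C'ᶜ, N0 / X.q a * X.d a := ⟨_, rfl⟩
    obtain ⟨s2, hs2⟩ : ∃ s2, s2 = ∑ a, X.d a + C'.card := ⟨_, rfl⟩
    rw [← hs1, ← hs2] at h5 ⊢
    have h8 : X.E * (N0 * (2 * X.m + 1 + 2 * (r - 1) * X.E) + s1 + 1) ≤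
        X.E * (N0 * (s2 + w)) := Nat.mul_le_mul_left _ h5
    nlinarith
  -- the forms
  obtain ⟨N, hN⟩ : ∃ N, N = X.E * N0 := ⟨_, rfl⟩
  have hNpos : 0 < N := by
    rw [hN]
    exact Nat.mul_pos X.one_le_E hN0
  obtain ⟨t, ht⟩ : ∃ t, t = 2 * (N * (Module.finrank L L1 - 1)) + 1 := ⟨_, rfl⟩
  obtain ⟨ω, hω, hne, hreg⟩ := orb_twisted (ex := X.E * t) X.V X.V_form X.V_dim X.P X.P_form X.coef
    X.j₀ X.coef_ne X.general' c (X.hSt hcc) X.F_eq C' X.q N hNpos
    (fun a ha hq => (hqN a (hCn a ha) hq).trans (by rw [hN]; exact Dvd.intro_left _ rfl)) hw (by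
      rw [ht, ← hr, hN]
      exact hnum _ fun a => by simp) htr' x hxc0 (by
      rw [hx]
      exact alg_coords X.finite z c hzc hz.2 halg)
    (fun f hf => by rw [hx]; exact hz.mem_V hf) (fun a ha => (hC' a).1 ha)
    (fun a ha h => ha ((hC' a).2 h)) (fun Q a ha hqa hlt => by
      rw [hx] at hlt hx0 ⊢
      refine mult_all X.e X.G X.G_form X.finite (X.F_form a) (X.ramified a (hCn a ha) hqa) z hz.2 hx0
        (fun h => ha ((hC' a).2 (by rw [hx]; exact h))) Q hlt)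
  have hl0 : X.ext z (X.idx.symm (Sum.inl (Sum.inl c))) = 1 := by
    rw [X.ext_inl]
    exact hzc
  refine gt_norm (x := X.ext z) htr
    (BL := fun Q : Place K L1 => ∃ a, a ∉ C' ∧ X.q a = 0 ∧
      X.d a * pord Q x < Q.ord (aeval x (X.F a))) ?_ hl0 (by rw [X.adjoin_ext]; exact hgen)
    hNpos hω ht (fun f Q hQ => ?_) (fun τ => ?_) hne
  · rintro P Q e hQ ⟨a, ha, hqa, hlt⟩
    rw [hx] at hlt
    exact hB P Q e hQ ⟨a, ⟨hCn a ha, hqa⟩, hlt⟩
  · obtain ⟨j, hj, hjo⟩ := exists_pord Q (Function.ne_iff.1 hx0)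
    have h1 := hreg (fun _ => j) Q hQ
    have hjE : x j ^ X.E ≠ 0 := pow_ne_zero _ hj
    refine sec_mul h1 (g := ∏ i, X.ext z (f i) / x j ^ X.E) ?_ fun D => ?_
    · have h2 : ∀ i ∈ (Finset.univ : Finset (Fin t)), Ge Q 0 (X.ext z (f i) / x j ^ X.E) := by
        intro i _
        have h3 := hz.ge_ext Q (f i)
        rw [← hx] at h3
        rcases h3 with h3 | h3
        · left
          rw [h3, zero_div]
        · by_cases h0 : X.ext z (f i) = 0
          · left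
            rw [h0, zero_div]
          · right
            rw [Q.ord_div h0 hjE, Q.ord_pow, hjo]
            linarith
      have h3 := Ge.prod (P := Q) Finset.univ (fun i => X.ext z (f i) / x j ^ X.E) (fun _ => 0) h2
      simpa using h3
    · rw [Finset.prod_div_distrib, Finset.prod_const, Finset.prod_const, Finset.card_univ,
        Finset.card_univ, Fintype.card_fin, Fintype.card_fin, hxc, div_one, ← pow_mul]
      have h4 : x j ^ (X.E * t) ≠ 0 := pow_ne_zero _ hj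
      field_simp
  · rw [X.adjoin_ext]
    exact halg.isAlgebraic τ

end

end Pool.Agent.J4.H14.MV
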