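import Pool.Agent.J4.H14.MV.Map

/-!
Images of small degree of the varieties over ramified pairs.
-/

set_option autoImplicit false
set_option linter.unusedSectionVars false
set_option linter.overlappingInstances false

open FF IntermediateField

namespace Pool.Agent.J4.H14.MV

open Pool.Agent.TH466.QG Pool.Agent.N111.FT Pool.Agent.N111.GG Pool.Agent.N111.GI
  Pool.Agent.W603.LV Pool.Agent.J4.H14.RP
open Pool.Agent.W602.GT (val coords IsForm LogGeneralType GeneralType)
open Pool.Agent.W603.PV (pord pord_le exists_pord)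

variable {k K L L' : Type} [Field k] [Field K] [IsAlgClosed K] [CharZero K] [Algebra k K]
  [Field L] [Field L'] [Algebra K L] [Algebra K L'] [Algebra L L'] [IsScalarTower K L L']
  [FiniteDimensional L L'] [Algebra.EssFiniteType K L]

/-- **Images of small degree** of the varieties over ramified pairs are of log general type. -/
theorem gt_image (X : SparsePair k K) {w : ℕ} (hw : 0 < w) (htr : Algebra.trdeg K L = w)
    {z : Fin (X.n + 1) ⊕ X.W → L'} (hz : X.Point z)
    (halg : Algebra.IsAlgebraic (adjoin K (Set.range z)) L')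
    (hex : 0 < X.excess (Module.finrank L L') + ((w : ℚ) - 1)) :
    LogGeneralType K L w fun P : Place K L => ∃ (Q : Place K L') (e : ℕ), FF.Over Q P e ∧
      ∃ a ∈ X.boundary, X.d a * pord Q (fun j => z (Sum.inl j)) <
        Q.ord (MvPolynomial.aeval (fun j => z (Sum.inl j)) (X.F a)) := by
  classical
  -- the field generated by the coordinates
  obtain ⟨L1, hL1⟩ : ∃ L1 : IntermediateField L L', L1 = adjoin L (Set.range z) := ⟨_, rfl⟩
  have hzE : ∀ v, z v ∈ L1 := fun v => by
    rw [hL1]
    exact subset_adjoin L _ ⟨v, rfl⟩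
  obtain ⟨z1, hz1c⟩ : ∃ z1 : Fin (X.n + 1) ⊕ X.W → L1, ∀ v, (z1 v : L') = z v :=
    ⟨fun v => ⟨z v, hzE v⟩, fun _ => rfl⟩
  have hst3 : IsScalarTower K L1 L' := IsScalarTower.of_algebraMap_eq fun c => by
    rw [IsScalarTower.algebraMap_apply K L L', IsScalarTower.algebraMap_apply K L L1,
      ← IsScalarTower.algebraMap_apply L L1 L']
  have hzz : (fun v => algebraMap L1 L' (z1 v)) = z := funext hz1c
  have hxx : (fun j => algebraMap L1 L' (z1 (Sum.inl j))) = fun j => z (Sum.inl j) :=
    funext fun j => hz1c _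
  have hz1 : X.Point z1 := point_down (E := L') (by rw [hzz]; exact hz)
  have hgen1 : adjoin L (Set.range z1) = ⊤ := by
    subst hL1
    apply IntermediateField.lift_injective
    rw [IntermediateField.lift_adjoin, IntermediateField.lift_top]
    congr 1
    ext y
    constructor
    · rintro ⟨_, ⟨j, rfl⟩, rfl⟩
      exact ⟨j, (hz1c j).symm⟩
    · rintro ⟨j, rfl⟩
      exact ⟨z1 j, ⟨j, rfl⟩, hz1c j⟩
  have halg1 : Algebra.IsAlgebraic (adjoin K (Set.range z1)) L1 := by
    constructor
    intro t
    rw [← mem_aclo, ← map_mem_aclo_iff (L1.val.restrictScalars K)]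
    have h1 : (L1.val.restrictScalars K) '' (Set.range z1) = Set.range z := by
      ext y
      constructor
      · rintro ⟨_, ⟨j, rfl⟩, rfl⟩
        exact ⟨j, (hz1c j).symm⟩
      · rintro ⟨j, rfl⟩
        exact ⟨z1 j, ⟨j, rfl⟩, hz1c j⟩
    rw [h1, mem_aclo]
    exact halg.isAlgebraic _
  have hr1 : Module.finrank L L1 ≤ Module.finrank L L' := by
    have h1 := Module.finrank_mul_finrank L L1 L'
    have h2 : 0 < Module.finrank L1 L' := Module.finrank_pos
    rw [← h1]
    exact Nat.le_mul_of_pos_right _ h2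
  have hex1 : 0 < X.excess (Module.finrank L L1) + ((w : ℚ) - 1) := by
    refine hex.trans_le ?_
    have h1 : (Module.finrank L L1 : ℚ) ≤ Module.finrank L L' := by exact_mod_cast hr1
    have h2 : (0 : ℚ) ≤ X.E := Nat.cast_nonneg _
    unfold SparsePair.excess
    nlinarith
  refine gt_pair hw htr hz1 hgen1 halg1 hex1 ?_
  rintro P Q1 e hQ1 ⟨a, ha, hlt⟩
  obtain ⟨Q, e', hQ⟩ := exists_place_above (F := L') Q1
  refine ⟨Q, e' * e, over_trans hQ1 hQ, a, ha, ?_⟩
  rw [← hxx, aeval_down, hQ.2, pord_over hQ hz1.exists_ne]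
  have h3 : (0 : ℤ) < e' := by exact_mod_cast hQ.1
  have h4 := mul_lt_mul_of_pos_left hlt h3
  linarith

end Pool.Agent.J4.H14.MV
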