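import Pool.Agent.J4.H14.MV.Bound
import Pool.Agent.J4.H14.MV.Gt

/-!
Varieties with generically finite many-valued morphisms to ramified pairs.
-/

set_option autoImplicit false
set_option linter.unusedSectionVars false
set_option linter.overlappingInstances false

open FF IntermediateField

namespace Pool.Agent.J4.H14.MV

open Pool.Agent.TH466.QG Pool.Agent.N111.FT Pool.Agent.N111.GG Pool.Agent.N111.GI
  Pool.Agent.W603.LV Pool.Agent.J4.H14.RP
open Pool.Agent.N126.RC (curve_cover generic_closure general_coverW alg_coords)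
open Pool.Agent.W602.GT (val coords IsForm LogGeneralType GeneralType)
open Pool.Agent.W603.PV (pht pht_le pord pord_le exists_pord hgt_algebraic isFF_of_finite
  hgt_algebraMap under ram ram_spec ord_under)
open Pool.Agent.Y216 (OnVar)

variable {k K L : Type} [Field k] [Field K] [IsAlgClosed K] [CharZero K] [Algebra k K] [Field L]
  [Algebra K L] {N : ℕ} {u : Fin (N + 1) → L} {B : MvPolynomial (Fin (N + 1)) K} {b r ρ : ℕ}

/-- Integral functions have no poles outside of the boundary. -/
theorem integral_ord (hu : u ≠ 0) (hB : B.IsHomogeneous b) (hBu : MvPolynomial.aeval u B ≠ 0)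
    {L' : Type} [Field L'] [Algebra K L'] [Algebra L L'] [IsScalarTower K L L'] {g : L'}
    (hg : IntegralOn u B b g) {P : Place K L} {Q : Place K L'} {e : ℕ} (hQ : FF.Over Q P e)
    (hPB : P.ord (MvPolynomial.aeval u B) = b * pord P u) : Ge Q 0 g := by
  classical
  obtain ⟨p, hp, hreg, hpg⟩ := hg
  have h1 : ∑ i ∈ Finset.range (p.natDegree + 1), algebraMap L L' (p.coeff i) * g ^ i = 0 := by
    rw [Polynomial.aeval_eq_sum_range] at hpg
    simpa [Algebra.smul_def] using hpg
  rw [Finset.sum_range_succ, hp.coeff_natDegree, map_one, one_mul, add_comm] at h1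
  refine Pool.Agent.N617.RC.int_of_monic Q p.natDegree (fun i => algebraMap L L' (p.coeff i))
    (fun i _ => ?_) g h1
  obtain ⟨s, G, hG, hc⟩ := hreg i
  by_cases h0 : p.coeff i = 0
  · left
    change algebraMap L L' (p.coeff i) = 0
    rw [h0, map_zero]
  · right
    change 0 ≤ Q.ord (algebraMap L L' (p.coeff i))
    rw [hQ.2]
    refine mul_nonneg (Int.natCast_nonneg _) ?_
    have hGu : MvPolynomial.aeval u G ≠ 0 := by
      rw [← hc]
      exact mul_ne_zero h0 (pow_ne_zero _ hBu)
    have h2 := form_ord P hG hu hGu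
    rw [← hc, P.ord_mul h0 (pow_ne_zero _ hBu), P.ord_pow, hPB] at h2
    push_cast at h2
    linarith

/-- **Varieties with a generically finite many-valued morphism to a ramified pair** are of log
general type. -/
theorem gt_map (hu : u ≠ 0) (hgen : coords K u = ⊤) (hB : B.IsHomogeneous b)
    (hBu : MvPolynomial.aeval u B ≠ 0) {w : ℕ} (hw : 0 < w) (htr : Algebra.trdeg K L = w)
    (C : MultiMap k u B b r) (hex : 0 < C.X.excess r + ((w : ℚ) - 1))
    (halg : Algebra.IsAlgebraic (adjoin K (Set.range C.z)) C.L') : LogGT u B b w := by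
  classical
  have hess : Algebra.EssFiniteType K L := ess_of_gen hgen
  -- the field generated by the coordinates
  obtain ⟨L1, hL1⟩ : ∃ L1 : IntermediateField L C.L', L1 = adjoin L (Set.range C.z) := ⟨_, rfl⟩
  have hzE : ∀ v, C.z v ∈ L1 := fun v => by
    rw [hL1]
    exact subset_adjoin L _ ⟨v, rfl⟩
  obtain ⟨z1, hz1c⟩ : ∃ z1 : Fin (C.X.n + 1) ⊕ C.X.W → L1, ∀ v, (z1 v : C.L') = C.z v :=
    ⟨fun v => ⟨C.z v, hzE v⟩, fun _ => rfl⟩
  have hst3 : IsScalarTower K L1 C.L' := IsScalarTower.of_algebraMap_eq fun c => by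
    rw [IsScalarTower.algebraMap_apply K L C.L', IsScalarTower.algebraMap_apply K L L1,
      ← IsScalarTower.algebraMap_apply L L1 C.L']
  have hzz : (fun v => algebraMap L1 C.L' (z1 v)) = C.z := funext hz1c
  have hxx : (fun j => algebraMap L1 C.L' (z1 (Sum.inl j))) = fun j => C.z (Sum.inl j) :=
    funext fun j => hz1c _
  have hz1 : C.X.Point z1 := point_down (E := C.L') (by rw [hzz]; exact C.point)
  have hgen1 : adjoin L (Set.range z1) = ⊤ := by
    subst hL1
    apply IntermediateField.lift_injective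
    rw [IntermediateField.lift_adjoin, IntermediateField.lift_top]
    congr 1
    ext y
    constructor
    · rintro ⟨_, ⟨j, rfl⟩, rfl⟩
      exact ⟨j, (hz1c j).symm⟩
    · rintro ⟨j, rfl⟩
      exact ⟨z1 j, ⟨j, rfl⟩, hz1c j⟩
  have halg1 : Algebra.IsAlgebraic (adjoin K (Set.range z1)) L1 := by
    constructor
    intro t
    rw [← mem_aclo, ← map_mem_aclo_iff (L1.val.restrictScalars K)]
    have h1 : (L1.val.restrictScalars K) '' (Set.range z1) = Set.range C.z := by
      ext y
      constructor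
      · rintro ⟨_, ⟨j, rfl⟩, rfl⟩
        exact ⟨j, (hz1c j).symm⟩
      · rintro ⟨j, rfl⟩
        exact ⟨z1 j, ⟨j, rfl⟩, hz1c j⟩
    rw [h1, mem_aclo]
    exact halg.isAlgebraic _
  have hr1 : Module.finrank L L1 ≤ r := by
    have h1 := Module.finrank_mul_finrank L L1 C.L'
    have h2 : 0 < Module.finrank L1 C.L' := Module.finrank_pos
    refine le_trans ?_ C.deg_le
    rw [← h1]
    exact Nat.le_mul_of_pos_right _ h2
  have hex1 : 0 < C.X.excess (Module.finrank L L1) + ((w : ℚ) - 1) := by
    refine hex.trans_le ?_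
    have h1 : (Module.finrank L L1 : ℚ) ≤ r := by exact_mod_cast hr1
    have h2 : (0 : ℚ) ≤ C.X.E := Nat.cast_nonneg _
    unfold SparsePair.excess
    nlinarith
  refine gt_pair hw htr hz1 hgen1 halg1 hex1 ?_
  rintro P Q e hQ ⟨a, ha, hlt⟩
  by_contra hcon
  have hPB : P.ord (MvPolynomial.aeval u B) = b * pord P u :=
    le_antisymm (not_lt.1 hcon) (form_ord P hB hu hBu)
  obtain ⟨l, hl, hlo⟩ := exists_pord Q (Function.ne_iff.1 hz1.ne)
  have hF : MvPolynomial.aeval (fun j => z1 (Sum.inl j)) (C.X.F a) ≠ 0 := by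
    intro h
    apply C.ne_zero a ha
    rw [← hxx, aeval_down, h, map_zero]
  have hint : IntegralOn u B b (z1 (Sum.inl l) ^ C.X.d a /
      MvPolynomial.aeval (fun j => z1 (Sum.inl j)) (C.X.F a)) := by
    obtain ⟨p, hp, hreg, hpg⟩ := C.integral a ha l
    refine ⟨p, hp, hreg, ?_⟩
    apply (algebraMap L1 C.L').injective
    rw [map_zero, ← Polynomial.aeval_algebraMap_apply, map_div₀, map_pow, ← aeval_down]
    have h1 : algebraMap L1 C.L' (z1 (Sum.inl l)) = C.z (Sum.inl l) := hz1c _
    rw [h1, hxx]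
    exact hpg
  have h3 := integral_ord hu hB hBu hint hQ hPB
  have hl' : z1 (Sum.inl l) ^ C.X.d a ≠ 0 := pow_ne_zero _ hl
  have h4 := h3.resolve_left (div_ne_zero hl' hF)
  rw [Q.ord_div hl' hF, Q.ord_pow, hlo] at h4
  linarith

/-- All functions are algebraic over the values of a generically finite many-valued morphism. -/
theorem alg_val (C : MultiMap k u B b r)
    (halg : Algebra.IsAlgebraic (adjoin K (Set.range C.z)) C.L') (Ω : Type) [Field Ω] [Algebra K Ω]
    [Algebra L Ω] [IsScalarTower K L Ω] [IsAlgClosed Ω] (t : L) :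
    algebraMap L Ω t ∈ aclo K (C.values Ω) := by
  let ψ : C.L' →ₐ[L] Ω := IsAlgClosed.lift
  have h0 : algebraMap L C.L' t ∈ aclo K (Set.range fun j => C.z (Sum.inl j)) := by
    obtain ⟨c, -, hc⟩ := C.point.1
    have h1 := alg_coords C.X.finite C.z c hc C.point.2 halg
    rw [mem_aclo]
    have h2 := h1.isAlgebraic (algebraMap L C.L' t)
    have h3 : coords K (fun i => C.z (Sum.inl i)) ≤
        adjoin K (Set.range fun j => C.z (Sum.inl j)) := by
      unfold Pool.Agent.W602.GT.coords
      rw [adjoin_le_iff]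
      rintro _ ⟨i, j, -, rfl⟩
      exact div_mem (subset_adjoin _ _ ⟨i, rfl⟩) (subset_adjoin _ _ ⟨j, rfl⟩)
    exact Pool.Agent.TH145.MF.alg_mono (F1 := (coords K (fun i => C.z (Sum.inl i))).toSubfield)
      (F2 := (adjoin K (Set.range fun j => C.z (Sum.inl j))).toSubfield) h3 h2
  have h2 := (map_mem_aclo_iff (ψ.restrictScalars K) _ _).2 h0
  have h3 : (ψ.restrictScalars K) (algebraMap L C.L' t) = algebraMap L Ω t := ψ.commutes t
  rw [h3] at h2
  refine aclo_mono ?_ h2
  rintro _ ⟨_, ⟨i, rfl⟩, rfl⟩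
  exact ⟨ψ, i, rfl⟩

/-- **Linear degree bounds** for the varieties with a generically finite many-valued morphism to a
ramified pair. -/
theorem bound_map (hu : u ≠ 0) (hgen : coords K u = ⊤) (hB : B.IsHomogeneous b)
    (hBu : MvPolynomial.aeval u B ≠ 0) (C : MultiMap k u B b r) (hex : 0 < C.X.excess (ρ * r))
    (halg : Algebra.IsAlgebraic (adjoin K (Set.range C.z)) C.L') : CoverBound ρ u B b := by
  refine joint_bound (k := k) (r := r) (ρ := ρ) (AlgebraicClosure L) hu hgen hB hBu fun t => ?_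
  refine aclo_mono ?_ (alg_val C halg (AlgebraicClosure L) t)
  intro v hv
  exact Set.mem_iUnion.2 ⟨⟨C, hex⟩, hv⟩

end Pool.Agent.J4.H14.MV
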