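import Pool.Agent.J4.H14.MV.Ext

/-!
Coverings of curves in ramified pairs.
-/

set_option autoImplicit false
set_option linter.unusedSectionVars false
set_option linter.overlappingInstances false

open MvPolynomial FF Pool.Agent.W603.LV Pool.Agent.W603.PV Pool.Agent.W602.GT Pool.Agent.TH145.GH
  Pool.Agent.N126.RC
open Pool.Agent.Y221.AH (pht_algebraMap pht_nonneg)

namespace Pool.Agent.J4.H14.MV

section restrict

variable {k K : Type} [Field k] [Field K] [Algebra k K] {X : SparsePair k K}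

/-- the point with coordinates in a subfield -/
theorem point_down {E1 E : Type} [Field E1] [Field E] [Algebra K E1] [Algebra K E] [Algebra E1 E]
    [IsScalarTower K E1 E] {z1 : Fin (X.n + 1) ⊕ X.W → E1}
    (hz : X.Point fun v => algebraMap E1 E (z1 v)) : X.Point z1 := by
  obtain ⟨c, hcc, hc⟩ := hz.1
  have hc' : algebraMap E1 E (z1 (Sum.inl c)) = 1 := hc
  refine ⟨⟨c, hcc, (algebraMap E1 E).injective (by rw [hc', map_one])⟩, fun i => ?_⟩
  apply (algebraMap E1 E).injective
  rw [map_zero, ← MvPolynomial.aeval_algebraMap_apply]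
  exact hz.2 i

theorem aeval_down {E1 E : Type} [Field E1] [Field E] [Algebra K E1] [Algebra K E] [Algebra E1 E]
    [IsScalarTower K E1 E] {z1 : Fin (X.n + 1) ⊕ X.W → E1}
    (p : MvPolynomial (Fin (X.n + 1)) K) :
    aeval (fun j => algebraMap E1 E (z1 (Sum.inl j))) p =
      algebraMap E1 E (aeval (fun j => z1 (Sum.inl j)) p) :=
  MvPolynomial.aeval_algebraMap_apply E (fun j => z1 (Sum.inl j)) p

end restrict

variable {k K : Type} [Field k] [Field K] [Algebra k K] [IsAlgClosed K] [CharZero K]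
  (X : SparsePair k K)

/-- **Coverings of curves in ramified pairs.** -/
theorem curve_multi {F E : Type} [Field F] [Field E] [Algebra K F] [Algebra K E] [Algebra F E]
    [IsScalarTower K F E] [FiniteDimensional F E] [IsFF K F] [IsFF K E]
    (S : Finset (Place K F)) (z : Fin (X.n + 1) ⊕ X.W → E) (hz : X.Point z)
    (hnc : ∃ v, z v ∉ Set.range (algebraMap K E))
    (hS : ∀ (P : Place K F) (Q : Place K E) (e : ℕ), Over Q P e → P ∉ S → ∀ a ∈ X.boundary,
      Q.ord (aeval (fun j => z (Sum.inl j)) (X.F a)) ≤ X.d a * pord Q (fun j => z (Sum.inl j))) :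
    X.excess (Module.finrank F E) * pht K (fun j => z (Sum.inl j)) ≤
      Module.finrank F E * (canDeg K F + S.card) := by
  classical
  -- the field generated by the coordinates
  obtain ⟨E1, hE1⟩ : ∃ E1 : IntermediateField F E,
    E1 = IntermediateField.adjoin F (Set.range z) := ⟨_, rfl⟩
  have hzE : ∀ v, z v ∈ E1 := fun v => by
    rw [hE1]
    exact IntermediateField.subset_adjoin F _ ⟨v, rfl⟩
  obtain ⟨z1, hz1c⟩ : ∃ z1 : Fin (X.n + 1) ⊕ X.W → E1, ∀ v, (z1 v : E) = z v :=
    ⟨fun v => ⟨z v, hzE v⟩, fun _ => rfl⟩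
  have hst3 : IsScalarTower K E1 E := IsScalarTower.of_algebraMap_eq fun c => by
    rw [IsScalarTower.algebraMap_apply K F E, IsScalarTower.algebraMap_apply K F E1,
      ← IsScalarTower.algebraMap_apply F E1 E]
  have hff1 : IsFF K E1 := isFF_of_finite (F := F)
  have hzz : (fun v => algebraMap E1 E (z1 v)) = z := funext hz1c
  have hxx : (fun j => algebraMap E1 E (z1 (Sum.inl j))) = fun j => z (Sum.inl j) :=
    funext fun j => hz1c _
  have hz1 : X.Point z1 := point_down (E := E) (by rw [hzz]; exact hz)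
  have hx1e : ∃ j, z1 (Sum.inl j) ≠ 0 := hz1.exists_ne
  have hnc1 : ∃ v, z1 v ∉ Set.range (algebraMap K E1) := by
    obtain ⟨v, hv⟩ := hnc
    refine ⟨v, ?_⟩
    rintro ⟨c, hc⟩
    apply hv
    refine ⟨c, ?_⟩
    rw [IsScalarTower.algebraMap_apply K E1 E, hc]
    exact hz1c v
  -- the places
  obtain ⟨S', hS', hS'c⟩ := Pool.Agent.Q58.LG.card_over (L := E1) S
  have h1 := curve_one X z1 hz1 hnc1 S' (fun Q1 hQ1 a ha => by
    have hu : under F Q1 ∉ S := fun h => hQ1 (hS' Q1 h)
    obtain ⟨Q, e, hQ⟩ := exists_place_above (F := E) Q1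
    have ho : Over Q1 (under F Q1) (ram F Q1) :=
      ⟨(ram_spec (F := F) Q1).1, fun f => ord_under Q1 f⟩
    have h2 := hS _ Q _ (over_trans ho hQ) hu a ha
    rw [← hxx, aeval_down, hQ.2, pord_over hQ hx1e] at h2
    have h3 : (0 : ℤ) < e := by exact_mod_cast hQ.1
    have h4 : (e : ℤ) * Q1.ord (aeval (fun j => z1 (Sum.inl j)) (X.F a)) ≤
        e * (X.d a * pord Q1 fun j => z1 (Sum.inl j)) := by
      linarith
    exact le_of_mul_le_mul_left h4 h3)
  -- the discriminant
  have hgen1 : IntermediateField.adjoin F (Set.range z1) = ⊤ := by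
    subst hE1
    apply IntermediateField.lift_injective
    rw [IntermediateField.lift_adjoin, IntermediateField.lift_top]
    congr 1
    ext y
    constructor
    · rintro ⟨_, ⟨j, rfl⟩, rfl⟩
      exact ⟨j, (hz1c j).symm⟩
    · rintro ⟨j, rfl⟩
      exact ⟨z1 j, ⟨j, rfl⟩, hz1c j⟩
  obtain ⟨c, hcc, hc⟩ := hz1.1
  have hl0 : X.ext z1 (X.idx.symm (Sum.inl (Sum.inl c))) = 1 := by
    rw [X.ext_inl]
    exact hc
  have hdisc := Pool.Agent.Y735.R.disc_le_pht (k := K) (F := F) (X.ext z1) hl0
    (by rw [X.adjoin_ext]; exact hgen1)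
  rw [hz1.pht_ext] at hdisc
  have hrh := Pool.Agent.Q58.LG.canDeg_ext (k := K) (F := F) (L := E1)
  -- the numbers
  have ht3 : pht K (fun j => z (Sum.inl j)) = Module.finrank E1 E *
      pht K (fun j => z1 (Sum.inl j)) := by
    rw [← pht_algebraMap hx1e, hxx]
  have hp0 : 0 ≤ pht K (fun j => z1 (Sum.inl j)) := pht_nonneg hx1e
  have hrr := Module.finrank_mul_finrank F E1 E
  have hr0 : 0 < Module.finrank F E1 := Module.finrank_pos
  have hr2 : 0 < Module.finrank E1 E := Module.finrank_pos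
  have hr1 : Module.finrank F E1 ≤ Module.finrank F E := by
    rw [← hrr]
    exact Nat.le_mul_of_pos_right _ hr2
  rw [hrh] at h1
  have hE0 : (0 : ℚ) ≤ X.E := Nat.cast_nonneg _
  have h2 : ((Pool.Agent.W603.PV.disc K F E1 : ℤ) : ℚ) ≤ (2 * (Module.finrank F E1 : ℚ) - 2) *
      (X.E * pht K (fun j => z1 (Sum.inl j))) := by exact_mod_cast hdisc
  have h3 : ((S'.card : ℤ) : ℚ) ≤ Module.finrank F E1 * S.card := by exact_mod_cast hS'c
  have hp0' : (0 : ℚ) ≤ pht K (fun j => z1 (Sum.inl j)) := by exact_mod_cast hp0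
  push_cast at h1 h3
  have h4 : X.excess (Module.finrank F E1) * pht K (fun j => z1 (Sum.inl j)) ≤
      Module.finrank F E1 * (canDeg K F + S.card) := by
    unfold SparsePair.excess
    nlinarith
  have h5 : X.excess (Module.finrank F E) ≤ X.excess (Module.finrank F E1) := by
    unfold SparsePair.excess
    have h6 : (Module.finrank F E1 : ℚ) ≤ Module.finrank F E := by exact_mod_cast hr1
    nlinarith
  have h6 : X.excess (Module.finrank F E) * pht K (fun j => z1 (Sum.inl j)) ≤
      Module.finrank F E1 * (canDeg K F + S.card) :=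
    (mul_le_mul_of_nonneg_right h5 hp0').trans h4
  have h7 := mul_le_mul_of_nonneg_left h6 (Nat.cast_nonneg (α := ℚ) (Module.finrank E1 E))
  have h8 : (Module.finrank F E : ℚ) = Module.finrank F E1 * Module.finrank E1 E := by
    exact_mod_cast hrr.symm
  rw [ht3]
  push_cast
  rw [h8]
  linarith

end Pool.Agent.J4.H14.MV
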