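import Pool.Agent.J4.H14.MV.Plc

/-!
Norms of twisted pluricanonical forms.
-/

set_option autoImplicit false
set_option linter.unusedSectionVars false
set_option linter.overlappingInstances false

open Polynomial Module FF Pool.Agent.W602.GT Pool.Agent.W603.LV Pool.Agent.W619.PQ
  Pool.Agent.Y172 Pool.Agent.N111.GI

namespace Pool.Agent.J4.H14.MV

section loc

variable {k K F : Type} [Field k] [CharZero k] [IsAlgClosed k] [Field K] [Field F] [Algebra k K]
  [Algebra k F] [Algebra K F] [IsScalarTower k K F] [FiniteDimensional K F]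

/-- The local estimate for the norms. -/
theorem norm_loc (q : Place k K) {M : ℕ} {y : Fin M → F} {j0 : Fin M} (hj0 : y j0 = 1)
    {c : Fin M → k} {θ : F} (hθ : θ = ∑ i, algebraMap k F (c i) * y i)
    (hgen : Algebra.adjoin K {θ} = ⊤) {N t : ℕ} (ht : t = 2 * (N * (finrank K F - 1)) + 1) {g : F}
    (hg : ∀ (w : Place k F) (e : ℕ), Over w q e → ∀ f : Fin t → Fin M,
      Ge w (N * (1 - e)) ((∏ i, y (f i)) * g)) {p : F}
    (hp : ∃ b : Fin M → k, p = ∑ i, algebraMap k F (b i) * y i) :
    Ge q 0 (Algebra.norm K (p * aeval θ (derivative (minpoly K θ)) ^ N * g)) := by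
  classical
  have hcK : CharZero K := charZero_of_injective_algebraMap (algebraMap k K).injective
  have hinf : Infinite k := IsAlgClosed.instInfinite
  obtain ⟨S, T, hS, -, -⟩ := exists_places_over (K' := F) q
  obtain ⟨b, hb0, hb⟩ := exists_comb_places S y (j0 := j0) (by rw [hj0]; exact one_ne_zero)
  obtain ⟨l, hl⟩ : ∃ l, l = ∑ i, algebraMap k F (b i) * y i := ⟨_, rfl⟩
  rw [← hl] at hb0 hb
  have hcomb : ∀ (w : Place k F) (e : ℕ), Over w q e → ∀ b' : Fin M → k,
      Ge w (w.ord l) (∑ i, algebraMap k F (b' i) * y i) := by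
    intro w e hw b'
    refine Ge.sum _ _ fun i _ => ?_
    have h1 := (Ge.const (P := w) (b' i)).mul (hb w (hS w e hw) i)
    rwa [zero_add] at h1
  have hdiv : ∀ (w : Place k F) {z : F}, Ge w (w.ord l) z → Ge w 0 (z / l) := by
    intro w z hz
    rcases hz with h | h
    · left
      rw [h, zero_div]
    · by_cases h0 : z = 0
      · left
        rw [h0, zero_div]
      · right
        rw [w.ord_div h0 hb0]
        omega
  have hbl : l⁻¹ ≠ 0 := inv_ne_zero hb0
  have hθl : θ / l / l⁻¹ = θ := by
    field_simp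
  have hD := diff_ge q (a := θ / l) (b := l⁻¹) hbl (by rw [hθl]; exact hgen)
    (fun w e hw => hdiv w (by rw [hθ]; exact hcomb w e hw c))
    (fun w e hw => by
      rw [← one_div]
      refine hdiv w ?_
      rw [← hj0]
      exact hb w (hS w e hw) j0)
  rw [hθl] at hD
  obtain ⟨D, hDd⟩ : ∃ D, D = aeval θ (derivative (minpoly K θ)) *
      (algebraMap K F (Algebra.norm K l⁻¹) / l⁻¹) * (l⁻¹ ^ finrank K F / l⁻¹) := ⟨_, rfl⟩
  rw [← hDd] at hD
  obtain ⟨G, hG⟩ : ∃ G, G = l ^ t * g * D ^ N * (p / l) := ⟨_, rfl⟩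
  have hGreg : Ge q 0 (Algebra.norm K G) := by
    refine norm_reg q fun w e hw => ?_
    have h1 : Ge w (N * (1 - e)) (l ^ t * g) := by
      have h2 : l ^ t * g = ∑ f : Fin t → Fin M, (∏ i, algebraMap k F (b (f i))) *
          ((∏ i, y (f i)) * g) := by
        rw [hl, Fintype.sum_pow, Finset.sum_mul]
        refine Finset.sum_congr rfl fun f _ => ?_
        rw [Finset.prod_mul_distrib, mul_assoc]
      rw [h2]
      refine Ge.sum _ _ fun f _ => ?_
      rw [← map_prod]
      have h3 := (Ge.const (P := w) (∏ i, b (f i))).mul (hg w e hw f)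
      rwa [zero_add] at h3
    have h2 : Ge w (N * (e - 1)) (D ^ N) := (hD w e hw).pow N
    have h3 : Ge w 0 (p / l) := by
      obtain ⟨b', hb'⟩ := hp
      refine hdiv w ?_
      rw [hb']
      exact hcomb w e hw b'
    rw [hG]
    have h4 := (h1.mul h2).mul h3
    have h5 : (N : ℤ) * (1 - e) + N * (e - 1) + 0 = 0 := by ring
    rwa [h5] at h4
  -- the norm
  obtain ⟨m, hm⟩ : ∃ m, finrank K F = m + 1 := ⟨finrank K F - 1, by
    have : 0 < finrank K F := finrank_pos
    omega⟩
  obtain ⟨ν, hν⟩ : ∃ ν, ν = Algebra.norm K l := ⟨_, rfl⟩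
  have hν0 : ν ≠ 0 := by
    rw [hν]
    exact Algebra.norm_ne_zero_iff.2 hb0
  have hNinv : Algebra.norm K l⁻¹ = ν⁻¹ := by
    have h1 : Algebra.norm K l⁻¹ * Algebra.norm K l = 1 := by
      rw [← map_mul, inv_mul_cancel₀ hb0, map_one]
    rw [hν]
    exact eq_inv_of_mul_eq_one_left h1
  have hND : Algebra.norm K D = Algebra.norm K (aeval θ (derivative (minpoly K θ))) *
      (ν⁻¹) ^ m * (ν⁻¹) ^ m := by
    have h1 : D = aeval θ (derivative (minpoly K θ)) * algebraMap K F (ν⁻¹) * l * l⁻¹ ^ m := by
      rw [hDd, hNinv, hm, pow_succ]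
      field_simp
    rw [h1, map_mul, map_mul, map_mul, Algebra.norm_algebraMap, map_pow, hNinv, ← hν, hm, pow_succ]
    field_simp
  have hNG : Algebra.norm K G =
      Algebra.norm K (p * aeval θ (derivative (minpoly K θ)) ^ N * g) := by
    have h1 : G = l ^ t * g * D ^ N * p * l⁻¹ := by
      rw [hG]
      field_simp
    rw [h1, map_mul, map_mul, map_mul, map_mul, map_pow, map_pow, hND, hNinv, map_mul, map_mul,
      map_pow, ← hν, mul_pow, mul_pow, ← pow_mul]
    have h2 : t = m * N + m * N + 1 := by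
      rw [ht, hm, Nat.add_sub_cancel]
      ring
    rw [h2, pow_add, pow_add, pow_one, inv_pow]
    field_simp
  rw [← hNG]
  exact hGreg

end loc

section form

variable {k K : Type} [Field k] [Field K] [Algebra k K] {n : ℕ}

/-- the pluricanonical form of weight `m` with the coefficient `t` in the coordinates `y` -/
noncomputable def plForm (y : Fin n → K) (m : ℕ) (t : K) (D : Fin n → Derivation k K K) : K :=
  (Matrix.of fun i j => D i (y j) : Matrix (Fin n) (Fin n) K).det ^ m * t

theorem plForm_pluri (y : Fin n → K) (m : ℕ) (t : K) : IsPluri m (plForm (k := k) y m t) := by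
  intro A D
  have e1 : (Matrix.of fun a b => (∑ j, A a j • D j) (y b)) =
      A * Matrix.of fun a b => D a (y b) := by
    ext a b
    rw [Matrix.of_apply, Matrix.mul_apply, sum_smul_apply]
    rfl
  change (Matrix.of fun a b => (∑ j, A a j • D j) (y b)).det ^ m * _ = _
  rw [e1, Matrix.det_mul, mul_pow, mul_assoc]
  rfl

end form

section val

variable {k K L : Type} [Field k] [CharZero k] [IsAlgClosed k] [Field K] [Field L] [Algebra k K]
  [Algebra k L] [Algebra K L] [IsScalarTower k K L] [FiniteDimensional K L]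
  [Algebra.EssFiniteType k K] [Algebra.EssFiniteType k L] {n : ℕ}

/-- the norm in the coordinates of a place -/
theorem norm_val {y : Fin n → K} {E : Fin n → Derivation k K K}
    (hy : IsTranscendenceBasis k y) (hE : ∀ i j, E i (y j) = if i = j then 1 else 0)
    {E' : Fin n → Derivation k L L}
    (hE' : ∀ i f, E' i (algebraMap K L f) = algebraMap K L (E i f))
    {yP : Fin n → K} {EP : Fin n → Derivation k K K} (hyP : IsTranscendenceBasis k yP)
    (hEP : ∀ i j, EP i (yP j) = if i = j then 1 else 0) {EP' : Fin n → Derivation k L L}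
    (hEP' : ∀ i f, EP' i (algebraMap K L f) = algebraMap K L (EP i f)) {N : ℕ}
    {W : (Fin n → Derivation k L L) → L} (hW : IsPluri N W) (p : L)
    (G : Fin n → Derivation k K K) :
    plForm y (N * finrank K L) (Algebra.norm K (p * W E')) G =
      (Matrix.of fun i j => G i (yP j) : Matrix (Fin n) (Fin n) K).det ^ (N * finrank K L) *
        Algebra.norm K (p * W EP') := by
  classical
  obtain ⟨B, hB⟩ : ∃ B : Matrix (Fin n) (Fin n) K, B = Matrix.of fun i j => E i (yP j) :=
    ⟨_, rfl⟩
  have hC : (Matrix.of fun i j => G i (yP j) : Matrix (Fin n) (Fin n) K).det =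
      (Matrix.of fun i j => G i (y j) : Matrix (Fin n) (Fin n) K).det * B.det := by
    rw [← Matrix.det_mul]
    congr 1
    ext i j
    rw [Matrix.of_apply, Matrix.mul_apply, hB]
    have h1 := Pool.Agent.W73.PG.PULL.expand y hy E hE (G i)
    conv_lhs => rw [← h1]
    rw [sum_smul_apply]
    rfl
  have hWB : W E' = algebraMap K L B.det ^ N * W EP' := by
    have h1 := pluri_coord (hyP.algebraMap_comp (A := L)) (lift_dual hEP hEP') hW E'
    rw [h1]
    congr 2
    rw [hB, RingHom.map_det]
    congr 1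
    ext i j
    rw [Matrix.of_apply, RingHom.mapMatrix_apply, Matrix.map_apply, Matrix.of_apply]
    exact hE' i (yP j)
  have h2 : p * W E' = algebraMap K L (B.det ^ N) * (p * W EP') := by
    rw [hWB, map_pow]
    ring
  rw [plForm, hC, h2, map_mul, Algebra.norm_algebraMap, mul_pow, ← pow_mul]
  ring

end val

end Pool.Agent.J4.H14.MV
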