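import Pool.Agent.J4.H14.MV.Diff

/-!
The orders of the homogeneous version of the different; norms.
-/

set_option autoImplicit false
set_option linter.unusedSectionVars false
set_option linter.overlappingInstances false

open Polynomial Module FF Pool.Agent.W602.GT Pool.Agent.W603.LV Pool.Agent.W619.PQ
  Pool.Agent.Y172

namespace Pool.Agent.J4.H14.MV

section place

variable {k K F : Type} [Field k] [CharZero k] [Field K] [Field F] [Algebra k K] [Algebra k F]
  [Algebra K F] [IsScalarTower k K F] [FiniteDimensional K F]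

theorem near_ord {w : Place k F} {a b : F} (ha : a ≠ 0) (h0 : w.ord a ≤ 0)
    (h : Ge w 1 (b - a)) : b ≠ 0 ∧ w.ord b = w.ord a := by
  rcases h with h | h
  · have h1 : b = a := sub_eq_zero.1 h
    exact ⟨h1 ▸ ha, by rw [h1]⟩
  · have hne : b - a ≠ 0 := by
      intro h'
      rw [h', w.ord_zero] at h
      omega
    have h1 := w.ord_add_eq ha hne (by omega)
    have h2 : a + (b - a) = b := by ring
    rw [h2] at h1
    exact h1

/-- an element of order `1 - e` at all the places over `q` -/
theorem exists_inv_diff (q : Place k K) : ∃ y : F, ∀ (w : Place k F) (e : ℕ), Over w q e →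
    y ≠ 0 ∧ w.ord y = 1 - e := by
  classical
  obtain ⟨S, T, hS, -, -⟩ := exists_places_over (K' := F) q
  have h1 : ∀ w : Place k F, ∃ a : F, a ≠ 0 ∧ ∀ e, Over w q e → w.ord a = 1 - e := by
    intro w
    by_cases h : ∃ e, Over w q e
    · obtain ⟨e, he⟩ := h
      obtain ⟨π, hπ0, hπ⟩ := w.surj
      refine ⟨π ^ (1 - e : ℤ), zpow_ne_zero _ hπ0, fun e' he' => ?_⟩
      have h2 : e = e' := (Pool.Agent.Y172.over_unique' he he').2
      rw [w.ord_zpow, hπ, mul_one, h2]
    · exact ⟨1, one_ne_zero, fun e he => absurd ⟨e, he⟩ h⟩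
  choose a ha0 ha using h1
  choose b hb1 hb2 using fun w : Place k F =>
    approx_one (S.erase w) w (Finset.notMem_erase w S) (a w) 1
  refine ⟨∑ w ∈ S, b w, fun w e hw => ?_⟩
  have hwS := hS w e hw
  have h2 : Ge w 1 (∑ x ∈ S, b x - a w) := by
    rw [← Finset.add_sum_erase _ _ hwS]
    have e1 : b w + ∑ x ∈ S.erase w, b x - a w = (b w - a w) + ∑ x ∈ S.erase w, b x := by ring
    rw [e1]
    refine (hb1 w).add (Ge.sum _ _ fun x hx => ?_)
    obtain ⟨hx1, hx2⟩ := Finset.mem_erase.1 hx
    exact hb2 x w (Finset.mem_erase.2 ⟨hx1.symm, hwS⟩)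
  have h3 := ha w e hw
  have h4 : (0 : ℤ) < e := by exact_mod_cast hw.1
  obtain ⟨h5, h6⟩ := near_ord (ha0 w) (by omega) h2
  exact ⟨h5, by rw [h6, h3]⟩

/-- **The homogeneous version of the different.** -/
theorem diff_ge (q : Place k K) {a b : F} (hb0 : b ≠ 0) (hθ : Algebra.adjoin K {a / b} = ⊤)
    (ha : ∀ (w : Place k F) (e : ℕ), Over w q e → Ge w 0 a)
    (hb : ∀ (w : Place k F) (e : ℕ), Over w q e → Ge w 0 b) (w : Place k F) (e : ℕ)
    (hw : Over w q e) :
    Ge w (e - 1) (aeval (a / b) (derivative (minpoly K (a / b))) *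
      (algebraMap K F (Algebra.norm K b) / b) * (b ^ finrank K F / b)) := by
  classical
  have hcK : CharZero K := charZero_of_injective_algebraMap (algebraMap k K).injective
  let iA : Algebra q.O F := algO q
  have hst : IsScalarTower q.O K F := IsScalarTower.of_algebraMap_eq fun _ => rfl
  obtain ⟨y, hy⟩ := exists_inv_diff (F := F) q
  have hai : IsIntegral q.O a := isIntegral_of_reg q a ha
  have hbi : IsIntegral q.O b := isIntegral_of_reg q b hb
  obtain ⟨D, hD⟩ : ∃ D, D = aeval (a / b) (derivative (minpoly K (a / b))) *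
      (algebraMap K F (Algebra.norm K b) / b) * (b ^ finrank K F / b) := ⟨_, rfl⟩
  rw [← hD]
  -- regularity of integral elements
  have hreg : ∀ {z : F}, IsIntegral q.O z → ∀ (w : Place k F) (e : ℕ), Over w q e → Ge w 0 z := by
    intro z hz w e hw
    exact w.reg_of_isIntegral (A := q.O) (fun c => by
      change w.Reg (algebraMap K F (c : K))
      rcases c.2 with h | h
      · left
        rw [h, map_zero]
      · right
        rw [hw.2]
        exact mul_nonneg (Int.natCast_nonneg _) h) hz
  obtain ⟨c, hc⟩ : ∃ c : ℕ → F, ∀ i, c i = algebraMap K F (Algebra.norm K b) / b *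
    (minpolyDiv K (a / b)).coeff i := ⟨_, fun _ => rfl⟩
  have hci : ∀ i, IsIntegral q.O (c i) := fun i => by
    rw [hc]
    exact coeff_integral hb0 hθ hai hbi i
  have hNb : Algebra.norm K b ≠ 0 := Algebra.norm_ne_zero_iff.2 hb0
  have hNb' : algebraMap K F (Algebra.norm K b) ≠ 0 := by rwa [Ne, map_eq_zero]
  -- the formula
  have hkey : y * D = ∑ i ∈ Finset.range (finrank K F),
      algebraMap K F (Algebra.trace K F (y * c i)) * (a ^ i * b ^ (finrank K F - 1 - i)) := by
    have h1 := euler hθ (y / b)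
    have h2 : ∀ i, Algebra.trace K F (y / b * (minpolyDiv K (a / b)).coeff i) =
        (Algebra.norm K b)⁻¹ * Algebra.trace K F (y * c i) := by
      intro i
      rw [hc]
      have h3 : y / b * (minpolyDiv K (a / b)).coeff i = (Algebra.norm K b)⁻¹ •
          (y * (algebraMap K F (Algebra.norm K b) / b * (minpolyDiv K (a / b)).coeff i)) := by
        rw [Algebra.smul_def, map_inv₀]
        field_simp
      rw [h3, map_smul, smul_eq_mul]
    have hpos : 0 < finrank K F := finrank_pos
    have h4 : y * D = b ^ (finrank K F - 1) * algebraMap K F (Algebra.norm K b) *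
        (y / b * aeval (a / b) (derivative (minpoly K (a / b)))) := by
      rw [hD]
      obtain ⟨m, hm⟩ : ∃ m, finrank K F = m + 1 := ⟨finrank K F - 1, by omega⟩
      rw [hm, Nat.add_sub_cancel, pow_succ]
      field_simp
    rw [h4, h1, Finset.mul_sum]
    refine Finset.sum_congr rfl fun i hi => ?_
    have hi' := Finset.mem_range.1 hi
    rw [h2, map_mul, map_inv₀]
    have h5 : b ^ (finrank K F - 1) = b ^ (finrank K F - 1 - i) * b ^ i := by
      rw [← pow_add]
      congr 1
      omega
    rw [h5, div_pow]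
    field_simp
  have h1 : Ge w 0 (y * D) := by
    rw [hkey]
    refine Ge.sum _ _ fun i _ => ?_
    have h2 : Ge q 0 (Algebra.trace K F (y * c i)) := by
      refine Pool.Agent.Y692.NT.trace_reg q _ fun w' e' hw' => ?_
      have h3 := hreg (hci i) w' e' hw'
      have h4 : Ge w' (1 - e') y := Or.inr (hy w' e' hw').2.ge
      have h5 := h4.mul h3
      rwa [add_zero] at h5
    have h3 : Ge w 0 (algebraMap K F (Algebra.trace K F (y * c i))) := by
      rcases h2 with h | h
      · left
        rw [h, map_zero]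
      · right
        rw [hw.2]
        exact mul_nonneg (Int.natCast_nonneg _) h
    have h4 := h3.mul (((ha w e hw).pow i).mul ((hb w e hw).pow (finrank K F - 1 - i)))
    simpa using h4
  obtain ⟨hy0, hyo⟩ := hy w e hw
  have h2 := Ge.of_mul hy0 h1
  rw [hyo] at h2
  exact h2.mono (by omega)

/-- norms of integral elements -/
theorem norm_reg (q : Place k K) {z : F}
    (hz : ∀ (w : Place k F) (e : ℕ), Over w q e → Ge w 0 z) : Ge q 0 (Algebra.norm K z) := by
  let iA : Algebra q.O F := algO q
  have hst : IsScalarTower q.O K F := IsScalarTower.of_algebraMap_eq fun _ => rfl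
  have hcK : CharZero K := charZero_of_injective_algebraMap (algebraMap k K).injective
  have h1 : IsIntegral q.O z := isIntegral_of_reg q z hz
  have h6 := Algebra.isIntegral_norm K h1
  obtain ⟨x, hx⟩ := (IsIntegrallyClosed.isIntegral_iff (R := q.O) (K := K)).1 h6
  rw [← hx]
  exact x.2

end place

section comb

variable {k F : Type} [Field k] [Infinite k] [Field F] [Algebra k F]

/-- general combinations have minimal order at a place -/
theorem comb_place (w : Place k F) {N : ℕ} (y : Fin N → F) {m : ℤ} {j : Fin N}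
    (hj : ¬ Ge w (m + 1) (y j)) :
    {t : k | Ge w (m + 1) (∑ i : Fin N, algebraMap k F (t ^ (i : ℕ)) * y i)}.Finite := by
  classical
  by_contra hinf
  obtain ⟨s, hs, hcard⟩ := Set.Infinite.exists_subset_card_eq hinf N
  obtain ⟨v, hv⟩ : ∃ v : Fin N ≃ s, True := ⟨(Fintype.equivFinOfCardEq (by
    rw [Fintype.card_coe, hcard])).symm, trivial⟩
  obtain ⟨V, hV⟩ : ∃ V : Matrix (Fin N) (Fin N) k, V = Matrix.vandermonde fun i => (v i : k) :=
    ⟨_, rfl⟩
  have hdet : V.det ≠ 0 := by
    rw [hV, Matrix.det_vandermonde_ne_zero_iff]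
    intro a b hab
    exact v.injective (Subtype.ext hab)
  have hinv : V⁻¹ * V = 1 := Matrix.nonsing_inv_mul V (isUnit_iff_ne_zero.2 hdet)
  apply hj
  have h1 : y j = ∑ i, algebraMap k F (V⁻¹ j i) *
      ∑ l : Fin N, algebraMap k F ((v i : k) ^ (l : ℕ)) * y l := by
    have h2 : ∀ l, ∑ i, V⁻¹ j i * V i l = if j = l then 1 else 0 := by
      intro l
      have h3 := congrFun (congrFun hinv j) l
      rw [Matrix.mul_apply, Matrix.one_apply] at h3
      exact h3
    simp only [Finset.mul_sum]
    rw [Finset.sum_comm]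
    have h4 : ∀ l : Fin N, ∑ i, algebraMap k F (V⁻¹ j i) * (algebraMap k F ((v i : k) ^ (l : ℕ)) * y l) =
        (if j = l then 1 else 0) * y l := by
      intro l
      have h5 : ∀ i, algebraMap k F (V⁻¹ j i) * (algebraMap k F ((v i : k) ^ (l : ℕ)) * y l) =
          algebraMap k F (V⁻¹ j i * V i l) * y l := by
        intro i
        rw [hV, Matrix.vandermonde_apply, ← hV, map_mul]
        ring
      rw [Finset.sum_congr rfl fun i _ => h5 i, ← Finset.sum_mul, ← map_sum, h2]
      split_ifs <;> simp
    rw [Finset.sum_congr rfl fun l _ => h4 l]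
    simp
  rw [h1]
  refine Ge.sum _ _ fun i _ => ?_
  have h3 : Ge w (m + 1) (∑ l : Fin N, algebraMap k F ((v i : k) ^ (l : ℕ)) * y l) :=
    hs (v i).2
  have h4 := (Ge.const (P := w) (V⁻¹ j i)).mul h3
  rwa [zero_add] at h4

/-- a combination of minimal order at finitely many places -/
theorem exists_comb_places (S : Finset (Place k F)) {N : ℕ} (y : Fin N → F) {j0 : Fin N}
    (hj0 : y j0 ≠ 0) : ∃ c : Fin N → k, (∑ i, algebraMap k F (c i) * y i) ≠ 0 ∧
      ∀ w ∈ S, ∀ i, Ge w (w.ord (∑ i, algebraMap k F (c i) * y i)) (y i) := by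
  classical
  -- the minimal orders
  have h1 : ∀ w : Place k F, ∃ j, y j ≠ 0 ∧ ∀ i, Ge w (w.ord (y j)) (y i) := by
    intro w
    obtain ⟨j, hj, hm⟩ := Finset.exists_min_image (Finset.univ.filter fun i => y i ≠ 0)
      (fun i => w.ord (y i)) ⟨j0, by simp [hj0]⟩
    refine ⟨j, (Finset.mem_filter.1 hj).2, fun i => ?_⟩
    by_cases hi : y i = 0
    · exact Or.inl hi
    · exact Or.inr (hm i (by simp [hi]))
  choose J hJ0 hJ using h1
  have hfin : (⋃ w ∈ S, {t : k | Ge w (w.ord (y (J w)) + 1)
      (∑ i : Fin N, algebraMap k F (t ^ (i : ℕ)) * y i)}).Finite := by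
    refine Set.Finite.biUnion (Finset.finite_toSet _) fun w _ => ?_
    refine comb_place w y (j := J w) ?_
    rintro (h | h)
    · exact hJ0 w h
    · omega
  -- the combination does not vanish
  have hfin2 : {t : k | (∑ i : Fin N, algebraMap k F (t ^ (i : ℕ)) * y i) = 0}.Finite := by
    obtain ⟨p, hp⟩ : ∃ p : Polynomial F, p = ∑ i : Fin N, Polynomial.C (y i) *
      Polynomial.X ^ (i : ℕ) := ⟨_, rfl⟩
    have hp0 : p ≠ 0 := by
      intro h0
      have h2 := congrArg (fun f => Polynomial.coeff f (j0 : ℕ)) h0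
      simp only [hp, Polynomial.finsetSum_coeff, Polynomial.coeff_C_mul, Polynomial.coeff_X_pow,
        Polynomial.coeff_zero] at h2
      rw [Finset.sum_eq_single j0] at h2
      · simp at h2
        exact hj0 h2
      · intro i _ hij
        rw [if_neg, mul_zero]
        intro h
        exact hij (Fin.ext h.symm)
      · intro h
        exact absurd (Finset.mem_univ j0) h
    have h3 : ((fun t : k => algebraMap k F t) ⁻¹' {a | p.IsRoot a}).Finite :=
      Set.Finite.preimage ((algebraMap k F).injective.injOn)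
        (Polynomial.finite_setOfPred_isRoot hp0)
    refine h3.subset fun t ht => ?_
    change p.eval (algebraMap k F t) = 0
    rw [hp, Polynomial.eval_finsetSum]
    have ht' : (∑ i : Fin N, algebraMap k F (t ^ (i : ℕ)) * y i) = 0 := ht
    rw [← ht']
    refine Finset.sum_congr rfl fun i _ => ?_
    rw [Polynomial.eval_mul, Polynomial.eval_C, Polynomial.eval_pow, Polynomial.eval_X, map_pow]
    ring
  obtain ⟨t, ht⟩ := (hfin.union hfin2).infinite_compl.nonempty
  rw [Set.mem_compl_iff, Set.mem_union, not_or] at ht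
  obtain ⟨ht1, ht2⟩ := ht
  refine ⟨fun i => t ^ (i : ℕ), ht2, fun w hw i => ?_⟩
  change Ge w (w.ord (∑ i : Fin N, algebraMap k F (t ^ (i : ℕ)) * y i)) (y i)
  refine (hJ w i).mono ?_
  by_contra hlt
  apply ht1
  rw [Set.mem_iUnion₂]
  exact ⟨w, hw, Or.inr (by omega)⟩

end comb

end Pool.Agent.J4.H14.MV
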