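import Pool.Agent.J4.H14.MV.Multi

/-!
Specializations of integral functions.
-/

set_option autoImplicit false
set_option linter.unusedSectionVars false
set_option linter.overlappingInstances false

open FF Pool.Agent.W603.LV Pool.Agent.W603.PV Pool.Agent.J4.H14.RP Pool.Agent.TH466.QG
  Pool.Agent.N111.GI

namespace Pool.Agent.J4.H14.MV

section

variable {K L M' E K'' : Type} [Field K] [IsAlgClosed K] [CharZero K] [Field L] [Field M'] [Field E] [Field K'']
  [Algebra K L] [Algebra K M'] [Algebra L M'] [IsScalarTower K L M'] [Algebra K E]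
  [Algebra K K''] [Algebra E K''] [IsScalarTower K E K''] {N : ℕ} {u : Fin (N + 1) → L}
  {B : MvPolynomial (Fin (N + 1)) K} {b : ℕ}

/-- The specializations of regular functions. -/
theorem regular_spec (hB : B.IsHomogeneous b) {i1 : Fin (N + 1)} (hi1 : u i1 ≠ 0)
    (hBu : MvPolynomial.aeval u B ≠ 0) (S : Sp K M' K'') {f : Fin (N + 1) → E} (hf1 : f i1 ≠ 0)
    (hfS : ∀ i, S.T (algebraMap L M' (u i / u i1)) (algebraMap E K'' (f i / f i1)))
    (hinv : ∃ z, S.T (algebraMap L M' (MvPolynomial.aeval (fun i => u i / u i1) B))⁻¹ z)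
    (hB' : MvPolynomial.aeval f B ≠ 0) {c : L} (hc : RegularOn u B b c) :
    ∃ c' : E, S.T (algebraMap L M' c) (algebraMap E K'' c') ∧ ∀ Q : Place K E,
      Q.ord (MvPolynomial.aeval f B) = b * pord Q f → Ge Q 0 c' := by
  obtain ⟨r, P, hP, hreg⟩ := hc
  have hf0 : f ≠ 0 := fun h => hf1 (congrFun h i1)
  have hpoly : ∀ G : MvPolynomial (Fin (N + 1)) K,
      S.T (algebraMap L M' (MvPolynomial.aeval (fun i => u i / u i1) G))
        (algebraMap E K'' (MvPolynomial.aeval (fun i => f i / f i1) G)) := by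
    intro G
    have h1 := sp_val S hfS G
    have e1 : MvPolynomial.aeval (fun i => algebraMap L M' (u i / u i1)) G =
        algebraMap L M' (MvPolynomial.aeval (fun i => u i / u i1) G) :=
      MvPolynomial.aeval_algebraMap_apply M' _ G
    have e2 : MvPolynomial.aeval (fun i => algebraMap E K'' (f i / f i1)) G =
        algebraMap E K'' (MvPolynomial.aeval (fun i => f i / f i1) G) :=
      MvPolynomial.aeval_algebraMap_apply K'' _ G
    rw [e1, e2] at h1
    exact h1
  have hBu' : MvPolynomial.aeval (fun i => u i / u i1) B ≠ 0 := by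
    intro h
    apply hBu
    rw [aeval_div' hB hi1, h, mul_zero]
  have hBf' : MvPolynomial.aeval (fun i => f i / f i1) B ≠ 0 := by
    intro h
    apply hB'
    rw [aeval_div' hB hf1, h, mul_zero]
  have h1 : c = MvPolynomial.aeval (fun i => u i / u i1) P *
      (MvPolynomial.aeval (fun i => u i / u i1) B)⁻¹ ^ r := by
    rw [aeval_div' hB hi1, aeval_div' hP hi1, mul_pow, ← pow_mul, mul_comm b r] at hreg
    have h2 : u i1 ^ (r * b) ≠ 0 := pow_ne_zero _ hi1
    have h3 : (MvPolynomial.aeval (fun i => u i / u i1) B) ^ r ≠ 0 := pow_ne_zero _ hBu'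
    rw [inv_pow, ← div_eq_mul_inv, eq_div_iff h3]
    apply mul_left_cancel₀ h2
    linear_combination hreg
  refine ⟨MvPolynomial.aeval (fun i => f i / f i1) P *
      (MvPolynomial.aeval (fun i => f i / f i1) B)⁻¹ ^ r, ?_, fun Q hQ => ?_⟩
  · rw [h1, map_mul, map_mul, map_pow, map_pow, map_inv₀, map_inv₀]
    exact S.mul (hpoly P) (S.pow (S.inv (hpoly B) hinv ((_root_.map_ne_zero _).2 hBu')) r)
  · by_cases hP0 : MvPolynomial.aeval f P = 0
    · left
      have h2 : MvPolynomial.aeval (fun i => f i / f i1) P = 0 := by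
        rw [aeval_div' hP hf1] at hP0
        exact (mul_eq_zero.1 hP0).resolve_left (pow_ne_zero _ hf1)
      rw [h2, zero_mul]
    · have h2 : MvPolynomial.aeval (fun i => f i / f i1) P *
          (MvPolynomial.aeval (fun i => f i / f i1) B)⁻¹ ^ r =
          MvPolynomial.aeval f P / MvPolynomial.aeval f B ^ r := by
        have e1 : MvPolynomial.aeval f P = f i1 ^ (r * b) *
          MvPolynomial.aeval (fun i => f i / f i1) P := aeval_div' hP hf1
        have e2 : MvPolynomial.aeval f B = f i1 ^ b *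
          MvPolynomial.aeval (fun i => f i / f i1) B := aeval_div' hB hf1
        rw [e1, e2, mul_pow, ← pow_mul, mul_comm b r,
          mul_div_mul_left _ _ (pow_ne_zero _ hf1), inv_pow, div_eq_mul_inv]
      rw [h2]
      right
      rw [Q.ord_div hP0 (pow_ne_zero _ hB'), Q.ord_pow, hQ]
      have h3 := form_ord Q hP hf0 hP0
      push_cast at h3
      linarith

/-- The specializations of integral functions. -/
theorem integral_spec (hB : B.IsHomogeneous b) {i1 : Fin (N + 1)} (hi1 : u i1 ≠ 0)
    (hBu : MvPolynomial.aeval u B ≠ 0) (S : Sp K M' K'') {f : Fin (N + 1) → E} (hf1 : f i1 ≠ 0)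
    (hfS : ∀ i, S.T (algebraMap L M' (u i / u i1)) (algebraMap E K'' (f i / f i1)))
    (hinv : ∃ z, S.T (algebraMap L M' (MvPolynomial.aeval (fun i => u i / u i1) B))⁻¹ z)
    (hB' : MvPolynomial.aeval f B ≠ 0) {L' : Type} [Field L'] [Algebra L L'] (ψ : L' →ₐ[L] M')
    {g : L'} (hg : IntegralOn u B b g) {g' : K''} (hT : S.T (ψ g) g') {Q : Place K E}
    {Q'' : Place K K''} {e : ℕ} (hQ : Over Q'' Q e)
    (hQB : Q.ord (MvPolynomial.aeval f B) = b * pord Q f) : Ge Q'' 0 g' := by
  classical
  obtain ⟨p, hp, hreg, hpg⟩ := hg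
  choose c' hc'T hc'R using fun i => regular_spec hB hi1 hBu S hf1 hfS hinv hB' (hreg i)
  have h1 : ∑ i ∈ Finset.range (p.natDegree + 1), algebraMap L M' (p.coeff i) * ψ g ^ i = 0 := by
    have h2 : Polynomial.aeval (ψ g) p = 0 := by
      rw [Polynomial.aeval_algHom_apply, hpg, map_zero]
    rw [Polynomial.aeval_eq_sum_range] at h2
    simpa [Algebra.smul_def] using h2
  have h2 : S.T (∑ i ∈ Finset.range (p.natDegree + 1), algebraMap L M' (p.coeff i) * ψ g ^ i)
      (∑ i ∈ Finset.range (p.natDegree + 1), algebraMap E K'' (c' i) * g' ^ i) :=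
    S.sum _ fun i _ => S.mul (hc'T i) (S.pow hT i)
  have h3 := S.eq_zero h2 h1
  have h4 : algebraMap E K'' (c' p.natDegree) = 1 := by
    have h5 := hc'T p.natDegree
    rw [hp.coeff_natDegree, map_one] at h5
    exact S.ext h5 S.one
  rw [Finset.sum_range_succ, h4, one_mul, add_comm] at h3
  refine Pool.Agent.N617.RC.int_of_monic Q'' p.natDegree (fun i => algebraMap E K'' (c' i))
    (fun i _ => ?_) g' h3
  rcases hc'R i Q hQB with h | h
  · left
    rw [h, map_zero]
  · right
    rw [hQ.2]
    exact mul_nonneg (Int.natCast_nonneg _) h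

end

end Pool.Agent.J4.H14.MV
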